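import Pool.Agent.Lib.H79KC.E1

/-! # E2 -/

namespace Pool.Agent.Lib.H79KC

open Finset

/-- **Powers.** `E = NK U A 1`.

Proof. Induction on `j`: `E^(2^(j+1)) · #A² ≤ (#A^(2^j) NK(2^j))² ≤ #A^(2^(j+1)) #A NK(2^(j+1))`
and cancel `#A` (if `A = ∅` everything is `0`; careful with `j = 0`: `E · #A ≤ #A · NK U A 1`). -/
theorem NK_pow (U A : Finset ℤ) (j : ℕ) :
    (NK U A 1) ^ (2 ^ j) * #A ≤ #A ^ (2 ^ j) * NK U A (2 ^ j) := by
  rcases Nat.eq_zero_or_pos (#A) with h0 | hpos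
  · rw [h0, Nat.mul_zero]
    exact Nat.zero_le _
  · induction j with
    | zero =>
      simp only [pow_zero, pow_one]
      exact le_of_eq (Nat.mul_comm _ _)
    | succ j ih =>
      have hd := NK_double U A (2 ^ j)
      have e1 : (2 : ℕ) ^ (j + 1) = 2 ^ j + 2 ^ j := by rw [pow_succ]; omega
      have h2 : ((NK U A 1) ^ (2 ^ j) * #A) ^ 2 ≤ (#A ^ (2 ^ j) * NK U A (2 ^ j)) ^ 2 :=
        Nat.pow_le_pow_left ih 2
      have h3 : (#A ^ (2 ^ j) * NK U A (2 ^ j)) ^ 2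
          ≤ (#A ^ (2 ^ j)) ^ 2 * (#A * NK U A (2 ^ j + 2 ^ j)) := by
        rw [mul_pow]
        exact Nat.mul_le_mul_left _ hd
      have h4 := le_trans h2 h3
      rw [e1]
      refine Nat.le_of_mul_le_mul_right (c := #A) ?_ hpos
      calc (NK U A 1) ^ (2 ^ j + 2 ^ j) * #A * #A
          = ((NK U A 1) ^ (2 ^ j) * #A) ^ 2 := by rw [pow_add]; ring
        _ ≤ (#A ^ (2 ^ j)) ^ 2 * (#A * NK U A (2 ^ j + 2 ^ j)) := h4
        _ = #A ^ (2 ^ j + 2 ^ j) * NK U A (2 ^ j + 2 ^ j) * #A := by rw [pow_add]; ring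

end Pool.Agent.Lib.H79KC
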