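import Pool.Agent.Lib.H79KC.Defs

/-! # E3 -/

namespace Pool.Agent.Lib.H79KC

open Finset

/-- The additive energy of sets of naturals is `NK U A 1`.

Proof. `addEnergy U A = #{((u,u'),(a,a')) : u + a = u' + a'}` (definition of `Finset.addEnergy`);
`(a', (u'...))`: the map `((u,u'),(a,a')) ↦ (a, (u), (u'))` with `a + u - u' = a'` is a bijection
(`u`, `u'` as functions on `Fin 1`, all numbers cast to `ℤ`; `Nat.cast` is injective). -/
theorem addEnergy_eq (U A : Finset ℕ) :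
    Finset.addEnergy U A = NK (U.image (Nat.cast : ℕ → ℤ)) (A.image (Nat.cast : ℕ → ℤ)) 1 := by
  unfold Finset.addEnergy NK
  refine Finset.card_nbij'
    (fun x => ((x.2.1 : ℤ), ((fun _ => (x.1.1 : ℤ)), (fun _ => (x.1.2 : ℤ)))))
    (fun t => (((t.2.1 0).toNat, (t.2.2 0).toNat),
      (t.1.toNat, (t.1 + t.2.1 0 - t.2.2 0).toNat))) ?_ ?_ ?_ ?_
  · rintro ⟨⟨u, u'⟩, ⟨a, a'⟩⟩ hx
    simp only [coe_filter, mem_product, Set.mem_setOf_eq] at hx
    obtain ⟨⟨⟨hu, hu'⟩, ha, ha'⟩, h⟩ := hx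
    simp only [coe_filter, mem_product, Fintype.mem_piFinset, Set.mem_setOf_eq, mem_image,
      Fin.sum_univ_one]
    refine ⟨⟨⟨a, ha, rfl⟩, fun _ => ⟨u, hu, rfl⟩, fun _ => ⟨u', hu', rfl⟩⟩, a', ha', ?_⟩
    have : (u : ℤ) + a = u' + a' := by exact_mod_cast h
    linarith
  · rintro ⟨a, f, g⟩ ht
    simp only [coe_filter, mem_product, Fintype.mem_piFinset, Set.mem_setOf_eq, mem_image,
      Fin.sum_univ_one] at ht
    obtain ⟨⟨⟨a0, ha0, rfl⟩, hf, hg⟩, a1, ha1, h1⟩ := ht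
    obtain ⟨u, hu, hu0⟩ := hf 0
    obtain ⟨v, hv, hv0⟩ := hg 0
    simp only [coe_filter, mem_product, Set.mem_setOf_eq]
    rw [← h1, ← hu0, ← hv0]
    simp only [Int.toNat_natCast]
    refine ⟨⟨⟨hu, hv⟩, ha0, ha1⟩, ?_⟩
    rw [← hu0, ← hv0] at h1
    have : (a1 : ℤ) = a0 + u - v := h1
    have h2 : ((u + a0 : ℕ) : ℤ) = ((v + a1 : ℕ) : ℤ) := by push_cast; linarith
    exact_mod_cast h2
  · rintro ⟨⟨u, u'⟩, ⟨a, a'⟩⟩ hx
    simp only [coe_filter, mem_product, Set.mem_setOf_eq] at hx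
    obtain ⟨⟨⟨hu, hu'⟩, ha, ha'⟩, h⟩ := hx
    have : (a : ℤ) + u - u' = a' := by
      have : (u : ℤ) + a = u' + a' := by exact_mod_cast h
      linarith
    simp only [Int.toNat_natCast, this]
  · rintro ⟨a, f, g⟩ ht
    simp only [coe_filter, mem_product, Fintype.mem_piFinset, Set.mem_setOf_eq, mem_image,
      Fin.sum_univ_one] at ht
    obtain ⟨⟨⟨a0, ha0, rfl⟩, hf, hg⟩, a1, ha1, h1⟩ := ht
    obtain ⟨u, hu, hu0⟩ := hf 0
    obtain ⟨v, hv, hv0⟩ := hg 0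
    have hf' : f = fun _ => (u : ℤ) := by
      funext i; rw [Subsingleton.elim i 0, ← hu0]
    have hg' : g = fun _ => (v : ℤ) := by
      funext i; rw [Subsingleton.elim i 0, ← hv0]
    subst hf' hg'
    simp only [Int.toNat_natCast]

end Pool.Agent.Lib.H79KC
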