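import Pool.Agent.Lib.H79KC.Defs
import Mathlib.Data.Nat.Size
import Mathlib.Analysis.Complex.ExponentialBounds

/-! # G1 -/

namespace Pool.Agent.Lib.H79KC

open Finset

/-- `2 · size b ≤ b^η` for large `b`.

Proof. `b < 2^(Nat.size b)` and `2^(size b - 1) ≤ b`, so `size b ≤ log b / log 2 + 1`; and
`log b = o(b^η)` (`isLittleO_log_rpow_atTop`). -/
theorem two_size_le {η : ℝ} (hη : 0 < η) : ∃ b0 : ℕ, ∀ b : ℕ, b0 ≤ b →
    (2 * (Nat.size b : ℝ)) ≤ (b : ℝ) ^ η := by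
  have h1 := (isLittleO_log_rpow_atTop hη).bound (show (0 : ℝ) < 1 / 8 by norm_num)
  have h2 := (tendsto_rpow_atTop hη).eventually_ge_atTop 4
  have h3 : ∀ᶠ x : ℝ in Filter.atTop, 4 * Real.log x + 2 ≤ x ^ η := by
    filter_upwards [h1, h2, Filter.eventually_ge_atTop (1 : ℝ)] with x hx1 hx2 hx3
    have hlog : 0 ≤ Real.log x := Real.log_nonneg hx3
    have hpow : 0 ≤ x ^ η := by linarith
    rw [Real.norm_of_nonneg hlog, Real.norm_of_nonneg hpow] at hx1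
    linarith
  have h4 : ∀ᶠ b : ℕ in Filter.atTop, 4 * Real.log (b : ℝ) + 2 ≤ (b : ℝ) ^ η :=
    tendsto_natCast_atTop_atTop.eventually h3
  obtain ⟨b0, hb0⟩ := Filter.eventually_atTop.mp h4
  refine ⟨max b0 1, fun b hb => ?_⟩
  have hb1 : b0 ≤ b := le_trans (le_max_left _ _) hb
  have hb2 : 1 ≤ b := le_trans (le_max_right _ _) hb
  have hpos : 0 < Nat.size b := Nat.size_pos.mpr hb2
  have h5 : 2 ^ (Nat.size b - 1) ≤ b := Nat.lt_size.mp (by omega)
  have h6 : ((Nat.size b - 1 : ℕ) : ℝ) * Real.log 2 ≤ Real.log (b : ℝ) := by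
    rw [← Real.log_pow]
    apply Real.log_le_log (by positivity)
    exact_mod_cast h5
  have h7 : ((Nat.size b - 1 : ℕ) : ℝ) = (Nat.size b : ℝ) - 1 := by
    rw [Nat.cast_sub hpos]; norm_num
  rw [h7] at h6
  have h8 : (1 / 2 : ℝ) ≤ Real.log 2 := by
    have := Real.log_two_gt_d9; linarith
  have h9 : (1 : ℝ) ≤ (Nat.size b : ℝ) := by exact_mod_cast hpos
  have h10 : ((Nat.size b : ℝ) - 1) * (1 / 2) ≤ ((Nat.size b : ℝ) - 1) * Real.log 2 :=
    mul_le_mul_of_nonneg_left h8 (by linarith)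
  have h11 := hb0 b hb1
  linarith

end Pool.Agent.Lib.H79KC
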