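import Pool.Agent.Lib.H79KC.G4
import Pool.Agent.Lib.H79KC.G1
import Pool.Agent.Lib.H79KC.E2
import Pool.Agent.Lib.H79KC.E3

/-! # G5 -/

namespace Pool.Agent.Lib.H79KC

open Finset

private theorem G5_bracket {b K L N : ℕ} {c γ η s : ℝ} (hb1 : (1 : ℝ) ≤ b) (hc : 0 < c)
    (h1 : 2 * η ≤ γ) (h2 : η ≤ c / (32 * ((L : ℝ) + 1))) (hs0 : 0 ≤ s)
    (hs : s ≤ (b : ℝ) ^ (η * N)) (hN : 1 + K + (b : ℝ) ≤ (b : ℝ) ^ (η / 2 * N)) :
    s * (b : ℝ) ^ (-(γ * N)) + s * (K * s * (b : ℝ) ^ (-(c / 2 * N)) +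
      b * (b : ℝ) ^ (-(c * N / (16 * ((L : ℝ) + 1))))) ≤ (b : ℝ) ^ (-(η / 2 * N)) := by
  have hb0 : (0 : ℝ) < b := by linarith
  have hN0 : (0 : ℝ) ≤ N := Nat.cast_nonneg N
  have hL0 : (0 : ℝ) ≤ L := Nat.cast_nonneg L
  have hL1 : (0 : ℝ) < (L : ℝ) + 1 := by linarith
  have hK0 : (0 : ℝ) ≤ K := Nat.cast_nonneg K
  have hx : ∀ x : ℝ, (0 : ℝ) < (b : ℝ) ^ x := fun x => Real.rpow_pos_of_pos hb0 x
  have h3 : η ≤ c / 32 := by
    refine h2.trans ?_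
    apply div_le_div_of_nonneg_left hc.le (by norm_num)
    linarith
  have t1 : s * (b : ℝ) ^ (-(γ * N)) ≤ (b : ℝ) ^ (-(η * N)) := by
    calc s * (b : ℝ) ^ (-(γ * N)) ≤ (b : ℝ) ^ (η * N) * (b : ℝ) ^ (-(γ * N)) :=
          mul_le_mul_of_nonneg_right hs (hx _).le
      _ = (b : ℝ) ^ (η * N + -(γ * N)) := (Real.rpow_add hb0 _ _).symm
      _ ≤ (b : ℝ) ^ (-(η * N)) := by
          apply Real.rpow_le_rpow_of_exponent_le hb1
          nlinarith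
  have t2 : s * (K * s * (b : ℝ) ^ (-(c / 2 * N))) ≤ K * (b : ℝ) ^ (-(η * N)) := by
    have e1 : s * s ≤ (b : ℝ) ^ (η * N) * (b : ℝ) ^ (η * N) :=
      mul_le_mul hs hs hs0 (hx _).le
    calc s * (K * s * (b : ℝ) ^ (-(c / 2 * N))) = K * ((s * s) * (b : ℝ) ^ (-(c / 2 * N))) := by
          ring
      _ ≤ K * (((b : ℝ) ^ (η * N) * (b : ℝ) ^ (η * N)) * (b : ℝ) ^ (-(c / 2 * N))) :=
          mul_le_mul_of_nonneg_left (mul_le_mul_of_nonneg_right e1 (hx _).le) hK0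
      _ = K * (b : ℝ) ^ (η * N + η * N + -(c / 2 * N)) := by
          rw [← Real.rpow_add hb0, ← Real.rpow_add hb0]
      _ ≤ K * (b : ℝ) ^ (-(η * N)) := by
          apply mul_le_mul_of_nonneg_left _ hK0
          apply Real.rpow_le_rpow_of_exponent_le hb1
          nlinarith
  have t3 : s * (b * (b : ℝ) ^ (-(c * N / (16 * ((L : ℝ) + 1))))) ≤
      b * (b : ℝ) ^ (-(η * N)) := by
    have e3 : c * N / (16 * ((L : ℝ) + 1)) = 2 * (c / (32 * ((L : ℝ) + 1))) * N := by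
      field_simp
      ring
    calc s * (b * (b : ℝ) ^ (-(c * N / (16 * ((L : ℝ) + 1))))) =
          b * (s * (b : ℝ) ^ (-(c * N / (16 * ((L : ℝ) + 1))))) := by ring
      _ ≤ b * ((b : ℝ) ^ (η * N) * (b : ℝ) ^ (-(c * N / (16 * ((L : ℝ) + 1))))) :=
          mul_le_mul_of_nonneg_left (mul_le_mul_of_nonneg_right hs (hx _).le) hb0.le
      _ = b * (b : ℝ) ^ (η * N + -(c * N / (16 * ((L : ℝ) + 1)))) := by
          rw [← Real.rpow_add hb0]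
      _ ≤ b * (b : ℝ) ^ (-(η * N)) := by
          apply mul_le_mul_of_nonneg_left _ hb0.le
          apply Real.rpow_le_rpow_of_exponent_le hb1
          rw [e3]
          nlinarith
  calc s * (b : ℝ) ^ (-(γ * N)) + s * (K * s * (b : ℝ) ^ (-(c / 2 * N)) +
        b * (b : ℝ) ^ (-(c * N / (16 * ((L : ℝ) + 1))))) =
        s * (b : ℝ) ^ (-(γ * N)) + s * (K * s * (b : ℝ) ^ (-(c / 2 * N))) +
          s * (b * (b : ℝ) ^ (-(c * N / (16 * ((L : ℝ) + 1))))) := by ring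
    _ ≤ (b : ℝ) ^ (-(η * N)) + K * (b : ℝ) ^ (-(η * N)) + b * (b : ℝ) ^ (-(η * N)) :=
        add_le_add (add_le_add t1 t2) t3
    _ = (1 + K + (b : ℝ)) * (b : ℝ) ^ (-(η * N)) := by ring
    _ ≤ (b : ℝ) ^ (η / 2 * N) * (b : ℝ) ^ (-(η * N)) :=
        mul_le_mul_of_nonneg_right hN (hx _).le
    _ = (b : ℝ) ^ (η / 2 * N + -(η * N)) := (Real.rpow_add hb0 _ _).symm
    _ = (b : ℝ) ^ (-(η / 2 * N)) := by
        congr 1
        ring

/-- **CORE THEOREM.**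

Proof. `L = ⌈5/κ⌉₊`, `σ = c/(16(L+3))`.  Given `γ`, let `η = min (γ/2) (c/(32 (L+1)))` and take `b0`
from `two_size_le`, `≥ 4` and `≥ 2 + 8/√c`.  For `b ≥ b0` let `K = 2^j` be the least power of two
`≥ b^(2L)` (so `K ≤ 2 b^(2L)`), `ζ = min (γ/2) (c/(32(L+1)))`, `ε = ζ/(2K)` and `N0` so large
that `16 (L+3) ≤ c N` and `1 + K + b ≤ b^(ζN/2)` for `N ≥ N0`.  `A = ∅` is trivial.  With
`2 size b ≤ b^η` the bracket of `NK_bound` is
`≤ b^(ηN - γN) + K b^(2ηN - cN/2) + b b^(ηN - cN/(16(L+1))) ≤ (1 + K + b) b^(-ζN) ≤ b^(-ζN/2)`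
(`η ≤ γ/2`, `2η ≤ c/4`, `η ≤ c/(32(L+1))`).  So by `addEnergy_eq` and `NK_pow` (with `E` the
energy): `E^K #A ≤ #A^K NK ≤ #A^K b^(-ζN/2) #A #U^(2K)`, hence `E^K ≤ (b^(-εN) #A #U²)^K` and
`E ≤ b^(-εN) #U² #A` (`pow_le_pow_left₀` contrapositive: `le_of_pow_le_pow_left₀`/
`pow_le_pow_iff_left₀`). -/
theorem core {κ c : ℝ} (hκ : 0 < κ) (hκ1 : κ ≤ 1) (hc : 0 < c) (hc1 : c ≤ 1) :
    ∃ σ : ℝ, 0 < σ ∧ ∀ γ : ℝ, 0 < γ → ∃ b0 : ℕ, ∀ b : ℕ, b0 ≤ b →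
      ∃ ε : ℝ, 0 < ε ∧ ∃ N0 : ℕ, ∀ N : ℕ, N0 ≤ N → ∀ U A : Finset ℕ,
        U ⊆ Finset.range (b ^ N) → A ⊆ Finset.range (b ^ N) → (b : ℝ) ^ (c * N) ≤ #U →
        (∀ (R : ℕ → ℕ) (A' : Finset ℕ), A' ⊆ A → A'.Nonempty → IsReg b N R A' →
          (b : ℝ) ^ (-(γ * N)) * #A ≤ #A' →
          (#((Finset.range N).filter fun h => (b : ℝ) ^ (1 - κ) < R h) : ℝ) ≤ σ * N) →
        (Finset.addEnergy U A : ℝ) ≤ (b : ℝ) ^ (-(ε * N)) * #U ^ 2 * #A := by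
  set L : ℕ := ⌈5 / κ⌉₊ with hLdef
  have hL : 5 / κ ≤ L := Nat.le_ceil _
  have hL0 : (0 : ℝ) ≤ L := Nat.cast_nonneg L
  have hL3 : (0 : ℝ) < (L : ℝ) + 3 := by linarith
  have hL1 : (0 : ℝ) < (L : ℝ) + 1 := by linarith
  refine ⟨c / (16 * ((L : ℝ) + 3)), by positivity, ?_⟩
  intro γ hγ
  have hη : 0 < min (γ / 2) (c / (32 * ((L : ℝ) + 1))) := lt_min (by positivity) (by positivity)
  set η : ℝ := min (γ / 2) (c / (32 * ((L : ℝ) + 1))) with hηdef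
  have hη1 : 2 * η ≤ γ := by
    have := min_le_left (γ / 2) (c / (32 * ((L : ℝ) + 1)))
    rw [← hηdef] at this
    linarith
  have hη2 : η ≤ c / (32 * ((L : ℝ) + 1)) := min_le_right _ _
  obtain ⟨b1, hb1⟩ := two_size_le hη
  refine ⟨max b1 (max 4 ⌈2 + 8 / √c⌉₊), ?_⟩
  intro b hbb
  have hbb1 : b1 ≤ b := (le_max_left _ _).trans hbb
  have hb4 : 4 ≤ b := ((le_max_left _ _).trans (le_max_right _ _)).trans hbb
  have hb : 2 + 8 / √c ≤ b := by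
    have h := ((le_max_right 4 ⌈2 + 8 / √c⌉₊).trans (le_max_right b1 _)).trans hbb
    exact (Nat.le_ceil _).trans (by exact_mod_cast h)
  have hs := hb1 b hbb1
  have hb0n : 0 < b := by omega
  have hb0 : (0 : ℝ) < b := by exact_mod_cast hb0n
  have hb1r : (1 : ℝ) ≤ b := by
    have : 1 ≤ b := by omega
    exact_mod_cast this
  have hb1s : (1 : ℝ) < b := by
    have : 1 < b := by omega
    exact_mod_cast this
  have hM0 : 0 < b ^ (2 * L) := by positivity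
  set j : ℕ := Nat.size (b ^ (2 * L)) with hjdef
  have hK1 : b ^ (2 * L) ≤ 2 ^ j := (Nat.lt_size_self _).le
  have hj0 : 0 < j := Nat.size_pos.mpr hM0
  have hK2 : 2 ^ j ≤ 2 * b ^ (2 * L) := by
    have h1 : 2 ^ (j - 1) ≤ b ^ (2 * L) := Nat.lt_size.mp (by omega)
    calc 2 ^ j = 2 * 2 ^ (j - 1) := by
          rw [← pow_succ']
          congr 1
          omega
      _ ≤ 2 * b ^ (2 * L) := Nat.mul_le_mul_left _ h1
  set K : ℕ := 2 ^ j with hKdef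
  have hK0n : 0 < K := by positivity
  have hK0 : (0 : ℝ) < K := by exact_mod_cast hK0n
  refine ⟨η / (2 * K), by positivity, ?_⟩
  have hq : 1 < (b : ℝ) ^ (η / 2) := Real.one_lt_rpow hb1s (by positivity)
  obtain ⟨n, hn⟩ := pow_unbounded_of_one_lt (1 + K + (b : ℝ)) hq
  refine ⟨max n ⌈16 * ((L : ℝ) + 3) / c⌉₊, ?_⟩
  intro N hNN U A hU hA hUc hyp
  have hNn : n ≤ N := (le_max_left _ _).trans hNN
  have hN1 : 16 * ((L : ℝ) + 3) ≤ c * N := by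
    have h := (le_max_right n ⌈16 * ((L : ℝ) + 3) / c⌉₊).trans hNN
    have h2 : 16 * ((L : ℝ) + 3) / c ≤ N := (Nat.le_ceil _).trans (by exact_mod_cast h)
    rw [div_le_iff₀ hc] at h2
    linarith
  have hN2 : 1 + K + (b : ℝ) ≤ (b : ℝ) ^ (η / 2 * N) := by
    rw [Real.rpow_mul hb0.le, Real.rpow_natCast]
    exact hn.le.trans (pow_le_pow_right₀ hq.le hNn)
  rcases A.eq_empty_or_nonempty with rfl | hAne
  · simp
  have hNK := NK_bound hκ hκ1 hc hc1 hγ hL hb4 hb hK1 hK2 hN1 hU hA hAne hUc hyp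
  have hs0 : (0 : ℝ) ≤ (2 * Nat.size b : ℝ) ^ N := by positivity
  have hs1 : (2 * Nat.size b : ℝ) ^ N ≤ (b : ℝ) ^ (η * N) := by
    rw [Real.rpow_mul hb0.le, Real.rpow_natCast]
    exact pow_le_pow_left₀ (by positivity) hs N
  have hB := G5_bracket (K := K) (L := L) hb1r hc hη1 hη2 hs0 hs1 hN2
  have hE : (Finset.addEnergy U A : ℝ) =
      (NK (U.image (Nat.cast : ℕ → ℤ)) (A.image (Nat.cast : ℕ → ℤ)) 1 : ℕ) := by
    rw [addEnergy_eq]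
  have hP := NK_pow (U.image (Nat.cast : ℕ → ℤ)) (A.image (Nat.cast : ℕ → ℤ)) j
  rw [← addEnergy_eq, card_image_of_injective _ Nat.cast_injective, ← hKdef] at hP
  have hPr : (Finset.addEnergy U A : ℝ) ^ K * #A ≤
      (#A : ℝ) ^ K * (NK (U.image (Nat.cast : ℕ → ℤ)) (A.image (Nat.cast : ℕ → ℤ)) K : ℝ) := by
    exact_mod_cast hP
  have ha : (0 : ℝ) < #A := by exact_mod_cast hAne.card_pos
  have hu : (0 : ℝ) ≤ #U := Nat.cast_nonneg _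
  have h5 : (NK (U.image (Nat.cast : ℕ → ℤ)) (A.image (Nat.cast : ℕ → ℤ)) K : ℝ) ≤
      (b : ℝ) ^ (-(η / 2 * N)) * #A * (#U : ℝ) ^ (2 * K) := by
    refine hNK.trans ?_
    apply mul_le_mul_of_nonneg_right _ (by positivity)
    exact mul_le_mul_of_nonneg_right hB ha.le
  have h6 : (Finset.addEnergy U A : ℝ) ^ K * #A ≤
      ((#A : ℝ) ^ K * ((b : ℝ) ^ (-(η / 2 * N)) * (#U : ℝ) ^ (2 * K))) * #A := by
    calc _ ≤ _ := hPr
      _ ≤ (#A : ℝ) ^ K * ((b : ℝ) ^ (-(η / 2 * N)) * #A * (#U : ℝ) ^ (2 * K)) :=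
          mul_le_mul_of_nonneg_left h5 (by positivity)
      _ = _ := by ring
  have h7 : (Finset.addEnergy U A : ℝ) ^ K ≤
      (#A : ℝ) ^ K * ((b : ℝ) ^ (-(η / 2 * N)) * (#U : ℝ) ^ (2 * K)) :=
    le_of_mul_le_mul_right h6 ha
  have h8 : ((b : ℝ) ^ (-(η / (2 * K) * N))) ^ K = (b : ℝ) ^ (-(η / 2 * N)) := by
    rw [← Real.rpow_natCast, ← Real.rpow_mul hb0.le]
    congr 1
    field_simp
  have h9 : (Finset.addEnergy U A : ℝ) ^ K ≤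
      ((b : ℝ) ^ (-(η / (2 * K) * N)) * #U ^ 2 * #A) ^ K := by
    refine h7.trans (le_of_eq ?_)
    rw [mul_pow, mul_pow, h8, ← pow_mul]
    ring
  exact (pow_le_pow_iff_left₀ (by positivity) (by positivity) hK0n.ne').mp h9

end Pool.Agent.Lib.H79KC
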