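import Pool.Agent.Lib.H79KC.Trees
import Mathlib.Combinatorics.SetFamily.LYM

/-! # A1 -/

namespace Pool.Agent.Lib.H79KC

open Finset

theorem A1_key {ι : Type} [DecidableEq ι] (δ : ι → ℤ) (Neg S : Finset ι)
    (hN : ∀ i, i ∈ Neg ↔ δ i < 0) :
    ∑ i ∈ S, δ i = ∑ i ∈ symmDiff S Neg, |δ i| + ∑ i ∈ Neg, δ i := by
  have h1 : symmDiff S Neg = (S \ Neg) ∪ (Neg \ S) := rfl
  have hd : Disjoint (S \ Neg) (Neg \ S) := by
    rw [Finset.disjoint_left]
    intro a ha hb
    exact (Finset.mem_sdiff.1 ha).2 (Finset.mem_sdiff.1 hb).1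
  rw [h1, Finset.sum_union hd]
  have e1 : ∑ i ∈ S \ Neg, |δ i| = ∑ i ∈ S \ Neg, δ i :=
    Finset.sum_congr rfl fun i hi => by
      have := (Finset.mem_sdiff.1 hi).2
      rw [hN] at this
      exact abs_of_nonneg (not_lt.1 this)
  have e2 : ∑ i ∈ Neg \ S, |δ i| = - ∑ i ∈ Neg \ S, δ i := by
    rw [← Finset.sum_neg_distrib]
    exact Finset.sum_congr rfl fun i hi => by
      have := (Finset.mem_sdiff.1 hi).1
      rw [hN] at this
      exact abs_of_neg this
  have e3 : ∑ i ∈ Neg, δ i = ∑ i ∈ Neg \ S, δ i + ∑ i ∈ Neg ∩ S, δ i := by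
    rw [add_comm]
    exact (Finset.sum_inter_add_sum_sdiff Neg S δ).symm
  have e4 : ∑ i ∈ S, δ i = ∑ i ∈ S \ Neg, δ i + ∑ i ∈ Neg ∩ S, δ i := by
    rw [add_comm, Finset.inter_comm]
    exact (Finset.sum_inter_add_sum_sdiff S Neg δ).symm
  rw [e1, e2, e3, e4]
  ring

/-- **Littlewood–Offord (Erdős).** If `|δ i| ≥ w > 0` for all `i`, then at most
`C(m, m/2)` (`m = #ι`) of the `2^m` sums `Σ_{i ∈ S} δ i` lie in `[x, x + w)`.

Proof. Let `Neg = {i | δ i < 0}`.  The map `S ↦ S ∆ Neg` is a bijection of the subsets, and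
`Σ_{i ∈ S} δ i = Σ_{i ∈ S ∆ Neg} |δ i| + Σ_{i ∈ Neg} δ i`; so it is enough to count the sets `S'`
with `x' ≤ Σ_{i ∈ S'} |δ i| < x' + w`, where `x' = x - Σ_{Neg} δ`.  These sets form an antichain:
if `S' ⊂ S''` then the sums differ by at least one `|δ i| ≥ w`.  Now Sperner:
`IsAntichain.sperner`. -/
theorem littlewood_offord {ι : Type} [Fintype ι] [DecidableEq ι] (δ : ι → ℤ) {w : ℤ} (hw : 0 < w)
    (hδ : ∀ i, w ≤ |δ i|) (x : ℤ) :
    #((univ : Finset (Finset ι)).filter fun S => x ≤ ∑ i ∈ S, δ i ∧ ∑ i ∈ S, δ i < x + w) ≤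
      (Fintype.card ι).choose (Fintype.card ι / 2) := by
  classical
  set Neg : Finset ι := univ.filter fun i => δ i < 0 with hNeg
  have hN : ∀ i, i ∈ Neg ↔ δ i < 0 := fun i => by simp [hNeg]
  set F := (univ : Finset (Finset ι)).filter fun S => x ≤ ∑ i ∈ S, δ i ∧ ∑ i ∈ S, δ i < x + w with hF
  set G : Finset (Finset ι) := F.image fun S => symmDiff S Neg with hG
  have hcard : #G = #F := by
    apply Finset.card_image_of_injective
    intro S T h
    exact symmDiff_left_injective Neg h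
  have hanti : IsAntichain (· ⊆ ·) (G : Set (Finset ι)) := by
    intro S' hS' T' hT' hne hsub
    rw [Finset.mem_coe, hG, Finset.mem_image] at hS' hT'
    obtain ⟨S, hS, rfl⟩ := hS'
    obtain ⟨T, hT, rfl⟩ := hT'
    rw [hF, Finset.mem_filter] at hS hT
    have kS := A1_key δ Neg S hN
    have kT := A1_key δ Neg T hN
    have hss : symmDiff S Neg ⊂ symmDiff T Neg := Finset.ssubset_iff_subset_ne.2 ⟨hsub, hne⟩
    obtain ⟨a, ha, haS⟩ := Finset.exists_of_ssubset hss
    have h3 : ∑ i ∈ symmDiff S Neg, |δ i| + |δ a| ≤ ∑ i ∈ symmDiff T Neg, |δ i| := by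
      have h4 : insert a (symmDiff S Neg) ⊆ symmDiff T Neg := Finset.insert_subset ha hsub
      have h5 := Finset.sum_le_sum_of_subset_of_nonneg (f := fun i => |δ i|) h4
        (fun i _ _ => abs_nonneg _)
      rw [Finset.sum_insert haS] at h5
      linarith
    have h6 := hδ a
    have h7 := hS.2.1
    have h8 := hT.2.2
    linarith
  rw [← hcard]
  exact hanti.sperner

end Pool.Agent.Lib.H79KC
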