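import Pool.Agent.Lib.H79KC.Trees

/-! # A2 -/

namespace Pool.Agent.Lib.H79KC

open Finset

private theorem A2_even (k : ℕ) : (2 * k + 1) * (Nat.centralBinom k) ^ 2 ≤ 16 ^ k := by
  induction k with
  | zero => simp
  | succ k ih =>
    have h := Nat.succ_mul_centralBinom_succ k
    have h1 : (k + 1) ^ 2 * ((2 * (k + 1) + 1) * (Nat.centralBinom (k + 1)) ^ 2) ≤ (k + 1) ^ 2 * 16 ^ (k + 1) := by
      calc (k + 1) ^ 2 * ((2 * (k + 1) + 1) * (Nat.centralBinom (k + 1)) ^ 2)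
          = (2 * (k + 1) + 1) * ((k + 1) * Nat.centralBinom (k + 1)) ^ 2 := by ring
        _ = (2 * (k + 1) + 1) * (2 * (2 * k + 1) * Nat.centralBinom k) ^ 2 := by rw [h]
        _ = 4 * (2 * k + 3) * (2 * k + 1) * ((2 * k + 1) * (Nat.centralBinom k) ^ 2) := by ring
        _ ≤ 4 * (2 * k + 3) * (2 * k + 1) * 16 ^ k := Nat.mul_le_mul_left _ ih
        _ ≤ (16 * (k + 1) ^ 2) * 16 ^ k := Nat.mul_le_mul_right _ (by nlinarith)
        _ = (k + 1) ^ 2 * 16 ^ (k + 1) := by ring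
    exact Nat.le_of_mul_le_mul_left h1 (by positivity)

/-- `m C(m, m/2)² ≤ 4^m`.

Proof. First `(2k+1) C(2k,k)² ≤ 16^k` by induction on `k`, using
`Nat.succ_mul_centralBinom_succ : (n+1) * centralBinom (n+1) = 2 * (2n+1) * centralBinom n`:
`(2k+3) C(2k+2,k+1)² = (2k+3) 4 (2k+1)² C(2k,k)²/(k+1)²` and `(2k+3)(2k+1) ≤ 4 (k+1)²`.
For `m = 2k` this gives the claim.  For `m = 2k+1`, `C(2k+2,k+1) = 2 C(2k+1,k)`, so
`4 (2k+3) C(2k+1,k)² ≤ 16^(k+1)`, i.e. `(2k+3) C(2k+1,k)² ≤ 4 · 16^k = 4^(2k+1)`. -/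
theorem mul_choose_sq_le (m : ℕ) : m * (m.choose (m / 2)) ^ 2 ≤ 4 ^ m := by
  rcases Nat.even_or_odd' m with ⟨k, hk | hk⟩
  · subst hk
    have h1 : 2 * k / 2 = k := by omega
    have h2 := A2_even k
    rw [Nat.centralBinom_eq_two_mul_choose] at h2
    rw [h1]
    have h3 : (4 : ℕ) ^ (2 * k) = 16 ^ k := by
      rw [pow_mul]
      norm_num
    rw [h3]
    exact le_trans (Nat.mul_le_mul_right _ (by omega)) h2
  · subst hk
    have h1 : (2 * k + 1) / 2 = k := by omega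
    have h2 := A2_even (k + 1)
    have h4 : Nat.centralBinom (k + 1) = 2 * (2 * k + 1).choose k := by
      rw [Nat.centralBinom_eq_two_mul_choose]
      have e : 2 * (k + 1) = (2 * k + 1) + 1 := by ring
      rw [e, Nat.choose_succ_succ, Nat.choose_symm_half]
      ring
    rw [h4] at h2
    rw [h1]
    have h3 : (4 : ℕ) ^ (2 * k + 1) = 4 * 16 ^ k := by
      rw [pow_succ, pow_mul]
      norm_num
      ring
    rw [h3]
    have h5 : (16 : ℕ) ^ (k + 1) = 16 * 16 ^ k := by ring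
    rw [h5] at h2
    nlinarith [h2]

end Pool.Agent.Lib.H79KC
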