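import Pool.Agent.Lib.H79KC.A1

/-! # A3 -/

namespace Pool.Agent.Lib.H79KC

open Finset

theorem a3_bij {ι : Type} [Fintype ι] [DecidableEq ι] (V : ι → Finset ℤ) (φ : ι → ℤ → ℤ)
    (S : Finset ι) (hφ : ∀ i ∈ S, Set.BijOn (φ i) (V i) (V i)) (Q : (ι → ℤ) → Prop)
    [DecidablePred Q] :
    #((Fintype.piFinset V).filter fun u => Q (fun i => if i ∈ S then φ i (u i) else u i)) =
      #((Fintype.piFinset V).filter Q) := by
  apply Finset.card_bij (fun u _ => fun i => if i ∈ S then φ i (u i) else u i)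
  · intro u hu
    rw [Finset.mem_filter, Fintype.mem_piFinset] at hu ⊢
    refine ⟨fun i => ?_, hu.2⟩
    by_cases hi : i ∈ S
    · rw [if_pos hi]
      exact (hφ i hi).1 (hu.1 i)
    · rw [if_neg hi]
      exact hu.1 i
  · intro u hu v hv h
    rw [Finset.mem_filter, Fintype.mem_piFinset] at hu hv
    funext i
    have h1 := congrFun h i
    by_cases hi : i ∈ S
    · simp only [if_pos hi] at h1
      exact (hφ i hi).2.1 (hu.1 i) (hv.1 i) h1
    · simpa only [if_neg hi] using h1
  · intro v hv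
    rw [Finset.mem_filter, Fintype.mem_piFinset] at hv
    have hex : ∀ i, ∃ x, x ∈ V i ∧ (if i ∈ S then φ i x else x) = v i := by
      intro i
      by_cases hi : i ∈ S
      · obtain ⟨x, hx, hx2⟩ := (hφ i hi).2.2 (hv.1 i)
        exact ⟨x, hx, by rw [if_pos hi]; exact hx2⟩
      · exact ⟨v i, hv.1 i, by rw [if_neg hi]⟩
    choose u hu1 hu2 using hex
    have hu3 : (fun i => if i ∈ S then φ i (u i) else u i) = v := funext hu2
    refine ⟨u, ?_, hu3⟩
    rw [Finset.mem_filter, Fintype.mem_piFinset]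
    refine ⟨hu1, ?_⟩
    rw [hu3]
    exact hv.2

theorem a3_sum {ι : Type} [Fintype ι] [DecidableEq ι] (φ : ι → ℤ → ℤ) (u : ι → ℤ)
    (S : Finset ι) :
    ∑ i, (if i ∈ S then φ i (u i) else u i) = ∑ i, u i + ∑ i ∈ S, (φ i (u i) - u i) := by
  have h1 : ∀ i, (if i ∈ S then φ i (u i) else u i) =
      u i + (if i ∈ S then (φ i (u i) - u i) else 0) := by
    intro i
    split_ifs <;> ring
  simp only [h1]
  rw [Finset.sum_add_distrib, Finset.sum_ite_mem, Finset.univ_inter]

theorem a3_fib {ι : Type} [DecidableEq ι] (I : Finset ι) {w : ℤ} (hw : 0 < w)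
    (δ : ι → ℤ) (hδ : ∀ i ∈ I, w ≤ |δ i|) (x : ℤ) :
    #(I.powerset.filter fun S => x ≤ ∑ i ∈ S, δ i ∧ ∑ i ∈ S, δ i < x + w) ≤
      (#I).choose (#I / 2) := by
  classical
  have h := littlewood_offord (fun i : {i // i ∈ I} => δ i) hw (fun i => hδ i i.2) x
  rw [Fintype.card_coe] at h
  refine le_trans ?_ h
  apply Finset.card_le_card_of_injOn (fun S => S.subtype (· ∈ I))
  · intro S hS
    rw [Finset.mem_coe, Finset.mem_filter, Finset.mem_powerset] at hS
    rw [Finset.mem_coe, Finset.mem_filter]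
    have e : ∑ i ∈ S.subtype (· ∈ I), δ (i : ι) = ∑ i ∈ S, δ i :=
      Finset.sum_subtype_of_mem δ (fun i hi => hS.1 hi)
    refine ⟨Finset.mem_univ _, ?_, ?_⟩
    · rw [e]; exact hS.2.1
    · rw [e]; exact hS.2.2
  · intro S hS T hT hST
    rw [Finset.mem_coe, Finset.mem_filter, Finset.mem_powerset] at hS hT
    have hST' : S.subtype (· ∈ I) = T.subtype (· ∈ I) := hST
    ext i
    constructor
    · intro hi
      have h1 : (⟨i, hS.1 hi⟩ : {i // i ∈ I}) ∈ S.subtype (· ∈ I) := by
        rw [Finset.mem_subtype]; exact hi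
      rw [hST', Finset.mem_subtype] at h1
      exact h1
    · intro hi
      have h1 : (⟨i, hT.1 hi⟩ : {i // i ∈ I}) ∈ T.subtype (· ∈ I) := by
        rw [Finset.mem_subtype]; exact hi
      rw [← hST', Finset.mem_subtype] at h1
      exact h1

/-- Let `I` be a set of indices such that `V i` (`i ∈ I`) has a bijection `φ i` onto itself which
moves every point by at least `w > 0`.  Then at most a proportion `C(#I, #I/2)/2^#I` of the points
of the product has its sum in `[y, y + w)`.

Proof. For `S ⊆ I` let `F_S(u) i = φ i (u i)` if `i ∈ S` and `u i` otherwise; `F_S` is a bijection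
of `piFinset V` onto itself.  So `2^#I · #{u : Σ u ∈ J} = Σ_{S ⊆ I} #{u : Σ F_S(u) ∈ J} =
Σ_u #{S ⊆ I : Σ_i u i + Σ_{i ∈ S} (φ i (u i) - u i) ∈ J}`, and for fixed `u` the last number is
`≤ C(#I, #I/2)` by `littlewood_offord` on the type `I` (`Finset.attach` / subtype, or
`I.powerset` instead of subsets of the type). -/
theorem lo_product {ι : Type} [Fintype ι] [DecidableEq ι] (V : ι → Finset ℤ) (I : Finset ι) {w : ℤ}
    (hw : 0 < w) (hV : ∀ i ∈ I, Shift (V i) w) (y : ℤ) :
    #((Fintype.piFinset V).filter fun u => y ≤ ∑ i, u i ∧ ∑ i, u i < y + w) * 2 ^ #I ≤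
      (#I).choose (#I / 2) * ∏ i, #(V i) := by
  classical
  have hex : ∀ i, ∃ φ : ℤ → ℤ, i ∈ I → (Set.BijOn φ (V i) (V i) ∧ ∀ x ∈ V i, w ≤ |φ x - x|) := by
    intro i
    by_cases hi : i ∈ I
    · obtain ⟨φ, h1, h2⟩ := hV i hi
      exact ⟨φ, fun _ => ⟨h1, h2⟩⟩
    · exact ⟨id, fun h => absurd h hi⟩
  choose φ hφ using hex
  set Q : (ι → ℤ) → Prop := fun u => y ≤ ∑ i, u i ∧ ∑ i, u i < y + w with hQ
  have h1 : #((Fintype.piFinset V).filter Q) * 2 ^ #I =
      ∑ S ∈ I.powerset, #((Fintype.piFinset V).filter fun u =>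
        Q (fun i => if i ∈ S then φ i (u i) else u i)) := by
    rw [Finset.sum_congr rfl (fun S hS => a3_bij V φ S
      (fun i hi => (hφ i (Finset.mem_powerset.1 hS hi)).1) Q), Finset.sum_const,
      Finset.card_powerset, smul_eq_mul, mul_comm]
  have h2 : ∑ S ∈ I.powerset, #((Fintype.piFinset V).filter fun u =>
        Q (fun i => if i ∈ S then φ i (u i) else u i)) =
      ∑ u ∈ Fintype.piFinset V, #(I.powerset.filter fun S =>
        Q (fun i => if i ∈ S then φ i (u i) else u i)) := by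
    simp only [Finset.card_filter]
    exact Finset.sum_comm
  have h3 : ∀ u ∈ Fintype.piFinset V, #(I.powerset.filter fun S =>
        Q (fun i => if i ∈ S then φ i (u i) else u i)) ≤ (#I).choose (#I / 2) := by
    intro u hu
    rw [Fintype.mem_piFinset] at hu
    have h4 := a3_fib I hw (fun i => φ i (u i) - u i) (fun i hi => (hφ i hi).2 _ (hu i))
      (y - ∑ i, u i)
    refine le_trans (Finset.card_le_card ?_) h4
    intro S hS
    rw [Finset.mem_filter] at hS ⊢
    refine ⟨hS.1, ?_⟩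
    have h5 := hS.2
    simp only [hQ, a3_sum φ u S] at h5
    exact ⟨by linarith [h5.1], by linarith [h5.2]⟩
  calc #((Fintype.piFinset V).filter Q) * 2 ^ #I
      = ∑ u ∈ Fintype.piFinset V, #(I.powerset.filter fun S =>
        Q (fun i => if i ∈ S then φ i (u i) else u i)) := by rw [h1, h2]
    _ ≤ ∑ u ∈ Fintype.piFinset V, (#I).choose (#I / 2) := Finset.sum_le_sum h3
    _ = (#I).choose (#I / 2) * ∏ i, #(V i) := by
        rw [Finset.sum_const, Fintype.card_piFinset, smul_eq_mul, mul_comm]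

end Pool.Agent.Lib.H79KC
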