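import Pool.Agent.Lib.H79KC.Trees

/-! # A4 -/

namespace Pool.Agent.Lib.H79KC

open Finset

private lemma A4_exists_bij (A B : Finset ℤ) (h : #A = #B) :
    ∃ e : ℤ → ℤ, Set.MapsTo e A B ∧ Set.InjOn e A := by
  classical
  let f : A ≃ B := Finset.equivOfCardEq h
  refine ⟨fun z => if hz : z ∈ A then (f ⟨z, hz⟩ : ℤ) else z, ?_, ?_⟩
  · intro z hz
    have hz' : z ∈ A := hz
    simp only [hz', dif_pos]
    exact (f ⟨z, hz'⟩).2
  · intro z hz z' hz' h1
    have k1 : z ∈ A := hz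
    have k2 : z' ∈ A := hz'
    simp only [k1, k2, dif_pos] at h1
    have h2 := f.injective (Subtype.ext h1)
    exact congrArg Subtype.val h2

private lemma A4_exists_cyc (D : Finset ℤ) (h : 2 ≤ #D) :
    ∃ c : ℤ → ℤ, Set.MapsTo c D D ∧ Set.InjOn c D ∧ ∀ d ∈ D, c d ≠ d := by
  classical
  obtain ⟨k, hk⟩ : ∃ k, #D = k + 2 := ⟨#D - 2, by omega⟩
  let e : D ≃ Fin (k + 2) := D.equivFinOfCardEq hk
  let f : D ≃ D := (e.trans (finRotate (k + 2))).trans e.symm
  refine ⟨fun z => if hz : z ∈ D then (f ⟨z, hz⟩ : ℤ) else z, ?_, ?_, ?_⟩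
  · intro z hz
    have hz' : z ∈ D := hz
    simp only [hz', dif_pos]
    exact (f ⟨z, hz'⟩).2
  · intro z hz z' hz' h1
    have k1 : z ∈ D := hz
    have k2 : z' ∈ D := hz'
    simp only [k1, k2, dif_pos] at h1
    have h2 := f.injective (Subtype.ext h1)
    exact congrArg Subtype.val h2
  · intro d hd h1
    simp only [hd, dif_pos] at h1
    have h2 : f ⟨d, hd⟩ = ⟨d, hd⟩ := Subtype.ext h1
    have h3 : finRotate (k + 2) (e ⟨d, hd⟩) = e ⟨d, hd⟩ := by
      have h4 := congrArg e h2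
      have h5 : e (f ⟨d, hd⟩) = finRotate (k + 2) (e ⟨d, hd⟩) := by
        simp [f]
      rw [← h5, h4]
    rw [finRotate_apply] at h3
    have h6 : (1 : Fin (k + 2)) = 0 := by
      have := add_eq_left.mp h3
      exact this
    exact absurd h6 (by simp)


/-- A separated tree of height `n + 1` whose root has at least two children has a bijection onto
itself with displacement at least `b ^ n`.

Proof. Let `D`, `W` be as in `Tree`.  Since `#D = R n ≥ 2` there is a permutation `c` of `D`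
without fixed points (transport `finRotate (#D)` by `D.equivFin`).  All `W d` (`d ∈ D`) have the
same cardinality (`Tree.card`); choose bijections `e d : W d → W (c d)`.  Put
`φ (d b^n + x) = c d · b^n + e d x`; `d` and `x` are the quotient and the remainder of the division
of `d b^n + x` by `b^n` (`Tree.range`).  The displacement is `(c d - d) b^n + (e d x - x)` with
`|c d - d| ≥ 2` (different and congruent mod 2) and `|e d x - x| < b^n` (`Tree.range`), hence
`≥ 2 b^n - b^n`. -/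
theorem Tree.shift {b : ℕ} {R : ℕ → ℕ} {n : ℕ} {V : Finset ℤ} (h : Tree b True R (n + 1) V)
    (hR : 2 ≤ R n) : Shift V ((b : ℤ) ^ n) := by
  classical
  obtain ⟨D, W, hc, hD, hs, hW, rfl⟩ := h
  obtain ⟨c, hc1, hc2, hc3⟩ := A4_exists_cyc D (by rw [hc]; exact hR)
  have hcard : ∀ d ∈ D, ∀ d' ∈ D, #(W d) = #(W d') := fun d hd d' hd' => by
    rw [(hW d hd).card, (hW d' hd').card]
  have hE : ∀ d : ℤ, ∃ e : ℤ → ℤ, d ∈ D → Set.MapsTo e (W d) (W (c d)) ∧ Set.InjOn e (W d) := by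
    intro d
    by_cases hd : d ∈ D
    · obtain ⟨e, h1, h2⟩ := A4_exists_bij (W d) (W (c d)) (hcard d hd (c d) (hc1 hd))
      exact ⟨e, fun _ => ⟨h1, h2⟩⟩
    · exact ⟨id, fun h => absurd h hd⟩
  choose E hE using hE
  have hB : ∀ d ∈ D, ∀ x ∈ W d, (0 : ℤ) < (b : ℤ) ^ n := fun d hd x hx => by
    obtain ⟨x0, x1⟩ := (hW d hd).range x hx
    exact lt_of_le_of_lt x0 x1
  have hq : ∀ d ∈ D, ∀ x ∈ W d, (d * (b : ℤ) ^ n + x) / (b : ℤ) ^ n = d := fun d hd x hx => by
    obtain ⟨x0, x1⟩ := (hW d hd).range x hx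
    rw [add_comm, Int.add_mul_ediv_right _ _ (hB d hd x hx).ne', Int.ediv_eq_zero_of_lt x0 x1,
      zero_add]
  have hr : ∀ d ∈ D, ∀ x ∈ W d, (d * (b : ℤ) ^ n + x) % (b : ℤ) ^ n = x := fun d hd x hx => by
    obtain ⟨x0, x1⟩ := (hW d hd).range x hx
    rw [add_comm, Int.add_mul_emod_self_right, Int.emod_eq_of_lt x0 x1]
  set φ : ℤ → ℤ := fun z => c (z / (b : ℤ) ^ n) * (b : ℤ) ^ n + E (z / (b : ℤ) ^ n) (z % (b : ℤ) ^ n)
    with hφ
  have hφ' : ∀ d ∈ D, ∀ x ∈ W d, φ (d * (b : ℤ) ^ n + x) = c d * (b : ℤ) ^ n + E d x :=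
    fun d hd x hx => by
      simp only [hφ]
      rw [hq d hd x hx, hr d hd x hx]
  have hmem : ∀ z, z ∈ (D.biUnion fun d => (W d).image fun x => d * (b : ℤ) ^ n + x) ↔
      ∃ d ∈ D, ∃ x ∈ W d, d * (b : ℤ) ^ n + x = z := by
    intro z
    simp only [mem_biUnion, mem_image]
  have hmaps : Set.MapsTo φ (D.biUnion fun d => (W d).image fun x => d * (b : ℤ) ^ n + x)
      (D.biUnion fun d => (W d).image fun x => d * (b : ℤ) ^ n + x) := by
    intro z hz
    obtain ⟨d, hd, x, hx, rfl⟩ := (hmem z).1 hz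
    rw [hφ' d hd x hx]
    exact (hmem _).2 ⟨c d, hc1 hd, E d x, (hE d hd).1 hx, rfl⟩
  have hinj : Set.InjOn φ (D.biUnion fun d => (W d).image fun x => d * (b : ℤ) ^ n + x) := by
    intro z hz z' hz' h1
    obtain ⟨d, hd, x, hx, rfl⟩ := (hmem z).1 hz
    obtain ⟨d', hd', x', hx', rfl⟩ := (hmem z').1 hz'
    rw [hφ' d hd x hx, hφ' d' hd' x' hx'] at h1
    have h2 : c d = c d' := by
      rw [← hq (c d) (hc1 hd) (E d x) ((hE d hd).1 hx), h1,
        hq (c d') (hc1 hd') (E d' x') ((hE d' hd').1 hx')]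
    have h3 : d = d' := hc2 hd hd' h2
    subst h3
    have h4 : E d x = E d x' := by linarith
    rw [(hE d hd).2 hx hx' h4]
  refine ⟨φ, ⟨hmaps, hinj, ?_⟩, ?_⟩
  · exact Finset.surjOn_of_injOn_of_card_le φ hmaps hinj le_rfl
  · intro z hz
    obtain ⟨d, hd, x, hx, rfl⟩ := (hmem z).1 hz
    rw [hφ' d hd x hx]
    obtain ⟨x0, x1⟩ := (hW d hd).range x hx
    obtain ⟨y0, y1⟩ := (hW (c d) (hc1 hd)).range (E d x) ((hE d hd).1 hx)
    have h2 : (2 : ℤ) ∣ c d - d := hs trivial (c d) (hc1 hd) d hd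
    have h3 : c d - d ≠ 0 := sub_ne_zero.2 (hc3 d hd)
    have hb := hB d hd x hx
    rcases lt_or_gt_of_ne h3 with h4 | h4
    · have h5 : c d - d ≤ -2 := by omega
      have h6 : (c d - d) * (b : ℤ) ^ n ≤ -2 * (b : ℤ) ^ n :=
        mul_le_mul_of_nonneg_right h5 hb.le
      rw [le_abs]
      right
      linarith
    · have h5 : 2 ≤ c d - d := by omega
      have h6 : 2 * (b : ℤ) ^ n ≤ (c d - d) * (b : ℤ) ^ n :=
        mul_le_mul_of_nonneg_right h5 hb.le
      rw [le_abs]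
      left
      linarith

end Pool.Agent.Lib.H79KC
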