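import Pool.Agent.Lib.H79KC.A2
import Pool.Agent.Lib.H79KC.A3
import Pool.Agent.Lib.H79KC.A4

/-! # A5 -/

namespace Pool.Agent.Lib.H79KC

open Finset

/-- **Littlewood–Offord for trees.**

Proof. Choose `I ⊆ {i | 2 ≤ R i n}` with `#I = M` (`Finset.exists_subset_card_eq`).  By
`Tree.shift` and `lo_product` (with `w = b ^ n`; if `b = 0` there is nothing to prove because then
a tree of height `n + 1` is empty, as `0 ≤ d < b`; if `M = 0` the right side is... use `hM`),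
`count * 2^M ≤ C(M, M/2) * ∏ #V`, and `C(M, M/2) ≤ 2^M / √M` by `mul_choose_sq_le`
(`M C² ≤ 4^M = (2^M)²`). -/
theorem lo_trees {ι : Type} [Fintype ι] [DecidableEq ι] {b : ℕ} (hb : 0 < b) {R : ι → ℕ → ℕ}
    {n : ℕ} {V : ι → Finset ℤ} (hV : ∀ i, Tree b True (R i) (n + 1) (V i)) {M : ℕ} (hM : 0 < M)
    (hMc : M ≤ #((univ : Finset ι).filter fun i => 2 ≤ R i n)) (y : ℤ) :
    (#((Fintype.piFinset V).filter fun u =>
      y ≤ ∑ i, u i ∧ ∑ i, u i < y + (b : ℤ) ^ n) : ℝ) ≤ 1 / √M * ∏ i, (#(V i) : ℝ) := by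
  obtain ⟨I, hI, hIc⟩ := exists_subset_card_eq hMc
  have h1 := lo_product V I (w := (b : ℤ) ^ n) (by positivity)
    (fun i hi => (hV i).shift (mem_filter.mp (hI hi)).2) y
  rw [hIc] at h1
  have h2 := mul_choose_sq_le M
  set X : ℕ := #((Fintype.piFinset V).filter fun u =>
      y ≤ ∑ i, u i ∧ ∑ i, u i < y + (b : ℤ) ^ n) with hX
  set C : ℕ := M.choose (M / 2) with hC
  have hM' : (0 : ℝ) < M := by exact_mod_cast hM
  have h1' : (X : ℝ) * 2 ^ M ≤ C * ∏ i, (#(V i) : ℝ) := by exact_mod_cast h1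
  have h2' : (M : ℝ) * (C : ℝ) ^ 2 ≤ (2 ^ M) ^ 2 := by
    have : (4 : ℝ) ^ M = (2 ^ M) ^ 2 := by
      rw [← pow_mul, mul_comm, pow_mul]; norm_num
    rw [← this]
    exact_mod_cast h2
  have hC' : (C : ℝ) ≤ 1 / √M * 2 ^ M := by
    have h3 : √(M : ℝ) * C ≤ 2 ^ M := by
      have h4 : (√(M : ℝ) * C) ^ 2 ≤ (2 ^ M) ^ 2 := by
        rw [mul_pow, Real.sq_sqrt hM'.le]; exact h2'
      exact le_of_sq_le_sq h4 (by positivity)
    have hs : 0 < √(M : ℝ) := Real.sqrt_pos.mpr hM'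
    rw [div_mul_eq_mul_div, one_mul, le_div_iff₀ hs]
    linarith
  have hP : 0 ≤ ∏ i, (#(V i) : ℝ) := prod_nonneg fun i _ => by positivity
  have h5 : (X : ℝ) * 2 ^ M ≤ (1 / √M * ∏ i, (#(V i) : ℝ)) * 2 ^ M := by
    calc (X : ℝ) * 2 ^ M ≤ C * ∏ i, (#(V i) : ℝ) := h1'
      _ ≤ (1 / √M * 2 ^ M) * ∏ i, (#(V i) : ℝ) := mul_le_mul_of_nonneg_right hC' hP
      _ = _ := by ring
  exact le_of_mul_le_mul_right h5 (by positivity)

end Pool.Agent.Lib.H79KC
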