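import Pool.Agent.Lib.H79KC.Trees

/-! # B1 -/

namespace Pool.Agent.Lib.H79KC

open Finset

private lemma b1_mixed {ι : Type} [Fintype ι] [DecidableEq ι] (V : ι → Finset ℤ) (g : ι → ℤ → ℝ)
    (h0 : ∀ i, ∑ x ∈ V i, g i x = 0) {i j : ι} (hij : i ≠ j) :
    ∑ u ∈ Fintype.piFinset V, g i (u i) * g j (u j) = 0 := by
  have h := Finset.prod_univ_sum V
    (fun k x => (if k = i then g i x else 1) * (if k = j then g j x else (1 : ℝ)))
  have h1 : ∏ k, ∑ x ∈ V k, (if k = i then g i x else 1) * (if k = j then g j x else (1 : ℝ)) =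
      0 := by
    apply Finset.prod_eq_zero (Finset.mem_univ i)
    simp [hij, h0 i]
  rw [h1] at h
  rw [h]
  refine sum_congr rfl fun u _ => ?_
  rw [prod_mul_distrib, Finset.prod_ite_eq', Finset.prod_ite_eq', if_pos (mem_univ _),
    if_pos (mem_univ _)]

private lemma b1_var {ι : Type} [Fintype ι] [DecidableEq ι] (V : ι → Finset ℤ) (g : ι → ℤ → ℝ)
    (h0 : ∀ i, ∑ x ∈ V i, g i x = 0) {B : ℝ} (hg : ∀ i, ∀ x ∈ V i, |g i x| ≤ B) :
    ∑ u ∈ Fintype.piFinset V, (∑ i, g i (u i)) ^ 2 ≤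
      Fintype.card ι * B ^ 2 * ∏ i, (#(V i) : ℝ) := by
  have h1 : ∑ u ∈ Fintype.piFinset V, (∑ i, g i (u i)) ^ 2 =
      ∑ i, ∑ j, ∑ u ∈ Fintype.piFinset V, g i (u i) * g j (u j) := by
    calc ∑ u ∈ Fintype.piFinset V, (∑ i, g i (u i)) ^ 2
        = ∑ u ∈ Fintype.piFinset V, ∑ i, ∑ j, g i (u i) * g j (u j) := by
          refine sum_congr rfl fun u _ => ?_
          rw [sq, sum_mul_sum]
      _ = ∑ i, ∑ u ∈ Fintype.piFinset V, ∑ j, g i (u i) * g j (u j) := sum_comm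
      _ = _ := by
          refine sum_congr rfl fun i _ => ?_
          exact sum_comm
  have hP : ((#(Fintype.piFinset V) : ℕ) : ℝ) = ∏ i, (#(V i) : ℝ) := by
    rw [Fintype.card_piFinset]
    push_cast
    rfl
  have h2 : ∀ i, ∑ j, ∑ u ∈ Fintype.piFinset V, g i (u i) * g j (u j) ≤
      B ^ 2 * ∏ i, (#(V i) : ℝ) := by
    intro i
    have h3 : ∑ j, ∑ u ∈ Fintype.piFinset V, g i (u i) * g j (u j) =
        ∑ u ∈ Fintype.piFinset V, g i (u i) * g i (u i) := by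
      apply Finset.sum_eq_single i
      · intro j _ hj
        exact b1_mixed V g h0 (Ne.symm hj)
      · intro h
        exact absurd (mem_univ i) h
    rw [h3]
    calc ∑ u ∈ Fintype.piFinset V, g i (u i) * g i (u i)
        ≤ ∑ u ∈ Fintype.piFinset V, B ^ 2 := by
          refine sum_le_sum fun u hu => ?_
          have h4 := hg i (u i) (Fintype.mem_piFinset.mp hu i)
          have h5 : g i (u i) * g i (u i) = |g i (u i)| ^ 2 := by
            rw [sq_abs, sq]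
          rw [h5]
          exact pow_le_pow_left₀ (abs_nonneg _) h4 2
      _ = B ^ 2 * ∏ i, (#(V i) : ℝ) := by
          rw [sum_const, nsmul_eq_mul, hP, mul_comm]
  rw [h1]
  calc ∑ i, ∑ j, ∑ u ∈ Fintype.piFinset V, g i (u i) * g j (u j)
      ≤ ∑ _i : ι, B ^ 2 * ∏ i, (#(V i) : ℝ) := sum_le_sum fun i _ => h2 i
    _ = Fintype.card ι * B ^ 2 * ∏ i, (#(V i) : ℝ) := by
        rw [sum_const, card_univ, nsmul_eq_mul, mul_assoc]

/-- **Chebyshev.** Let the `V i` be nonempty subsets of `[0, B]`.  There is a real `μ` (the sum of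
the means) such that at most a proportion `#ι B² / λ²` of the points of the product has
`|Σ u - μ| ≥ λ`.

Proof. `μ = Σ_i μ_i`, `μ_i = (Σ_{x ∈ V i} x) / #V i`, `0 ≤ μ_i ≤ B`.  Then
`Σ_{u} (Σ_i (u i - μ_i))² = Σ_i Σ_j Σ_u (u i - μ_i)(u j - μ_j)`; for `i ≠ j` the inner sum is
`∏_{k ≠ i,j} #V k · (Σ_{x ∈ V i} (x - μ_i)) (Σ_{x ∈ V j} (x - μ_j)) = 0` and for `i = j` it is at
most `B² ∏ #V` because `|u i - μ_i| ≤ B`.  So the sum is `≤ #ι B² ∏ #V`; every bad point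
contributes at least `λ²`.  (An induction over the index set is also possible: for `s : Finset ι`
prove `Σ_u (Σ_{i ∈ s} (u i - μ_i))² ≤ (card s) B² ∏ #V`.  For the mixed sums: `Finset.sum_product`-like
splitting of `piFinset` at one coordinate, or the bijection invariance; another way:
`Finset.prod_univ_sum`/`Fintype.piFinset` lemma `Finset.prod_univ_sum :
∏ i, ∑ j ∈ t i, f i j = ∑ x ∈ piFinset t, ∏ i, f i (x i)` with `f k x = 1` for `k ≠ i, j`.) -/
theorem chebyshev {ι : Type} [Fintype ι] [DecidableEq ι] (V : ι → Finset ℤ)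
    (hne : ∀ i, (V i).Nonempty) {B : ℝ} (hV : ∀ i, ∀ x ∈ V i, 0 ≤ (x : ℝ) ∧ (x : ℝ) ≤ B) :
    ∃ μ : ℝ, ∀ lam : ℝ, 0 < lam →
      (#((Fintype.piFinset V).filter fun u => lam ≤ |((∑ i, u i : ℤ) : ℝ) - μ|) : ℝ) * lam ^ 2 ≤
        Fintype.card ι * B ^ 2 * ∏ i, (#(V i) : ℝ) := by
  set m : ι → ℝ := fun i => (∑ x ∈ V i, (x : ℝ)) / (#(V i) : ℝ) with hm
  set g : ι → ℤ → ℝ := fun i x => (x : ℝ) - m i with hgdef
  have hc : ∀ i, (0 : ℝ) < (#(V i) : ℝ) := fun i => by exact_mod_cast (hne i).card_pos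
  have h0 : ∀ i, ∑ x ∈ V i, g i x = 0 := by
    intro i
    simp only [hgdef]
    rw [sum_sub_distrib, sum_const, nsmul_eq_mul, hm]
    have := hc i
    field_simp
    ring
  have hm0 : ∀ i, 0 ≤ m i := fun i =>
    div_nonneg (sum_nonneg fun x hx => (hV i x hx).1) (hc i).le
  have hm1 : ∀ i, m i ≤ B := by
    intro i
    rw [hm]
    show (∑ x ∈ V i, (x : ℝ)) / (#(V i) : ℝ) ≤ B
    rw [div_le_iff₀ (hc i)]
    calc ∑ x ∈ V i, (x : ℝ) ≤ ∑ x ∈ V i, B := sum_le_sum fun x hx => (hV i x hx).2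
      _ = B * (#(V i) : ℝ) := by rw [sum_const, nsmul_eq_mul, mul_comm]
  have hg : ∀ i, ∀ x ∈ V i, |g i x| ≤ B := by
    intro i x hx
    have h1 := hV i x hx
    have h2 := hm0 i
    have h3 := hm1 i
    show |(x : ℝ) - m i| ≤ B
    rw [abs_le]
    constructor
    · linarith [h1.1]
    · linarith [h1.2]
  refine ⟨∑ i, m i, fun lam hlam => ?_⟩
  have hvar := b1_var V g h0 hg
  have hsum : ∀ u : ι → ℤ, ((∑ i, u i : ℤ) : ℝ) - ∑ i, m i = ∑ i, g i (u i) := by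
    intro u
    simp only [hgdef]
    rw [sum_sub_distrib]
    push_cast
    rfl
  calc (#((Fintype.piFinset V).filter fun u => lam ≤ |((∑ i, u i : ℤ) : ℝ) - ∑ i, m i|) : ℝ) *
        lam ^ 2
      = ∑ u ∈ (Fintype.piFinset V).filter
          (fun u => lam ≤ |((∑ i, u i : ℤ) : ℝ) - ∑ i, m i|), lam ^ 2 := by
        rw [sum_const, nsmul_eq_mul]
    _ ≤ ∑ u ∈ (Fintype.piFinset V).filter
          (fun u => lam ≤ |((∑ i, u i : ℤ) : ℝ) - ∑ i, m i|), (∑ i, g i (u i)) ^ 2 := by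
        refine sum_le_sum fun u hu => ?_
        have h1 := (mem_filter.mp hu).2
        rw [hsum u] at h1
        rw [← sq_abs (∑ i, g i (u i))]
        exact pow_le_pow_left₀ hlam.le h1 2
    _ ≤ ∑ u ∈ Fintype.piFinset V, (∑ i, g i (u i)) ^ 2 :=
        sum_le_sum_of_subset_of_nonneg (filter_subset _ _) fun u _ _ => sq_nonneg _
    _ ≤ _ := hvar

end Pool.Agent.Lib.H79KC
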