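import Pool.Agent.Lib.H79KC.Trees

/-! # B2 -/

namespace Pool.Agent.Lib.H79KC

open Finset

private lemma b2_cells {b : ℕ} (hb : 0 < b) {sep : Prop} {R : ℕ → ℕ} {h w : ℕ}
    {V : Finset ℤ} (hV : Tree b sep R (h + w) V) :
    #(cells b h V) ≤ ∏ j ∈ Finset.Ico h (h + w), R j := by
  obtain ⟨P, W, hP, hW, rfl⟩ := hV.split
  have h1 : #P = ∏ j ∈ Finset.Ico h (h + w), R j := by
    rw [hP.card, Finset.prod_Ico_eq_prod_range]
    have e : h + w - h = w := by omega
    rw [e]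
    exact prod_congr rfl fun j _ => by rw [add_comm]
  rw [← h1]
  apply card_le_card
  intro q hq
  obtain ⟨x, hx, rfl⟩ := mem_image.mp hq
  obtain ⟨p, hp, hx⟩ := mem_biUnion.mp hx
  obtain ⟨y, hy, rfl⟩ := mem_image.mp hx
  obtain ⟨y0, y1⟩ := (hW p hp).range y hy
  have hbh : (0 : ℤ) < (b : ℤ) ^ h := lt_of_le_of_lt y0 y1
  have e1 : (p * (b : ℤ) ^ h + y) / (b : ℤ) ^ h = p := by
    rw [add_comm, Int.add_mul_ediv_right _ _ hbh.ne', Int.ediv_eq_zero_of_lt y0 y1, zero_add]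
  rw [e1]
  exact hp

/-- A tree of height `N` has at most `2 ∏_{h ≤ j < h + w} R j` cells of height `h` in a window of
`b ^ w` consecutive cells, if `h + w ≤ N`.

Proof. Split `A` at height `h + w` (`Tree.split` with `m = h + w`, `n = N - h - w`):
`A = ⋃_{p ∈ P} (p b^(h+w) + W p)`, `W p` a tree of height `h + w`; the cells of height `h` of
`p b^(h+w) + W p` are `p b^w + (cells b h (W p)) ⊆ [p b^w, (p+1) b^w)` (`Tree.range`,
`Int.add_mul_ediv_right`), and `cells b h (W p)` has `∏_{h ≤ j < h+w} R j` elements: split `W p`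
at height `h`: the prefixes form a tree with branching numbers `fun j => R (j + h)` of height `w`
(`Tree.card`; only `≤` is needed, and it may fail to be equal only if the `W` are empty).
A window of length `b^w` meets at most two of the intervals `[p b^w, (p+1) b^w)`. -/
theorem Tree.cells_window {b : ℕ} (hb : 0 < b) {sep : Prop} {R : ℕ → ℕ} {N h w : ℕ}
    {A : Finset ℤ} (hA : Tree b sep R N A) (hhw : h + w ≤ N) (q0 : ℤ) :
    #((cells b h A).filter fun q => q0 ≤ q ∧ q < q0 + (b : ℤ) ^ w) ≤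
      2 * ∏ j ∈ Finset.Ico h (h + w), R j := by
  obtain ⟨n, rfl⟩ : ∃ n, N = h + w + n := ⟨N - (h + w), by omega⟩
  obtain ⟨P, W, -, hW, rfl⟩ := hA.split
  have hbh : (0 : ℤ) < (b : ℤ) ^ h := by positivity
  have hbw : (0 : ℤ) < (b : ℤ) ^ w := by positivity
  let T : ℤ → Finset ℤ := fun p =>
    if p ∈ P then (cells b h (W p)).image (fun c => p * (b : ℤ) ^ w + c) else ∅
  have hT : ∀ p, #(T p) ≤ ∏ j ∈ Finset.Ico h (h + w), R j := by
    intro p
    by_cases hp : p ∈ P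
    · have e : T p = (cells b h (W p)).image (fun c => p * (b : ℤ) ^ w + c) := if_pos hp
      rw [e]
      exact card_image_le.trans (b2_cells hb (hW p hp))
    · have e : T p = ∅ := if_neg hp
      rw [e, card_empty]
      exact Nat.zero_le _
  have hsub : ((cells b h (P.biUnion fun p => (W p).image fun x => p * (b : ℤ) ^ (h + w) + x)).filter
      fun q => q0 ≤ q ∧ q < q0 + (b : ℤ) ^ w) ⊆ T (q0 / (b : ℤ) ^ w) ∪ T (q0 / (b : ℤ) ^ w + 1) := by
    intro q hq
    obtain ⟨hq1, hq2, hq3⟩ := mem_filter.mp hq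
    obtain ⟨x, hx, rfl⟩ := mem_image.mp hq1
    obtain ⟨p, hp, hx⟩ := mem_biUnion.mp hx
    obtain ⟨y, hy, rfl⟩ := mem_image.mp hx
    obtain ⟨y0, y1⟩ := (hW p hp).range y hy
    have e1 : (p * (b : ℤ) ^ (h + w) + y) / (b : ℤ) ^ h = p * (b : ℤ) ^ w + y / (b : ℤ) ^ h := by
      have e2 : p * (b : ℤ) ^ (h + w) + y = y + (p * (b : ℤ) ^ w) * (b : ℤ) ^ h := by
        rw [pow_add]; ring
      rw [e2, Int.add_mul_ediv_right _ _ hbh.ne', add_comm]
    rw [e1] at hq2 hq3 ⊢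
    have c0 : 0 ≤ y / (b : ℤ) ^ h := Int.ediv_nonneg y0 hbh.le
    have c1 : y / (b : ℤ) ^ h < (b : ℤ) ^ w := by
      rw [Int.ediv_lt_iff_lt_mul hbh, ← pow_add, add_comm w h]
      exact y1
    have e3 : (p * (b : ℤ) ^ w + y / (b : ℤ) ^ h) / (b : ℤ) ^ w = p := by
      rw [add_comm, Int.add_mul_ediv_right _ _ hbw.ne', Int.ediv_eq_zero_of_lt c0 c1, zero_add]
    have h1 : q0 / (b : ℤ) ^ w ≤ p := by
      have := Int.ediv_le_ediv hbw hq2
      rwa [e3] at this
    have h2 : p ≤ q0 / (b : ℤ) ^ w + 1 := by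
      have h3 := Int.ediv_le_ediv hbw hq3.le
      rw [e3] at h3
      have e4 : (q0 + (b : ℤ) ^ w) / (b : ℤ) ^ w = q0 / (b : ℤ) ^ w + 1 := by
        have := Int.add_mul_ediv_right q0 1 hbw.ne'
        rwa [one_mul] at this
      rwa [e4] at h3
    have hmem : p * (b : ℤ) ^ w + y / (b : ℤ) ^ h ∈ T p := by
      have e : T p = (cells b h (W p)).image (fun c => p * (b : ℤ) ^ w + c) := if_pos hp
      rw [e]
      exact mem_image_of_mem _ (mem_image_of_mem _ hy)
    rw [mem_union]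
    rcases Int.le_iff_eq_or_lt.mp h1 with h4 | h4
    · left
      rw [h4]
      exact hmem
    · right
      have h5 : q0 / (b : ℤ) ^ w + 1 = p := le_antisymm h4 h2
      rw [h5]
      exact hmem
  calc _ ≤ #(T (q0 / (b : ℤ) ^ w) ∪ T (q0 / (b : ℤ) ^ w + 1)) := card_le_card hsub
    _ ≤ #(T (q0 / (b : ℤ) ^ w)) + #(T (q0 / (b : ℤ) ^ w + 1)) := card_union_le _ _
    _ ≤ _ := by
      have h1 := hT (q0 / (b : ℤ) ^ w)
      have h2 := hT (q0 / (b : ℤ) ^ w + 1)
      omega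

end Pool.Agent.Lib.H79KC
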