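import Pool.Agent.Lib.H79KC.Trees

/-! # B3 -/

namespace Pool.Agent.Lib.H79KC

open Finset

private lemma B3_cast (x : ℤ) (hx : 0 ≤ x) (k : ℕ) : ((x.toNat / k : ℕ) : ℤ) = x / k := by
  rw [Int.natCast_ediv, Int.toNat_of_nonneg hx]

private lemma B3_div {b h : ℕ} (hb : 0 < b) (q w : ℤ) (h0 : 0 ≤ w) (h1 : w < (b : ℤ) ^ h) :
    (q * (b : ℤ) ^ h + w) / (b : ℤ) ^ h = q := by
  have hp : (0 : ℤ) < (b : ℤ) ^ h := by positivity
  rw [add_comm, Int.add_mul_ediv_right _ _ hp.ne', Int.ediv_eq_zero_of_lt h0 h1, zero_add]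

/-- A tree gives a regular set of naturals.

Proof. `x ↦ x.toNat` is injective on `A ⊆ [0, b^N)` (`Tree.range`).  Fix `h < N`.  Split `A` at
height `h + 1`: `A = ⋃_{p ∈ P} (p b^(h+1) + W p)`, all `W p` trees of height `h + 1`
(nonempty: if `A` is nonempty then all branching numbers are `≥ 1`, `Tree.one_le`, so the `W p`
have `∏ R > 0` elements); `W p = ⋃_{d ∈ D} (d b^h + W' d)` with `#D = R h`, `W' d` nonempty.
The prefix class of `y = p` consists of the `p b + d`, `d ∈ D`: these are `#D = R h` numbers. -/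
theorem Tree.isReg {b : ℕ} (hb : 0 < b) {sep : Prop} {R : ℕ → ℕ} {N : ℕ} {A : Finset ℤ}
    (hA : Tree b sep R N A) (hne : A.Nonempty) : IsReg b N R (A.image Int.toNat) := by
  intro h hh y hy
  have hR1 := hA.one_le hne
  have hrng := hA.range
  obtain ⟨n, rfl⟩ : ∃ n, N = (h + 1) + n := ⟨N - (h + 1), by omega⟩
  obtain ⟨P, W, hP, hW, hAeq⟩ := hA.split
  -- the description of the elements
  have hmemA : ∀ x, x ∈ A ↔ ∃ p ∈ P, ∃ w ∈ W p, x = p * (b : ℤ) ^ (h + 1) + w := by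
    intro x
    rw [hAeq]
    simp only [mem_biUnion, mem_image]
    constructor
    · rintro ⟨p, hp, w, hw, rfl⟩
      exact ⟨p, hp, w, hw, rfl⟩
    · rintro ⟨p, hp, w, hw, rfl⟩
      exact ⟨p, hp, w, hw, rfl⟩
  rw [mem_image] at hy
  obtain ⟨x0n, hx0n, rfl⟩ := hy
  rw [mem_image] at hx0n
  obtain ⟨x0, hx0, rfl⟩ := hx0n
  obtain ⟨p, hp, w0, hw0, hx0e⟩ := (hmemA x0).1 hx0
  have hp0 : 0 ≤ p := (hP.range p hp).1
  have hx00 : 0 ≤ x0 := (hrng x0 hx0).1
  have hy1 : ((x0.toNat / b ^ (h + 1) : ℕ) : ℤ) = p := by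
    have h1 := B3_cast x0 hx00 (b ^ (h + 1))
    rw [h1, hx0e]
    push_cast
    obtain ⟨a0, a1⟩ := (hW p hp).range w0 hw0
    exact B3_div hb p w0 a0 a1
  obtain ⟨D, W', hc, hD, -, hW', hWp⟩ := hW p hp
  have hmemW : ∀ w, w ∈ W p ↔ ∃ d ∈ D, ∃ v ∈ W' d, w = d * (b : ℤ) ^ h + v := by
    intro w
    rw [hWp]
    simp only [mem_biUnion, mem_image]
    constructor
    · rintro ⟨d, hd, v, hv, rfl⟩
      exact ⟨d, hd, v, hv, rfl⟩
    · rintro ⟨d, hd, v, hv, rfl⟩
      exact ⟨d, hd, v, hv, rfl⟩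
  have hne' : ∀ d ∈ D, (W' d).Nonempty := by
    intro d hd
    rw [← card_pos, (hW' d hd).card]
    exact prod_pos fun i hi => hR1 i (by have := mem_range.mp hi; omega)
  -- the value of an element on the level `h`
  have hval : ∀ d ∈ D, ∀ v ∈ W' d, (p * (b : ℤ) ^ (h + 1) + (d * (b : ℤ) ^ h + v)) / (b : ℤ) ^ h = p * b + d := by
    intro d hd v hv
    obtain ⟨a0, a1⟩ := (hW' d hd).range v hv
    have e : p * (b : ℤ) ^ (h + 1) + (d * (b : ℤ) ^ h + v) = (p * b + d) * (b : ℤ) ^ h + v := by ring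
    rw [e]
    exact B3_div hb (p * b + d) v a0 a1
  have hset : ((A.image Int.toNat).image (fun x => x / b ^ h)).filter (fun z => z / b = x0.toNat / b ^ (h + 1)) =
      D.image fun d => (p * b + d).toNat := by
    ext z
    simp only [mem_filter, mem_image]
    constructor
    · rintro ⟨⟨xn, ⟨x, hx, rfl⟩, rfl⟩, hz⟩
      obtain ⟨p', hp', w, hw, hxe⟩ := (hmemA x).1 hx
      have hx0' : 0 ≤ x := (hrng x hx).1
      have hpp : p' = p := by
        have h1 : x.toNat / b ^ h / b = x.toNat / b ^ (h + 1) := by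
          rw [Nat.div_div_eq_div_mul, pow_succ]
        rw [h1] at hz
        have h2 : ((x.toNat / b ^ (h + 1) : ℕ) : ℤ) = p' := by
          rw [B3_cast x hx0' (b ^ (h + 1)), hxe]
          push_cast
          obtain ⟨a0, a1⟩ := (hW p' hp').range w hw
          exact B3_div hb p' w a0 a1
        rw [← h2, hz, hy1]
      subst hpp
      obtain ⟨d, hd, v, hv, rfl⟩ := (hmemW w).1 hw
      refine ⟨d, hd, ?_⟩
      have h3 : ((x.toNat / b ^ h : ℕ) : ℤ) = p' * b + d := by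
        rw [B3_cast x hx0' (b ^ h), hxe]
        push_cast
        exact hval d hd v hv
      rw [← h3, Int.toNat_natCast]
    · rintro ⟨d, hd, rfl⟩
      obtain ⟨v, hv⟩ := hne' d hd
      have hx : p * (b : ℤ) ^ (h + 1) + (d * (b : ℤ) ^ h + v) ∈ A :=
        (hmemA _).2 ⟨p, hp, _, (hmemW _).2 ⟨d, hd, v, hv, rfl⟩, rfl⟩
      have hx0' := (hrng _ hx).1
      have h3 : (((p * (b : ℤ) ^ (h + 1) + (d * (b : ℤ) ^ h + v)).toNat / b ^ h : ℕ) : ℤ) = p * b + d := by
        rw [B3_cast _ hx0' (b ^ h)]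
        push_cast
        exact hval d hd v hv
      have h4 : (p * b + d).toNat = (p * (b : ℤ) ^ (h + 1) + (d * (b : ℤ) ^ h + v)).toNat / b ^ h := by
        rw [← h3, Int.toNat_natCast]
      refine ⟨⟨_, ⟨_, hx, rfl⟩, h4.symm⟩, ?_⟩
      obtain ⟨d0, d1⟩ := hD d hd
      have h5 : 0 ≤ p * (b : ℤ) + d := by positivity
      have h6 : (((p * b + d).toNat / b : ℕ) : ℤ) = p := by
        rw [B3_cast _ h5 b]
        have := B3_div (h := 1) hb p d d0 (by simpa using d1)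
        simpa using this
      have h7 : (((p * b + d).toNat / b : ℕ) : ℤ) = ((x0.toNat / b ^ (h + 1) : ℕ) : ℤ) := by
        rw [h6, hy1]
      exact_mod_cast h7
  rw [hset, card_image_of_injOn, hc]
  intro d hd d' hd' hdd
  have e1 : 0 ≤ p * (b : ℤ) + d := add_nonneg (by positivity) (hD d hd).1
  have e2 : 0 ≤ p * (b : ℤ) + d' := add_nonneg (by positivity) (hD d' hd').1
  have h8 : (p * b + d).toNat = (p * b + d').toNat := hdd
  have h9 : p * (b : ℤ) + d = p * b + d' := by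
    rw [← Int.toNat_of_nonneg e1, ← Int.toNat_of_nonneg e2, h8]
  linarith

end Pool.Agent.Lib.H79KC
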