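import Pool.Agent.Lib.H79KC.A5
import Pool.Agent.Lib.H79KC.B1

/-! # C1 -/

namespace Pool.Agent.Lib.H79KC

open Finset

/-- The trees `P i` have height `H = 2 L + 2` and at least `M` of them branch at the root; the set
`Q` of cells (of size `b^(H-1) = b^(2L+1)`) has at most `S` elements in every window of length
`b^(L+3)`.  Then `v + Σ p` is in or next to a cell of `Q` with probability at most
`K / b^(2L+2) + 2 S / √M`, `K = #ι`.

Proof. (If some `P i` is empty both sides are `0`.)  `P i ⊆ [0, b^(2L+2)]` (`Tree.range`); take `μ`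
from `chebyshev` (`B = b^(2L+2)`) and `λ = b^(L+2) · b^(2L+1) = b^(3L+3)`: the points with
`|Σ p - μ| ≥ λ` are at most `K b^(4L+4) / b^(6L+6) = K / b^(2L+2)` times the product.
If `|Σ p - μ| < λ` and `(q-1) b^(2L+1) ≤ v + Σ p < (q+1) b^(2L+1)` then, with
`z = (v + μ) / b^(2L+1)` (real), `z - b^(L+2) - 1 < q < z + b^(L+2) + 1`; so `q` is in
`[q0, q0 + b^(L+3))` with `q0 = ⌊z - b^(L+2) - 1⌋`, because `2 b^(L+2) + 3 ≤ b^(L+3)` for `b ≥ 4`
(`b^(L+2) (b - 2) ≥ 16 · 2 ≥ 3`).  There are at most `S` such `q ∈ Q`, and for each of them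
`Σ p ∈ [(q-1) b^(2L+1) - v, (q+1) b^(2L+1) - v)`, the union of two intervals of length
`b^(2L+1)`: at most `2 / √M` times the product (`lo_trees` with `n = 2L+1`). -/
theorem near_le {ι : Type} [Fintype ι] [DecidableEq ι] {b L : ℕ} (hb : 4 ≤ b) {R : ι → ℕ → ℕ}
    {P : ι → Finset ℤ} (hP : ∀ i, Tree b True (R i) (2 * L + 2) (P i)) {M : ℕ} (hM : 0 < M)
    (hMc : M ≤ #((univ : Finset ι).filter fun i => 2 ≤ R i (2 * L + 1))) (Q : Finset ℤ) {S : ℝ}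
    (hS : 0 ≤ S)
    (hQ : ∀ q0 : ℤ, (#(Q.filter fun q => q0 ≤ q ∧ q < q0 + (b : ℤ) ^ (L + 3)) : ℝ) ≤ S) (v : ℤ) :
    (#((Fintype.piFinset P).filter fun p => ∃ q ∈ Q,
      (q - 1) * (b : ℤ) ^ (2 * L + 1) ≤ v + ∑ i, p i ∧
        v + ∑ i, p i < (q + 1) * (b : ℤ) ^ (2 * L + 1)) : ℝ) ≤
      (Fintype.card ι / (b : ℝ) ^ (2 * L + 2) + 2 * S / √M) * ∏ i, (#(P i) : ℝ) := by
  classical
  have hbR : (4 : ℝ) ≤ (b : ℝ) := by exact_mod_cast hb
  have hb0 : (0 : ℝ) < (b : ℝ) := by linarith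
  have hbn : 0 < b := by omega
  by_cases hem : ∃ i, P i = ∅
  · obtain ⟨i, hi⟩ := hem
    have h1 : Fintype.piFinset P = ∅ := by
      rw [Finset.eq_empty_iff_forall_notMem]
      intro u hu
      have h := Fintype.mem_piFinset.mp hu i
      rw [hi] at h
      exact absurd h (Finset.notMem_empty _)
    have h2 : ∏ i, (#(P i) : ℝ) = 0 := Finset.prod_eq_zero (mem_univ i) (by rw [hi]; simp)
    rw [h1, h2]
    simp
  have hne : ∀ i, (P i).Nonempty := fun i =>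
    Finset.nonempty_iff_ne_empty.mpr fun h => hem ⟨i, h⟩
  obtain ⟨μ, hμ⟩ := chebyshev P hne (B := (b : ℝ) ^ (2 * L + 2)) (by
    intro i x hx
    obtain ⟨h0, h1⟩ := (hP i).range x hx
    refine ⟨by exact_mod_cast h0, ?_⟩
    have h2 : ((x : ℤ) : ℝ) < (((b : ℤ) ^ (2 * L + 2) : ℤ) : ℝ) := by exact_mod_cast h1
    push_cast at h2
    exact h2.le)
  set Pr : ℝ := ∏ i, (#(P i) : ℝ) with hPr
  have hPr0 : 0 ≤ Pr := Finset.prod_nonneg fun i _ => Nat.cast_nonneg _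
  set lam : ℝ := (b : ℝ) ^ (3 * L + 3) with hlam
  have hlam0 : 0 < lam := by positivity
  set Fl : Finset (ι → ℤ) := (Fintype.piFinset P).filter fun u => lam ≤ |((∑ i, u i : ℤ) : ℝ) - μ|
    with hFl
  have hFlc : (#Fl : ℝ) ≤ Fintype.card ι / (b : ℝ) ^ (2 * L + 2) * Pr := by
    have h1 := hμ lam hlam0
    have h2 : lam ^ 2 = ((b : ℝ) ^ (2 * L + 2)) ^ 2 * (b : ℝ) ^ (2 * L + 2) := by
      rw [hlam]; ring
    rw [h2] at h1
    have h3 : (0 : ℝ) < ((b : ℝ) ^ (2 * L + 2)) ^ 2 := by positivity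
    have h4 : (0 : ℝ) < (b : ℝ) ^ (2 * L + 2) := by positivity
    have h5 : (#Fl : ℝ) * (b : ℝ) ^ (2 * L + 2) ≤ Fintype.card ι * Pr := by
      refine le_of_mul_le_mul_left ?_ h3
      calc ((b : ℝ) ^ (2 * L + 2)) ^ 2 * ((#Fl : ℝ) * (b : ℝ) ^ (2 * L + 2))
          = (#Fl : ℝ) * (((b : ℝ) ^ (2 * L + 2)) ^ 2 * (b : ℝ) ^ (2 * L + 2)) := by ring
        _ ≤ Fintype.card ι * ((b : ℝ) ^ (2 * L + 2)) ^ 2 * Pr := h1
        _ = ((b : ℝ) ^ (2 * L + 2)) ^ 2 * (Fintype.card ι * Pr) := by ring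
    rw [div_mul_eq_mul_div, le_div_iff₀ h4]
    exact h5
  set w : ℝ := (b : ℝ) ^ (2 * L + 1) with hw
  have hw0 : 0 < w := by positivity
  have hlw : lam = (b : ℝ) ^ (L + 2) * w := by rw [hlam, hw]; ring
  set q0 : ℤ := ⌊((v : ℝ) + μ) / w - (b : ℝ) ^ (L + 2) - 1⌋ with hq0
  set Q' : Finset ℤ := Q.filter fun q => q0 ≤ q ∧ q < q0 + (b : ℤ) ^ (L + 3) with hQ'
  set G : ℤ → Finset (ι → ℤ) := fun q => (Fintype.piFinset P).filter fun u =>
    (q - 1) * (b : ℤ) ^ (2 * L + 1) ≤ v + ∑ i, u i ∧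
      v + ∑ i, u i < (q + 1) * (b : ℤ) ^ (2 * L + 1) with hG
  have hGc : ∀ q, (#(G q) : ℝ) ≤ 2 / √M * Pr := by
    intro q
    have h1 := lo_trees hbn (n := 2 * L + 1) hP hM hMc ((q - 1) * (b : ℤ) ^ (2 * L + 1) - v)
    have h2 := lo_trees hbn (n := 2 * L + 1) hP hM hMc (q * (b : ℤ) ^ (2 * L + 1) - v)
    have h3 : G q ⊆ ((Fintype.piFinset P).filter fun u =>
        (q - 1) * (b : ℤ) ^ (2 * L + 1) - v ≤ ∑ i, u i ∧
          ∑ i, u i < (q - 1) * (b : ℤ) ^ (2 * L + 1) - v + (b : ℤ) ^ (2 * L + 1)) ∪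
        ((Fintype.piFinset P).filter fun u => q * (b : ℤ) ^ (2 * L + 1) - v ≤ ∑ i, u i ∧
          ∑ i, u i < q * (b : ℤ) ^ (2 * L + 1) - v + (b : ℤ) ^ (2 * L + 1)) := by
      intro u hu
      simp only [hG, mem_filter] at hu
      obtain ⟨hu0, hu1, hu2⟩ := hu
      rw [mem_union, mem_filter, mem_filter]
      rcases lt_or_ge (∑ i, u i) (q * (b : ℤ) ^ (2 * L + 1) - v) with h | h
      · left
        refine ⟨hu0, by linarith, by linarith⟩
      · right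
        refine ⟨hu0, h, by linarith⟩
    have h4 := (card_le_card h3).trans (card_union_le _ _)
    refine (Nat.cast_le (α := ℝ).mpr h4).trans ?_
    rw [Nat.cast_add]
    calc _ ≤ 1 / √M * Pr + 1 / √M * Pr := add_le_add h1 h2
      _ = 2 / √M * Pr := by ring
  have hsub : ((Fintype.piFinset P).filter fun p => ∃ q ∈ Q,
      (q - 1) * (b : ℤ) ^ (2 * L + 1) ≤ v + ∑ i, p i ∧
        v + ∑ i, p i < (q + 1) * (b : ℤ) ^ (2 * L + 1)) ⊆ Fl ∪ Q'.biUnion G := by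
    intro u hu
    rw [mem_filter] at hu
    obtain ⟨hu0, q, hq, hu1, hu2⟩ := hu
    rw [mem_union]
    by_cases hl : lam ≤ |((∑ i, u i : ℤ) : ℝ) - μ|
    · left
      rw [hFl, mem_filter]
      exact ⟨hu0, hl⟩
    right
    push Not at hl
    rw [mem_biUnion]
    refine ⟨q, ?_, ?_⟩
    · rw [hQ', mem_filter]
      refine ⟨hq, ?_⟩
      have e1 : ((q : ℝ) - 1) * w ≤ v + ((∑ i, u i : ℤ) : ℝ) := by
        have h : (((q - 1) * (b : ℤ) ^ (2 * L + 1) : ℤ) : ℝ) ≤ ((v + ∑ i, u i : ℤ) : ℝ) := by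
          exact_mod_cast hu1
        rw [hw]
        push_cast at h ⊢
        exact h
      have e2 : v + ((∑ i, u i : ℤ) : ℝ) < ((q : ℝ) + 1) * w := by
        have h : ((v + ∑ i, u i : ℤ) : ℝ) < (((q + 1) * (b : ℤ) ^ (2 * L + 1) : ℤ) : ℝ) := by
          exact_mod_cast hu2
        rw [hw]
        push_cast at h ⊢
        exact h
      obtain ⟨e3, e4⟩ := abs_lt.mp hl
      rw [hlw] at e3 e4
      have e5 : (q : ℝ) < ((v : ℝ) + μ) / w + (b : ℝ) ^ (L + 2) + 1 := by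
        have h : ((q : ℝ) - 1 - (b : ℝ) ^ (L + 2)) * w < (v : ℝ) + μ := by nlinarith
        have h' := (lt_div_iff₀ hw0).mpr h
        linarith
      have e6 : ((v : ℝ) + μ) / w - (b : ℝ) ^ (L + 2) - 1 < (q : ℝ) := by
        have h : (v : ℝ) + μ < ((q : ℝ) + 1 + (b : ℝ) ^ (L + 2)) * w := by nlinarith
        have h' := (div_lt_iff₀ hw0).mpr h
        linarith
      have e7 : (q0 : ℝ) ≤ ((v : ℝ) + μ) / w - (b : ℝ) ^ (L + 2) - 1 := Int.floor_le _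
      have e8 : ((v : ℝ) + μ) / w - (b : ℝ) ^ (L + 2) - 1 < (q0 : ℝ) + 1 := Int.lt_floor_add_one _
      have e9 : 2 * (b : ℝ) ^ (L + 2) + 3 ≤ (b : ℝ) ^ (L + 3) := by
        have h1 : (1 : ℝ) ≤ (b : ℝ) ^ L := one_le_pow₀ (by linarith)
        have h2 : (b : ℝ) ^ (L + 2) = (b : ℝ) ^ L * (b : ℝ) ^ 2 := by ring
        have h3 : (b : ℝ) ^ (L + 3) = (b : ℝ) ^ (L + 2) * b := by ring
        have h4 : (16 : ℝ) ≤ (b : ℝ) ^ 2 := by nlinarith
        have h5 : (16 : ℝ) ≤ (b : ℝ) ^ (L + 2) := by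
          rw [h2]
          nlinarith
        rw [h3]
        nlinarith
      constructor
      · have h : (q0 : ℝ) < (q : ℝ) := by linarith
        have h' : q0 < q := by exact_mod_cast h
        exact h'.le
      · have h : (q : ℝ) < ((q0 + (b : ℤ) ^ (L + 3) : ℤ) : ℝ) := by
          push_cast
          linarith
        exact_mod_cast h
    · simp only [hG, mem_filter]
      exact ⟨hu0, hu1, hu2⟩
  have hfin : (#((Fintype.piFinset P).filter fun p => ∃ q ∈ Q,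
      (q - 1) * (b : ℤ) ^ (2 * L + 1) ≤ v + ∑ i, p i ∧
        v + ∑ i, p i < (q + 1) * (b : ℤ) ^ (2 * L + 1)) : ℝ) ≤ (#Fl : ℝ) + ∑ q ∈ Q', (#(G q) : ℝ) := by
    have h1 := (card_le_card hsub).trans
      ((card_union_le _ _).trans (Nat.add_le_add_left (card_biUnion_le (s := Q') (t := G)) _))
    exact_mod_cast h1
  refine hfin.trans ?_
  have h2 : ∑ q ∈ Q', (#(G q) : ℝ) ≤ S * (2 / √M * Pr) := by
    calc ∑ q ∈ Q', (#(G q) : ℝ) ≤ ∑ q ∈ Q', 2 / √M * Pr := sum_le_sum fun q _ => hGc q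
      _ = (#Q' : ℝ) * (2 / √M * Pr) := by rw [sum_const, nsmul_eq_mul]
      _ ≤ S * (2 / √M * Pr) := mul_le_mul_of_nonneg_right (hQ q0) (by positivity)
  calc (#Fl : ℝ) + ∑ q ∈ Q', (#(G q) : ℝ)
      ≤ Fintype.card ι / (b : ℝ) ^ (2 * L + 2) * Pr + S * (2 / √M * Pr) := add_le_add hFlc h2
    _ = (Fintype.card ι / (b : ℝ) ^ (2 * L + 2) + 2 * S / √M) * Pr := by ring

end Pool.Agent.Lib.H79KC
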