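import Pool.Agent.Lib.H79KC.Trees

/-! # C2 -/

namespace Pool.Agent.Lib.H79KC

open Finset

/-- **Splitting the count.** The trees `V i` of height `m + n` are split at height `m`:
`V i = ⋃_{p ∈ P i} (p b^m + W p)`.  If `v + Σ u ∈ A` with `u i = p i b^m + r i`, then
`v + b^m Σ p ≤ x ≤ v + b^m Σ p + K b^m` for the point `x = v + Σ u` of `A`.

Proof. Take `P i`, `W i` from `Tree.split`.  The map `u ↦ (p, r)`, `p i = u i / b^m`,
`r i = u i % b^m`, is a bijection of `piFinset V` with the pairs `p ∈ piFinset P`,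
`r ∈ piFinset (fun i => W i (p i))`, and `v + Σ u = (v + b^m Σ p) + Σ r`; so
`cnt V v A = Σ_{p ∈ piFinset P} cnt (fun i => W i (p i)) (v + b^m Σ p) A`.  For each `p` the
summand is at most `f ∏ #(W i (p i)) = f ∏_i ∏_{h < m} R i h` (`Walk`, `Tree.card`), and it is `0`
if no `x ∈ A` satisfies the displayed inequality, because `0 ≤ r i < b^m`. Finally
`#(V i) = #(P i) ∏_{h < m} R i h` (`Tree.card` for `V i`, `P i` and `Finset.prod_range_add`). -/
theorem split_count {ι : Type} [Fintype ι] [DecidableEq ι] {b : ℕ} (hb : 0 < b) {R : ι → ℕ → ℕ}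
    {A : Finset ℤ} {m n : ℕ} {f : ℝ} (hf : 0 ≤ f) (hW : Walk b R A m f) {V : ι → Finset ℤ}
    (hV : ∀ i, Tree b True (R i) (m + n) (V i)) (v : ℤ) :
    ∃ P : ι → Finset ℤ, (∀ i, Tree b True (fun h => R i (h + m)) n (P i)) ∧
      (∏ i, (#(V i) : ℝ)) = (∏ i, (#(P i) : ℝ)) * ∏ i, ∏ h ∈ Finset.range m, (R i h : ℝ) ∧
      (cnt V v A : ℝ) ≤ f * (∏ i, ∏ h ∈ Finset.range m, (R i h : ℝ)) *
        #((Fintype.piFinset P).filter fun p => ∃ x ∈ A, v + (b : ℤ) ^ m * ∑ i, p i ≤ x ∧
          x ≤ v + (b : ℤ) ^ m * ∑ i, p i + Fintype.card ι * (b : ℤ) ^ m) := by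
  have hs := fun i => (hV i).split
  choose P W hP hW' hVeq using hs
  have hB : (0 : ℤ) < (b : ℤ) ^ m := by positivity
  refine ⟨P, hP, ?_, ?_⟩
  · rw [← prod_mul_distrib]
    refine prod_congr rfl fun i _ => ?_
    rw [(hV i).card, (hP i).card, prod_range_add, Nat.cast_mul, mul_comm, ← Nat.cast_prod]
    refine congrArg₂ _ (congrArg _ (prod_congr rfl fun h _ => ?_)) rfl
    rw [add_comm m h]
  · -- facts on members
    have key : ∀ u ∈ Fintype.piFinset V, ∀ i, u i / (b : ℤ) ^ m ∈ P i ∧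
        u i % (b : ℤ) ^ m ∈ W i (u i / (b : ℤ) ^ m) := by
      intro u hu i
      have h1 := Fintype.mem_piFinset.mp hu i
      rw [hVeq i] at h1
      obtain ⟨p, hp, h2⟩ := mem_biUnion.mp h1
      obtain ⟨x, hx, h3⟩ := mem_image.mp h2
      obtain ⟨x0, x1⟩ := (hW' i p hp).range x hx
      have e1 : u i / (b : ℤ) ^ m = p := by
        rw [← h3, add_comm, Int.add_mul_ediv_right _ _ hB.ne', Int.ediv_eq_zero_of_lt x0 x1,
          zero_add]
      have e2 : u i % (b : ℤ) ^ m = x := by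
        rw [← h3, add_comm, Int.add_mul_emod_self_right, Int.emod_eq_of_lt x0 x1]
      rw [e2, e1]
      exact ⟨hp, hx⟩
    set G := (Fintype.piFinset P).filter fun p => ∃ x ∈ A, v + (b : ℤ) ^ m * ∑ i, p i ≤ x ∧
          x ≤ v + (b : ℤ) ^ m * ∑ i, p i + Fintype.card ι * (b : ℤ) ^ m with hG
    have hmap : ∀ u ∈ (Fintype.piFinset V).filter (fun u => v + ∑ i, u i ∈ A),
        (fun i => u i / (b : ℤ) ^ m) ∈ G := by
      intro u hu
      rw [mem_filter] at hu
      rw [hG, mem_filter]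
      refine ⟨Fintype.mem_piFinset.mpr fun i => (key u hu.1 i).1, v + ∑ i, u i, hu.2, ?_, ?_⟩
      · have : (b : ℤ) ^ m * ∑ i, u i / (b : ℤ) ^ m ≤ ∑ i, u i := by
          rw [mul_sum]
          exact sum_le_sum fun i _ => Int.mul_ediv_self_le hB.ne'
        linarith
      · have : ∑ i, u i ≤ (b : ℤ) ^ m * ∑ i, u i / (b : ℤ) ^ m +
            Fintype.card ι * (b : ℤ) ^ m := by
          have h4 : (Fintype.card ι : ℤ) * (b : ℤ) ^ m = ∑ _i : ι, (b : ℤ) ^ m := by
            rw [sum_const, nsmul_eq_mul, card_univ]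
          rw [mul_sum, h4, ← sum_add_distrib]
          refine sum_le_sum fun i _ => ?_
          have h5 := Int.mul_ediv_add_emod (u i) ((b : ℤ) ^ m)
          have h6 := Int.emod_lt_of_pos (u i) hB
          linarith
        linarith
    have hfib : ∀ p ∈ G, ((#(((Fintype.piFinset V).filter (fun u => v + ∑ i, u i ∈ A)).filter
        (fun u => (fun i => u i / (b : ℤ) ^ m) = p)) : ℕ) : ℝ) ≤
        f * ∏ i, ∏ h ∈ Finset.range m, (R i h : ℝ) := by
      intro p hp
      rw [hG, mem_filter, Fintype.mem_piFinset] at hp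
      have h1 : #(((Fintype.piFinset V).filter (fun u => v + ∑ i, u i ∈ A)).filter
        (fun u => (fun i => u i / (b : ℤ) ^ m) = p)) ≤
          cnt (fun i => W i (p i)) (v + (b : ℤ) ^ m * ∑ i, p i) A := by
        rw [cnt]
        refine card_le_card_of_injOn (fun u i => u i % (b : ℤ) ^ m) ?_ ?_
        · intro u hu
          rw [mem_coe, mem_filter, mem_filter] at hu
          obtain ⟨⟨hu1, hu2⟩, hu3⟩ := hu
          have hk := key u hu1
          have hp' : ∀ i, u i / (b : ℤ) ^ m = p i := fun i => congrFun hu3 i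
          rw [mem_coe, mem_filter, Fintype.mem_piFinset]
          refine ⟨fun i => ?_, ?_⟩
          · have h7 := (hk i).2
            rw [hp' i] at h7
            exact h7
          · have h8 : v + (b : ℤ) ^ m * ∑ i, p i + ∑ i, u i % (b : ℤ) ^ m = v + ∑ i, u i := by
              rw [mul_sum, add_assoc, ← sum_add_distrib]
              congr 1
              refine sum_congr rfl fun i _ => ?_
              rw [← hp' i]
              exact Int.mul_ediv_add_emod (u i) ((b : ℤ) ^ m)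
            show v + (b : ℤ) ^ m * ∑ i, p i + ∑ i, u i % (b : ℤ) ^ m ∈ A
            rw [h8]
            exact hu2
        · intro u hu u' hu' h
          rw [mem_coe, mem_filter] at hu hu'
          funext i
          have h9 : u i % (b : ℤ) ^ m = u' i % (b : ℤ) ^ m := congrFun h i
          have h10 : u i / (b : ℤ) ^ m = u' i / (b : ℤ) ^ m := by
            have a1 := congrFun hu.2 i
            have a2 := congrFun hu'.2 i
            exact a1.trans a2.symm
          rw [← Int.mul_ediv_add_emod (u i) ((b : ℤ) ^ m),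
            ← Int.mul_ediv_add_emod (u' i) ((b : ℤ) ^ m), h9, h10]
      have h2 := hW (fun i => W i (p i)) (fun i => hW' i (p i) (hp.1 i))
        (v + (b : ℤ) ^ m * ∑ i, p i)
      have h3 : ∏ i, (#(W i (p i)) : ℝ) = ∏ i, ∏ h ∈ Finset.range m, (R i h : ℝ) := by
        refine prod_congr rfl fun i _ => ?_
        rw [(hW' i (p i) (hp.1 i)).card, Nat.cast_prod]
      calc ((#(((Fintype.piFinset V).filter (fun u => v + ∑ i, u i ∈ A)).filter
        (fun u => (fun i => u i / (b : ℤ) ^ m) = p)) : ℕ) : ℝ) ≤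
          (cnt (fun i => W i (p i)) (v + (b : ℤ) ^ m * ∑ i, p i) A : ℝ) := by exact_mod_cast h1
        _ ≤ f * ∏ i, (#(W i (p i)) : ℝ) := h2
        _ = f * ∏ i, ∏ h ∈ Finset.range m, (R i h : ℝ) := by rw [h3]
    calc (cnt V v A : ℝ) = ∑ p ∈ G, ((#(((Fintype.piFinset V).filter
          (fun u => v + ∑ i, u i ∈ A)).filter
          (fun u => (fun i => u i / (b : ℤ) ^ m) = p)) : ℕ) : ℝ) := by
          rw [cnt, card_eq_sum_card_fiberwise (f := fun (u : ι → ℤ) (i : ι) => u i / (b : ℤ) ^ m)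
            (t := G) hmap, Nat.cast_sum]
      _ ≤ ∑ p ∈ G, f * ∏ i, ∏ h ∈ Finset.range m, (R i h : ℝ) := sum_le_sum hfib
      _ = f * (∏ i, ∏ h ∈ Finset.range m, (R i h : ℝ)) * #G := by
          rw [sum_const, nsmul_eq_mul, mul_comm]

end Pool.Agent.Lib.H79KC
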