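import Pool.Agent.Lib.H79KC.C2

/-! # C3 -/

namespace Pool.Agent.Lib.H79KC

open Finset

/-- **Trivial step.**

Proof. `split_count` with `n = 1`; the filter has at most `∏ #(P i)` elements
(`Fintype.card_piFinset`). -/
theorem Walk.succ {ι : Type} [Fintype ι] [DecidableEq ι] {b : ℕ} (hb : 0 < b) {R : ι → ℕ → ℕ}
    {A : Finset ℤ} {m : ℕ} {f : ℝ} (hf : 0 ≤ f) (hW : Walk b R A m f) : Walk b R A (m + 1) f := by
  intro V hV v
  obtain ⟨P, -, hc, hle⟩ := split_count hb hf hW hV v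
  refine hle.trans ?_
  rw [hc]
  have hcard : ((#((Fintype.piFinset P).filter fun p => ∃ x ∈ A, v + (b : ℤ) ^ m * ∑ i, p i ≤ x ∧
      x ≤ v + (b : ℤ) ^ m * ∑ i, p i + Fintype.card ι * (b : ℤ) ^ m) : ℕ) : ℝ) ≤
      ∏ i, (#(P i) : ℝ) := by
    have h1 := card_filter_le (Fintype.piFinset P) (fun p => ∃ x ∈ A, v + (b : ℤ) ^ m * ∑ i, p i ≤ x ∧
      x ≤ v + (b : ℤ) ^ m * ∑ i, p i + Fintype.card ι * (b : ℤ) ^ m)
    rw [Fintype.card_piFinset] at h1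
    exact_mod_cast h1
  have hQ : (0 : ℝ) ≤ ∏ i, ∏ h ∈ Finset.range m, (R i h : ℝ) :=
    prod_nonneg fun i _ => prod_nonneg fun h _ => Nat.cast_nonneg _
  calc f * (∏ i, ∏ h ∈ Finset.range m, (R i h : ℝ)) *
        #((Fintype.piFinset P).filter fun p => ∃ x ∈ A, v + (b : ℤ) ^ m * ∑ i, p i ≤ x ∧
          x ≤ v + (b : ℤ) ^ m * ∑ i, p i + Fintype.card ι * (b : ℤ) ^ m)
      ≤ f * (∏ i, ∏ h ∈ Finset.range m, (R i h : ℝ)) * ∏ i, (#(P i) : ℝ) :=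
        mul_le_mul_of_nonneg_left hcard (mul_nonneg hf hQ)
    _ = f * ((∏ i, (#(P i) : ℝ)) * ∏ i, ∏ h ∈ Finset.range m, (R i h : ℝ)) := by ring

end Pool.Agent.Lib.H79KC
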