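import Pool.Agent.Lib.H79KC.C1
import Pool.Agent.Lib.H79KC.C2

/-! # C4 -/

namespace Pool.Agent.Lib.H79KC

open Finset

/-- **Good step**: the height `h = m + 2L + 1` is good: at least `M` trees branch there, and `A`
has at most `S` cells of height `h` in a window of `b^(L+3)` cells.

Proof. `split_count` with `n = 2L + 2`; it is enough to bound the number of `p` in the filter by
`(K / b^(2L+2) + 2S/√M) ∏ #(P i)`.  Let `Q = cells b (m + 2L + 1) A`.  If `x ∈ A`,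
`v + b^m Σ p ≤ x ≤ v + b^m Σ p + K b^m`, let `q = x / b^(m+2L+1) ∈ Q`; as
`K b^m ≤ b^(m + 2L + 1)`, `(q - 1) b^(m+2L+1) ≤ v + b^m Σ p < (q+1) b^(m+2L+1)`.  Write
`v = b^m v' + v''`, `0 ≤ v'' < b^m`: then
`(q-1) b^(2L+1) ≤ v' + Σ p < (q+1) b^(2L+1)` (integers, divide by `b^m`).  Now `near_le` for the
trees `P i` with branching numbers `fun h => R i (h + m)`, `2L + 1 + m = m + 2L + 1`. -/
theorem Walk.good {ι : Type} [Fintype ι] [DecidableEq ι] {b L : ℕ} (hb : 4 ≤ b)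
    (hK : Fintype.card ι ≤ b ^ (2 * L + 1)) {R : ι → ℕ → ℕ} {A : Finset ℤ} {m : ℕ} {f : ℝ}
    (hf : 0 ≤ f) (hW : Walk b R A m f) {M : ℕ} (hM : 0 < M)
    (hMc : M ≤ #((univ : Finset ι).filter fun i => 2 ≤ R i (m + (2 * L + 1)))) {S : ℝ}
    (hS : 0 ≤ S)
    (hA : ∀ q0 : ℤ, (#((cells b (m + (2 * L + 1)) A).filter
      fun q => q0 ≤ q ∧ q < q0 + (b : ℤ) ^ (L + 3)) : ℝ) ≤ S) :
    Walk b R A (m + (2 * L + 2)) ((Fintype.card ι / (b : ℝ) ^ (2 * L + 2) + 2 * S / √M) * f) := by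
  intro V hV v
  obtain ⟨P, hP, hprod, hcnt⟩ := split_count (by omega) hf hW hV v
  have hbm : (0 : ℤ) < (b : ℤ) ^ m := by positivity
  have hMc' : M ≤ #((univ : Finset ι).filter fun i => 2 ≤ R i (2 * L + 1 + m)) := by
    rw [add_comm (2 * L + 1) m]
    exact hMc
  have hnear := near_le (L := L) (R := fun i h => R i (h + m)) hb hP hM hMc'
    (cells b (m + (2 * L + 1)) A) hS hA (v / (b : ℤ) ^ m)
  have hKz : (Fintype.card ι : ℤ) ≤ (b : ℤ) ^ (2 * L + 1) := by exact_mod_cast hK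
  have hcard : (#((Fintype.piFinset P).filter fun p => ∃ x ∈ A, v + (b : ℤ) ^ m * ∑ i, p i ≤ x ∧
      x ≤ v + (b : ℤ) ^ m * ∑ i, p i + Fintype.card ι * (b : ℤ) ^ m) : ℝ) ≤
      (Fintype.card ι / (b : ℝ) ^ (2 * L + 2) + 2 * S / √M) * ∏ i, (#(P i) : ℝ) := by
    refine le_trans (Nat.cast_le.mpr (card_le_card ?_)) hnear
    intro p hp
    rw [mem_filter] at hp ⊢
    obtain ⟨hpP, x, hxA, hx1, hx2⟩ := hp
    refine ⟨hpP, x / (b : ℤ) ^ (m + (2 * L + 1)), mem_image.mpr ⟨x, hxA, rfl⟩, ?_⟩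
    have hBC : (b : ℤ) ^ (m + (2 * L + 1)) = (b : ℤ) ^ m * (b : ℤ) ^ (2 * L + 1) := pow_add _ _ _
    have hBC0 : (0 : ℤ) < (b : ℤ) ^ (m + (2 * L + 1)) := by positivity
    have hq1 : x / (b : ℤ) ^ (m + (2 * L + 1)) * (b : ℤ) ^ (m + (2 * L + 1)) ≤ x :=
      Int.ediv_mul_le x hBC0.ne'
    have hq2 : x < (x / (b : ℤ) ^ (m + (2 * L + 1)) + 1) * (b : ℤ) ^ (m + (2 * L + 1)) :=
      Int.lt_ediv_add_one_mul_self x hBC0
    generalize x / (b : ℤ) ^ (m + (2 * L + 1)) = q at hq1 hq2 ⊢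
    rw [hBC] at hq1 hq2
    rw [← Int.add_mul_ediv_left v (∑ i, p i) hbm.ne']
    constructor
    · rw [Int.le_ediv_iff_mul_le hbm]
      have h1 : (Fintype.card ι : ℤ) * (b : ℤ) ^ m ≤ (b : ℤ) ^ (2 * L + 1) * (b : ℤ) ^ m :=
        mul_le_mul_of_nonneg_right hKz hbm.le
      have h2 : (q - 1) * (b : ℤ) ^ (2 * L + 1) * (b : ℤ) ^ m =
          q * ((b : ℤ) ^ m * (b : ℤ) ^ (2 * L + 1)) - (b : ℤ) ^ (2 * L + 1) * (b : ℤ) ^ m := by
        ring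
      rw [h2]
      linarith
    · rw [Int.ediv_lt_iff_lt_mul hbm]
      have h2 : (q + 1) * (b : ℤ) ^ (2 * L + 1) * (b : ℤ) ^ m =
          (q + 1) * ((b : ℤ) ^ m * (b : ℤ) ^ (2 * L + 1)) := by ring
      rw [h2]
      linarith
  have hnn : 0 ≤ f * ∏ i, ∏ h ∈ Finset.range m, (R i h : ℝ) :=
    mul_nonneg hf (prod_nonneg fun i _ => prod_nonneg fun h _ => Nat.cast_nonneg _)
  calc (cnt V v A : ℝ) ≤ f * (∏ i, ∏ h ∈ Finset.range m, (R i h : ℝ)) *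
        #((Fintype.piFinset P).filter fun p => ∃ x ∈ A, v + (b : ℤ) ^ m * ∑ i, p i ≤ x ∧
          x ≤ v + (b : ℤ) ^ m * ∑ i, p i + Fintype.card ι * (b : ℤ) ^ m) := hcnt
    _ ≤ f * (∏ i, ∏ h ∈ Finset.range m, (R i h : ℝ)) *
        ((Fintype.card ι / (b : ℝ) ^ (2 * L + 2) + 2 * S / √M) * ∏ i, (#(P i) : ℝ)) :=
      mul_le_mul_of_nonneg_left hcard hnn
    _ = (Fintype.card ι / (b : ℝ) ^ (2 * L + 2) + 2 * S / √M) * f *
        ((∏ i, (#(P i) : ℝ)) * ∏ i, ∏ h ∈ Finset.range m, (R i h : ℝ)) := by ring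
    _ = (Fintype.card ι / (b : ℝ) ^ (2 * L + 2) + 2 * S / √M) * f * ∏ i, (#(V i) : ℝ) := by
      rw [hprod]

end Pool.Agent.Lib.H79KC
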