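import Pool.Agent.Lib.H79KC.C3
import Pool.Agent.Lib.H79KC.C4

/-! # C5 -/

namespace Pool.Agent.Lib.H79KC

open Finset

private lemma walk_mono {ι : Type} [Fintype ι] [DecidableEq ι] {b : ℕ} {R : ι → ℕ → ℕ}
    {A : Finset ℤ} {m : ℕ} {f g : ℝ} (hfg : f ≤ g) (h : Walk b R A m f) : Walk b R A m g := by
  intro V hV v
  refine (h V hV v).trans (mul_le_mul_of_nonneg_right hfg ?_)
  exact prod_nonneg fun i _ => Nat.cast_nonneg _

private lemma walk_one {ι : Type} [Fintype ι] [DecidableEq ι] {b : ℕ} {R : ι → ℕ → ℕ}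
    {A : Finset ℤ} {m : ℕ} : Walk b R A m 1 := by
  intro V _ v
  rw [one_mul]
  have h1 : cnt V v A ≤ ∏ i, #(V i) := by
    rw [cnt, ← Fintype.card_piFinset]
    exact card_filter_le _ _
  calc (cnt V v A : ℝ) ≤ ((∏ i, #(V i) : ℕ) : ℝ) := by exact_mod_cast h1
    _ = ∏ i, (#(V i) : ℝ) := by push_cast; rfl

/-- **The walk.** `Good h`: at least `M` trees branch at height `h` and `A` is sparse at height `h`.
With `H = 2L+2` and `θ = K / b^(2L+2) + 2S/√M ≤ 1/b = β^H`: the probability is at most
`b β^(number of good heights below n)`.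

Proof. Strong induction on `n`; `g n = #{h < n : Good h}`.  If `n < H` (in particular `n = 0`):
`g n ≤ n ≤ H`, so `b β^(g n) ≥ b β^H = 1` and `Walk b R A n f` holds for every `f ≥ 1`
(`cnt ≤ card piFinset = ∏ #V`, `Fintype.card_piFinset`).  If `n ≥ H` and the height `n - 1` is good:
`Walk.good` with `m = n - H` gives `θ b β^(g (n-H)) ≤ β^H b β^(g (n-H)) = b β^(H + g (n-H))` and
`g n ≤ H + g (n - H)`; `Walk` is monotone in `f`.  If `n - 1` is not good, `g n = g (n-1)` and
`Walk.succ`. -/
theorem walk {ι : Type} [Fintype ι] [DecidableEq ι] {b L : ℕ} (hb : 4 ≤ b)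
    (hK : Fintype.card ι ≤ b ^ (2 * L + 1)) {R : ι → ℕ → ℕ} {A : Finset ℤ} {M : ℕ} (hM : 0 < M)
    {S : ℝ} (hS : 0 ≤ S)
    (hθ : (Fintype.card ι / (b : ℝ) ^ (2 * L + 2) + 2 * S / √M) ≤ 1 / b) {β : ℝ} (hβ : 0 < β)
    (hβH : β ^ (2 * L + 2) = 1 / b) (G : Finset ℕ)
    (hG : ∀ h ∈ G, M ≤ #((univ : Finset ι).filter fun i => 2 ≤ R i h) ∧
      ∀ q0 : ℤ, (#((cells b h A).filter
        fun q => q0 ≤ q ∧ q < q0 + (b : ℤ) ^ (L + 3)) : ℝ) ≤ S) (n : ℕ) :
    Walk b R A n (b * β ^ #(G.filter (· < n))) := by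
  have hb0 : (0 : ℝ) < b := by
    have : 0 < b := by omega
    exact_mod_cast this
  have hb4 : (4 : ℝ) ≤ b := by exact_mod_cast hb
  have hβ1 : β ≤ 1 := by
    by_contra hlt
    push Not at hlt
    have h1 : 1 ≤ β ^ (2 * L + 2) := one_le_pow₀ hlt.le
    rw [hβH, le_div_iff₀ hb0] at h1
    linarith
  induction n using Nat.strong_induction_on with
  | _ n ih =>
    rcases Nat.lt_or_ge n (2 * L + 2) with hn | hn
    · refine walk_mono ?_ walk_one
      have h1 : #(G.filter (· < n)) ≤ n := by
        calc #(G.filter (· < n)) ≤ #(Finset.range n) := card_le_card fun x hx =>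
              mem_range.mpr (mem_filter.mp hx).2
          _ = n := card_range n
      have h2 : β ^ (2 * L + 2) ≤ β ^ #(G.filter (· < n)) :=
        pow_le_pow_of_le_one hβ.le hβ1 (by omega)
      rw [hβH, div_le_iff₀ hb0] at h2
      linarith
    · obtain ⟨m, rfl⟩ : ∃ m, n = m + (2 * L + 2) := ⟨n - (2 * L + 2), by omega⟩
      by_cases hmem : m + (2 * L + 1) ∈ G
      · obtain ⟨hM1, hS1⟩ := hG _ hmem
        have hf : 0 ≤ (b : ℝ) * β ^ #(G.filter (· < m)) := by positivity
        have h1 := Walk.good hb hK hf (ih m (by omega)) hM hM1 hS hS1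
        refine walk_mono ?_ h1
        have h2 : #(G.filter (· < m + (2 * L + 2))) ≤ (2 * L + 2) + #(G.filter (· < m)) := by
          have h3 : G.filter (· < m + (2 * L + 2)) ⊆
              Finset.Ico m (m + (2 * L + 2)) ∪ G.filter (· < m) := by
            intro x hx
            rw [mem_filter] at hx
            rw [mem_union, mem_Ico, mem_filter]
            rcases Nat.lt_or_ge x m with h | h
            · exact Or.inr ⟨hx.1, h⟩
            · exact Or.inl ⟨h, hx.2⟩
          refine (card_le_card h3).trans ((card_union_le _ _).trans ?_)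
          rw [Nat.card_Ico]
          omega
        calc (Fintype.card ι / (b : ℝ) ^ (2 * L + 2) + 2 * S / √M) *
              ((b : ℝ) * β ^ #(G.filter (· < m)))
            ≤ 1 / b * ((b : ℝ) * β ^ #(G.filter (· < m))) := mul_le_mul_of_nonneg_right hθ hf
          _ = b * β ^ ((2 * L + 2) + #(G.filter (· < m))) := by rw [pow_add, hβH]; ring
          _ ≤ b * β ^ #(G.filter (· < m + (2 * L + 2))) :=
              mul_le_mul_of_nonneg_left (pow_le_pow_of_le_one hβ.le hβ1 h2) hb0.le
      · have hf : 0 ≤ (b : ℝ) * β ^ #(G.filter (· < m + (2 * L + 1))) := by positivity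
        have h1 := Walk.succ (by omega : 0 < b) hf (ih (m + (2 * L + 1)) (by omega))
        have h2 : G.filter (· < m + (2 * L + 2)) = G.filter (· < m + (2 * L + 1)) := by
          ext x
          rw [mem_filter, mem_filter]
          constructor
          · rintro ⟨hx, hlt⟩
            refine ⟨hx, ?_⟩
            rcases Nat.lt_or_ge x (m + (2 * L + 1)) with h | h
            · exact h
            · exfalso
              have hxe : x = m + (2 * L + 1) := by omega
              rw [hxe] at hx
              exact hmem hx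
          · rintro ⟨hx, hlt⟩
            exact ⟨hx, by omega⟩
        rw [h2]
        exact h1

end Pool.Agent.Lib.H79KC
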