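import Pool.Agent.Lib.H79KC.Trees

/-! # D1 -/

namespace Pool.Agent.Lib.H79KC

open Finset

/-- Binary splitting of a finite set.

Proof. Induction on `ℓ`.  `ℓ = 0`: `#D < 1`, `D = ∅`, all parts empty.  `ℓ + 1`: if
`#D ≥ 2^ℓ`, take `G ℓ ⊆ D` with `2^ℓ` elements (`Finset.exists_subset_card_eq`) and split
`D \ G ℓ`, which has `< 2^(ℓ+1) - 2^ℓ = 2^ℓ` elements; otherwise `G ℓ = ∅`. -/
theorem binary_split (ℓ : ℕ) (D : Finset ℤ) (hD : #D < 2 ^ ℓ) :
    ∃ G : ℕ → Finset ℤ, (∀ j, G j ⊆ D) ∧ (∀ x ∈ D, ∃! j, j < ℓ ∧ x ∈ G j) ∧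
      ∀ j < ℓ, G j = ∅ ∨ #(G j) = 2 ^ j := by
  induction ℓ generalizing D with
  | zero =>
    have h0 : D = ∅ := by
      rw [← card_eq_zero]
      simpa using hD
    subst h0
    exact ⟨fun _ => ∅, by simp, by simp, by simp⟩
  | succ ℓ ih =>
    obtain ⟨S, hS, hc, h1⟩ : ∃ S ⊆ D, (S = ∅ ∨ #S = 2 ^ ℓ) ∧ #(D \ S) < 2 ^ ℓ := by
      by_cases h : 2 ^ ℓ ≤ #D
      · obtain ⟨S, hS, hc⟩ := Finset.exists_subset_card_eq h
        refine ⟨S, hS, Or.inr hc, ?_⟩
        rw [card_sdiff_of_subset hS, hc]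
        rw [pow_succ] at hD
        omega
      · refine ⟨∅, empty_subset _, Or.inl rfl, ?_⟩
        rw [sdiff_empty]
        omega
    obtain ⟨G, h2, h3, h4⟩ := ih (D \ S) h1
    refine ⟨Function.update G ℓ S, ?_, ?_, ?_⟩
    · intro j
      by_cases hj : j = ℓ
      · subst hj
        rw [Function.update_self]
        exact hS
      · rw [Function.update_of_ne hj]
        exact (h2 j).trans sdiff_subset
    · intro x hx
      by_cases hxS : x ∈ S
      · refine ⟨ℓ, ⟨Nat.lt_succ_self ℓ, ?_⟩, ?_⟩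
        · rw [Function.update_self]
          exact hxS
        · rintro j ⟨_, hj⟩
          by_contra hne
          rw [Function.update_of_ne hne] at hj
          exact (mem_sdiff.mp (h2 j hj)).2 hxS
      · obtain ⟨j, ⟨hj1, hj2⟩, hu⟩ := h3 x (mem_sdiff.mpr ⟨hx, hxS⟩)
        refine ⟨j, ⟨by omega, ?_⟩, ?_⟩
        · rw [Function.update_of_ne (by omega)]
          exact hj2
        · rintro i ⟨hi1, hi2⟩
          by_cases hi : i = ℓ
          · subst hi
            rw [Function.update_self] at hi2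
            exact absurd hi2 hxS
          · rw [Function.update_of_ne hi] at hi2
            exact hu i ⟨by omega, hi2⟩
    · intro j hj
      by_cases hj' : j = ℓ
      · subst hj'
        rw [Function.update_self]
        exact hc
      · rw [Function.update_of_ne hj']
        exact h4 j (by omega)

end Pool.Agent.Lib.H79KC
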