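import Pool.Agent.Lib.H79KC.D1

/-! # D2 -/

namespace Pool.Agent.Lib.H79KC

open Finset

/-- **Every finite subset of `[0, b^N)` is the disjoint union of at most `(2ℓ)^N` separated regular
trees** (`b < 2^ℓ`), one for each index `e : Fin N → Fin ℓ × Bool`.

Proof. Induction on `N`.  `N = 0`: `A ⊆ {0}`; `F e = A`.  `N + 1`: for every digit `d` (`0 ≤ d < b`)
let `A d = {x ∈ [0, b^N) : d b^N + x ∈ A}` and let `F d e'` (`e' : Fin N → Fin ℓ × Bool`) be its
pieces.  For each `e'` let `D e' = {d : F d e' ≠ ∅}`, of at most `b < 2^ℓ` elements.  Split the even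
and the odd elements of `D e'` by `binary_split`: parts `G e' j ε` (`j < ℓ`, `ε : Bool` = parity)
with `0` or `2^j` elements.  For `e = (e', (j, ε))` (`j`, `ε` = value at the last index `N`,
`e' i = e i.castSucc`) put `F e = ⋃_{d ∈ G e' j ε} (d b^N + F d e')`; it is empty or a separated tree
of height `N + 1` with `R N = 2^j` and `R h = br e' h` for `h < N` (`Tree.congr`).  A point
`x = d b^N + y` of `A` (`d = x / b^N`, `y = x % b^N`) is in exactly one `F d e'` and `d` is in
exactly one `G e' j ε`. -/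
theorem decomposition {b ℓ : ℕ} (hb : b < 2 ^ ℓ) : ∀ (N : ℕ) (A : Finset ℤ),
    (∀ x ∈ A, 0 ≤ x ∧ x < (b : ℤ) ^ N) →
    ∃ F : (Fin N → Fin ℓ × Bool) → Finset ℤ,
      (∀ e, F e = ∅ ∨ Tree b True (br e) N (F e)) ∧ (∀ e, F e ⊆ A) ∧
      ∀ x ∈ A, ∃! e, x ∈ F e := by
  intro N
  induction N with
  | zero =>
    intro A hA
    refine ⟨fun _ => A, ?_, fun _ => subset_rfl, ?_⟩
    · intro e
      have h1 : A ⊆ {0} := by
        intro x hx
        obtain ⟨h0, h1⟩ := hA x hx
        rw [pow_zero] at h1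
        rw [mem_singleton]
        omega
      rcases subset_singleton_iff.mp h1 with h | h
      · exact Or.inl h
      · exact Or.inr h
    · intro x hx
      exact ⟨Fin.elim0, hx, fun e _ => funext fun i => i.elim0⟩
  | succ N ih =>
    intro A hA
    have hpos : ∀ x ∈ A, (0 : ℤ) < (b : ℤ) ^ N := by
      intro x hx
      obtain ⟨h0, h1⟩ := hA x hx
      have h2 : (0 : ℤ) < (b : ℤ) ^ (N + 1) := lt_of_le_of_lt h0 h1
      have h3 : (b : ℤ) ≠ 0 := by
        rintro h
        rw [h, zero_pow (Nat.succ_ne_zero N)] at h2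
        exact lt_irrefl _ h2
      have h4 : (0 : ℤ) < (b : ℤ) := lt_of_le_of_ne (Int.natCast_nonneg b) (Ne.symm h3)
      positivity
    have hAd : ∀ d : ℤ, ∀ y ∈ (A.filter fun x => x / (b : ℤ) ^ N = d).image
        (fun x => x % (b : ℤ) ^ N), 0 ≤ y ∧ y < (b : ℤ) ^ N := by
      intro d y hy
      obtain ⟨x, hx, rfl⟩ := mem_image.mp hy
      have hp := hpos x (mem_filter.mp hx).1
      exact ⟨Int.emod_nonneg _ hp.ne', Int.emod_lt_of_pos _ hp⟩
    choose F hF hFA hFu using fun d : ℤ => ih _ (hAd d)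
    have hD : ∀ (e' : Fin N → Fin ℓ × Bool) (ε : Bool),
        #((Finset.Ico (0 : ℤ) b).filter fun d => (F d e').Nonempty ∧ decide (d % 2 = 0) = ε)
          < 2 ^ ℓ := by
      intro e' ε
      calc #((Finset.Ico (0 : ℤ) b).filter fun d => (F d e').Nonempty ∧ decide (d % 2 = 0) = ε)
          ≤ #(Finset.Ico (0 : ℤ) b) := card_filter_le _ _
        _ = b := by simp
        _ < 2 ^ ℓ := hb
    choose G hG hGu hGc using fun (e' : Fin N → Fin ℓ × Bool) (ε : Bool) =>
      binary_split ℓ _ (hD e' ε)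
    refine ⟨fun e => (G (Fin.init e) (e (Fin.last N)).2 (e (Fin.last N)).1).biUnion fun d =>
      (F d (Fin.init e)).image fun x => d * (b : ℤ) ^ N + x, ?_, ?_, ?_⟩
    · intro e
      rcases hGc (Fin.init e) (e (Fin.last N)).2 (e (Fin.last N)).1 (e (Fin.last N)).1.isLt
        with h | h
      · left
        show (G (Fin.init e) (e (Fin.last N)).2 (e (Fin.last N)).1).biUnion _ = ∅
        rw [h, biUnion_empty]
      · right
        have hmem : ∀ d ∈ G (Fin.init e) (e (Fin.last N)).2 (e (Fin.last N)).1,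
            (0 ≤ d ∧ d < (b : ℤ)) ∧ (F d (Fin.init e)).Nonempty ∧
              decide (d % 2 = 0) = (e (Fin.last N)).2 := by
          intro d hd
          have h1 := mem_filter.mp (hG _ _ _ hd)
          exact ⟨mem_Ico.mp h1.1, h1.2⟩
        refine ⟨G (Fin.init e) (e (Fin.last N)).2 (e (Fin.last N)).1,
          fun d => F d (Fin.init e), ?_, fun d hd => (hmem d hd).1, ?_, ?_, rfl⟩
        · rw [h]
          simp only [br, Nat.lt_succ_self, dif_pos]
          rfl
        · intro _ d hd d' hd'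
          have h1 := (hmem d hd).2.2
          have h2 := (hmem d' hd').2.2
          have h3 : (d % 2 = 0) ↔ (d' % 2 = 0) := by
            rw [← h2] at h1
            exact decide_eq_decide.mp h1
          omega
        · intro d hd
          rcases hF d (Fin.init e) with h1 | h1
          · exact absurd h1 (hmem d hd).2.1.ne_empty
          · refine h1.congr fun k hk => ?_
            have hk' : k < N + 1 := by omega
            simp only [br, hk, hk', dif_pos]
            rfl
    · intro e z hz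
      obtain ⟨d, hd, hz⟩ := mem_biUnion.mp hz
      obtain ⟨y, hy, rfl⟩ := mem_image.mp hz
      obtain ⟨x, hx, rfl⟩ := mem_image.mp (hFA d _ hy)
      obtain ⟨hxA, rfl⟩ := mem_filter.mp hx
      have h1 : x / (b : ℤ) ^ N * (b : ℤ) ^ N + x % (b : ℤ) ^ N = x := by
        rw [mul_comm]; exact Int.mul_ediv_add_emod x _
      rw [h1]
      exact hxA
    · intro x hx
      have hp := hpos x hx
      have hx1 : x / (b : ℤ) ^ N * (b : ℤ) ^ N + x % (b : ℤ) ^ N = x := by
        rw [mul_comm]; exact Int.mul_ediv_add_emod x _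
      have hy : x % (b : ℤ) ^ N ∈ (A.filter fun z => z / (b : ℤ) ^ N = x / (b : ℤ) ^ N).image
          (fun z => z % (b : ℤ) ^ N) := mem_image.mpr ⟨x, mem_filter.mpr ⟨hx, rfl⟩, rfl⟩
      obtain ⟨e', he', hu'⟩ := hFu (x / (b : ℤ) ^ N) _ hy
      have hd : x / (b : ℤ) ^ N ∈ (Finset.Ico (0 : ℤ) b).filter fun d =>
          (F d e').Nonempty ∧ decide (d % 2 = 0) = decide (x / (b : ℤ) ^ N % 2 = 0) := by
        refine mem_filter.mpr ⟨mem_Ico.mpr ⟨Int.ediv_nonneg (hA x hx).1 hp.le, ?_⟩, ⟨_, he'⟩, rfl⟩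
        apply Int.ediv_lt_of_lt_mul hp
        have h2 := (hA x hx).2
        rw [pow_succ, mul_comm] at h2
        exact h2
      obtain ⟨j, ⟨hj, hjG⟩, hju⟩ := hGu e' (decide (x / (b : ℤ) ^ N % 2 = 0)) _ hd
      refine ⟨Fin.snoc e' (⟨j, hj⟩, decide (x / (b : ℤ) ^ N % 2 = 0)), ?_, ?_⟩
      · simp only [Fin.init_snoc, Fin.snoc_last]
        exact mem_biUnion.mpr ⟨_, hjG, mem_image.mpr ⟨_, he', hx1⟩⟩
      · intro e he
        obtain ⟨d, hd1, hz⟩ := mem_biUnion.mp he
        obtain ⟨y, hy1, hxy⟩ := mem_image.mp hz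
        obtain ⟨y0, y1⟩ := hAd d y (hFA d _ hy1)
        have e1 : x / (b : ℤ) ^ N = d := by
          rw [← hxy, add_comm, Int.add_mul_ediv_right _ _ hp.ne', Int.ediv_eq_zero_of_lt y0 y1,
            zero_add]
        have e2 : x % (b : ℤ) ^ N = y := by
          rw [← hxy, add_comm, Int.add_mul_emod_self_right, Int.emod_eq_of_lt y0 y1]
        have h3 : Fin.init e = e' := hu' _ (by
          show x % (b : ℤ) ^ N ∈ F (x / (b : ℤ) ^ N) (Fin.init e)
          rw [e1, e2]
          exact hy1)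
        have h4 := (mem_filter.mp (hG _ _ _ hd1)).2.2
        rw [h3] at hd1
        have h5 : decide (x / (b : ℤ) ^ N % 2 = 0) = (e (Fin.last N)).2 := by
          rw [e1]; exact h4
        have h6 : ((e (Fin.last N)).1 : ℕ) = j := by
          apply hju
          refine ⟨(e (Fin.last N)).1.isLt, ?_⟩
          rw [h5, e1]
          exact hd1
        rw [← Fin.snoc_init_self e, h3]
        have h7 : e (Fin.last N) = (⟨j, hj⟩, decide (x / (b : ℤ) ^ N % 2 = 0)) := by
          refine Prod.ext (Fin.ext h6) h5.symm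
        rw [h7]

end Pool.Agent.Lib.H79KC
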