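import Mathlib.Algebra.BigOperators.Fin
import Mathlib.Algebra.Order.Floor.Ring
import Mathlib.Combinatorics.Additive.Energy
import Mathlib.Data.Fintype.BigOperators
import Mathlib.Data.Fintype.Pi
import Mathlib.Analysis.SpecialFunctions.Pow.Real
import Mathlib.Tactic

/-!
# The core of the sharp theorem for MP_54f706_an: additive energy and regular trees

Heights are counted from the lowest digit: height `h` is the coefficient of `b ^ h`.
-/

namespace Pool.Agent.Lib.H79KC

open Finset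

/-- `Tree b sep R n V`: `V ⊆ [0, b^n)` is an exactly regular tree of height `n` in base `b`; a node
at height `h + 1` has exactly `R h` children.  If `sep` holds, the digits of the children of a node
have the same parity (so that different children are at distance `> b ^ h`). -/
def Tree (b : ℕ) (sep : Prop) (R : ℕ → ℕ) : ℕ → Finset ℤ → Prop
  | 0, V => V = {0}
  | n + 1, V => ∃ (D : Finset ℤ) (W : ℤ → Finset ℤ), #D = R n ∧
      (∀ d ∈ D, 0 ≤ d ∧ d < b) ∧ (sep → ∀ d ∈ D, ∀ d' ∈ D, (2 : ℤ) ∣ d - d') ∧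
      (∀ d ∈ D, Tree b sep R n (W d)) ∧
      V = D.biUnion fun d => (W d).image fun x => d * (b : ℤ) ^ n + x

/-- Exactly regular sets of naturals, by prefix classes. -/
def IsReg (b N : ℕ) (R : ℕ → ℕ) (A : Finset ℕ) : Prop :=
  ∀ h < N, ∀ y ∈ A.image (fun x => x / b ^ (h + 1)),
    #((A.image (fun x => x / b ^ h)).filter (fun z => z / b = y)) = R h

/-- The cells of `A` at height `h`. -/
def cells (b h : ℕ) (A : Finset ℤ) : Finset ℤ := A.image (fun x => x / (b : ℤ) ^ h)

/-- `V` has a bijection onto itself which moves every point by at least `w`. -/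
def Shift (V : Finset ℤ) (w : ℤ) : Prop :=
  ∃ φ : ℤ → ℤ, Set.BijOn φ V V ∧ ∀ x ∈ V, w ≤ |φ x - x|

/-- The number of points of the product with `v + Σ u ∈ A`. -/
def cnt {ι : Type} [Fintype ι] [DecidableEq ι] (V : ι → Finset ℤ) (v : ℤ) (A : Finset ℤ) : ℕ :=
  #((Fintype.piFinset V).filter fun u => v + ∑ i, u i ∈ A)

/-- `Walk b R A m f`: for all products of separated regular trees of height `m` with branching
numbers `R i`, the sum is in `A - v` with probability at most `f`. -/
def Walk {ι : Type} [Fintype ι] [DecidableEq ι] (b : ℕ) (R : ι → ℕ → ℕ) (A : Finset ℤ) (m : ℕ)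
    (f : ℝ) : Prop :=
  ∀ V : ι → Finset ℤ, (∀ i, Tree b True (R i) m (V i)) → ∀ v : ℤ,
    (cnt V v A : ℝ) ≤ f * ∏ i, (#(V i) : ℝ)

/-- The number of `(a, u, u')`, `a ∈ A`, `u, u' ∈ U^K`, with `a + Σ u - Σ u' ∈ A`. -/
def NK (U A : Finset ℤ) (K : ℕ) : ℕ :=
  #((A ×ˢ Fintype.piFinset (fun _ : Fin K => U) ×ˢ Fintype.piFinset (fun _ : Fin K => U)).filter
    fun t => t.1 + ∑ i, t.2.1 i - ∑ i, t.2.2 i ∈ A)

/-- The branching numbers belonging to an index `e`. -/
def br {N ℓ : ℕ} (e : Fin N → Fin ℓ × Bool) (h : ℕ) : ℕ :=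
  if hh : h < N then 2 ^ ((e ⟨h, hh⟩).1 : ℕ) else 1

end Pool.Agent.Lib.H79KC
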