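import Mathlib.Algebra.Order.Chebyshev
import Pool.Agent.Lib.H79KC.Defs

/-! # E1 -/

namespace Pool.Agent.Lib.H79KC

open Finset

/-- **Doubling.**

Proof. Let `r x` be the number of `(a, u, u')` with `a + Σ u - Σ u' = x`.  Then
`NK U A K = Σ_{x ∈ A} r x`, so `NK² ≤ #A Σ_x r(x)²` (Cauchy–Schwarz,
`sq_sum_le_card_mul_sum_sq`), where `x` runs over the finite set of all values.  And
`Σ_x r(x)² = #{((a,u,u'), (a₁,v,v')) : a + Σ u - Σ u' = a₁ + Σ v - Σ v'}`; the map
`((a,u,u'), (a₁,v,v')) ↦ (a, Fin.append u v', Fin.append u' v)` is injective on this set (`a₁` is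
determined by the rest) with values in the set of `NK U A (K + K)`:
`a + Σ u + Σ v' - Σ u' - Σ v = a₁ ∈ A` (`Fin.sum_univ_add`, `Fin.append_left`,
`Fin.append_right`). -/
theorem NK_double (U A : Finset ℤ) (K : ℕ) : (NK U A K) ^ 2 ≤ #A * NK U A (K + K) := by
  classical
  set T : Finset (ℤ × (Fin K → ℤ) × (Fin K → ℤ)) :=
    A ×ˢ Fintype.piFinset (fun _ : Fin K => U) ×ˢ Fintype.piFinset (fun _ : Fin K => U) with hT
  set val : ℤ × (Fin K → ℤ) × (Fin K → ℤ) → ℤ := fun t => t.1 + ∑ i, t.2.1 i - ∑ i, t.2.2 i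
    with hval
  have h1 : NK U A K = ∑ x ∈ A, #((T.filter fun t => val t ∈ A).filter fun t => val t = x) :=
    Finset.card_eq_sum_card_fiberwise (s := T.filter fun t => val t ∈ A) (t := A) (f := val)
      (fun t ht => (mem_filter.mp ht).2)
  have h2 : (NK U A K) ^ 2 ≤
      #A * ∑ x ∈ A, #((T.filter fun t => val t ∈ A).filter fun t => val t = x) ^ 2 := by
    rw [h1]
    exact sq_sum_le_card_mul_sum_sq
  refine h2.trans (Nat.mul_le_mul_left _ ?_)
  set W : Finset ((ℤ × (Fin K → ℤ) × (Fin K → ℤ)) × (ℤ × (Fin K → ℤ) × (Fin K → ℤ))) :=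
    (T ×ˢ T).filter fun q => val q.1 ∈ A ∧ val q.2 = val q.1 with hW
  have h3 : ∑ x ∈ A, #((T.filter fun t => val t ∈ A).filter fun t => val t = x) ^ 2 ≤ #W := by
    have h4 : #W = ∑ x ∈ A, #(W.filter fun q => val q.1 = x) :=
      Finset.card_eq_sum_card_fiberwise (s := W) (t := A)
        (f := fun q : (ℤ × (Fin K → ℤ) × (Fin K → ℤ)) × (ℤ × (Fin K → ℤ) × (Fin K → ℤ)) =>
          val q.1) (fun q hq => (mem_filter.mp hq).2.1)
    rw [h4]
    refine Finset.sum_le_sum fun x _ => ?_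
    rw [sq, ← Finset.card_product]
    refine Finset.card_le_card fun q hq => ?_
    obtain ⟨hq1, hq2⟩ := mem_product.mp hq
    obtain ⟨hq1, hx1⟩ := mem_filter.mp hq1
    obtain ⟨hq2, hx2⟩ := mem_filter.mp hq2
    obtain ⟨hq1, ha1⟩ := mem_filter.mp hq1
    obtain ⟨hq2, -⟩ := mem_filter.mp hq2
    exact mem_filter.mpr ⟨mem_filter.mpr ⟨mem_product.mpr ⟨hq1, hq2⟩, ha1, by rw [hx1, hx2]⟩, hx1⟩
  refine h3.trans ?_
  refine Finset.card_le_card_of_injOn
    (fun q => (q.1.1, Fin.append q.1.2.1 q.2.2.2, Fin.append q.1.2.2 q.2.2.1)) ?_ ?_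
  · intro q hq
    obtain ⟨hq, ha, hv⟩ := mem_filter.mp hq
    obtain ⟨hq1, hq2⟩ := mem_product.mp hq
    obtain ⟨a1, hq1⟩ := mem_product.mp hq1
    obtain ⟨u1, v1⟩ := mem_product.mp hq1
    obtain ⟨a2, hq2⟩ := mem_product.mp hq2
    obtain ⟨u2, v2⟩ := mem_product.mp hq2
    rw [Fintype.mem_piFinset] at u1 v1 u2 v2
    refine mem_filter.mpr ⟨mem_product.mpr ⟨a1, mem_product.mpr ⟨?_, ?_⟩⟩, ?_⟩
    · rw [Fintype.mem_piFinset]
      intro i
      refine Fin.addCases (fun j => ?_) (fun j => ?_) i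
      · show Fin.append _ _ (Fin.castAdd K j) ∈ U
        rw [Fin.append_left]; exact u1 j
      · show Fin.append _ _ (Fin.natAdd K j) ∈ U
        rw [Fin.append_right]; exact v2 j
    · rw [Fintype.mem_piFinset]
      intro i
      refine Fin.addCases (fun j => ?_) (fun j => ?_) i
      · show Fin.append _ _ (Fin.castAdd K j) ∈ U
        rw [Fin.append_left]; exact v1 j
      · show Fin.append _ _ (Fin.natAdd K j) ∈ U
        rw [Fin.append_right]; exact u2 j
    · simp only [Fin.sum_univ_add, Fin.append_left, Fin.append_right]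
      have h5 : q.1.1 + (∑ i, q.1.2.1 i + ∑ i, q.2.2.2 i) - (∑ i, q.1.2.2 i + ∑ i, q.2.2.1 i) =
          q.2.1 := by
        simp only [hval] at hv
        linarith
      rw [h5]
      exact a2
  · intro q hq q' hq' h
    obtain ⟨-, -, hv⟩ := mem_filter.mp hq
    obtain ⟨-, -, hv'⟩ := mem_filter.mp hq'
    simp only [Prod.mk.injEq] at h
    obtain ⟨e1, e2, e3⟩ := h
    have e4 : q.1.2.1 = q'.1.2.1 := by
      funext j
      have := congrFun e2 (Fin.castAdd K j)
      rwa [Fin.append_left, Fin.append_left] at this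
    have e5 : q.2.2.2 = q'.2.2.2 := by
      funext j
      have := congrFun e2 (Fin.natAdd K j)
      rwa [Fin.append_right, Fin.append_right] at this
    have e6 : q.1.2.2 = q'.1.2.2 := by
      funext j
      have := congrFun e3 (Fin.castAdd K j)
      rwa [Fin.append_left, Fin.append_left] at this
    have e7 : q.2.2.1 = q'.2.2.1 := by
      funext j
      have := congrFun e3 (Fin.natAdd K j)
      rwa [Fin.append_right, Fin.append_right] at this
    have e8 : q.2.1 = q'.2.1 := by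
      simp only [hval] at hv hv'
      rw [e1, e4, e6, e5, e7] at hv
      linarith
    exact Prod.ext (Prod.ext e1 (Prod.ext e4 e6)) (Prod.ext e8 (Prod.ext e7 e5))

end Pool.Agent.Lib.H79KC
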