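import Pool.Agent.Lib.H79KC.Trees

/-! # F1 -/

namespace Pool.Agent.Lib.H79KC

open Finset

/-- A large tree branches at many heights.

Proof. `#V = ∏_{h < N} R h`, every factor is `≤ b` (`hR`) and the factors with `R h < 2` are `≤ 1`;
so `b^(a) ≤ #V ≤ b^(#{h : 2 ≤ R h})`; take logarithms (`1 < b`). -/
theorem Tree.many_branchings {b : ℕ} (hb : 1 < b) {sep : Prop} {R : ℕ → ℕ} {N : ℕ} {V : Finset ℤ}
    (hV : Tree b sep R N V) (hR : ∀ h < N, R h ≤ b) {a : ℝ} (ha : (b : ℝ) ^ a ≤ #V) :
    a ≤ #((Finset.range N).filter fun h => 2 ≤ R h) := by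
  have h1 : #V ≤ b ^ #((Finset.range N).filter fun h => 2 ≤ R h) := by
    rw [hV.card]
    calc ∏ h ∈ Finset.range N, R h ≤ ∏ h ∈ Finset.range N, (if 2 ≤ R h then b else 1) := by
          apply Finset.prod_le_prod'
          intro h hh
          have := hR h (Finset.mem_range.mp hh)
          split_ifs with h2
          · exact this
          · omega
      _ = b ^ #((Finset.range N).filter fun h => 2 ≤ R h) := by
          rw [Finset.prod_ite]
          simp
  have h2 : (b : ℝ) ^ a ≤ (b : ℝ) ^ ((#((Finset.range N).filter fun h => 2 ≤ R h) : ℕ) : ℝ) := by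
    rw [Real.rpow_natCast]
    refine ha.trans ?_
    exact_mod_cast h1
  exact (Real.rpow_le_rpow_left_iff (by exact_mod_cast hb)).mp h2

end Pool.Agent.Lib.H79KC
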