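import Pool.Agent.Lib.H79KC.Trees

/-! # F2 -/

namespace Pool.Agent.Lib.H79KC

open Finset

/-- Double counting: if each of the `K` trees branches at `≥ a N` heights, then at `≥ (a/2) N`
heights at least `(a/2) K` trees branch.

Proof. Let `g` be the number of heights `h < N` with `M ≤ #{i : 2 ≤ R i h}`.  The number of pairs
`(i, h)` with `2 ≤ R i h` is `≥ a N K` and `≤ g K + N M'`, where at the other heights the number of
`i` is `< M`, hence `≤ (a/2) K` (it is an integer `< M = ⌈(a/2) K⌉`, so `< (a/2) K`).  So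
`g K ≥ a N K - (a/2) N K`; divide by `K > 0`. -/
theorem many_good {ι : Type} [Fintype ι] [DecidableEq ι] [Nonempty ι] {R : ι → ℕ → ℕ} {N : ℕ}
    {a : ℝ} (ha : 0 ≤ a)
    (h : ∀ i, a * N ≤ #((Finset.range N).filter fun h => 2 ≤ R i h)) :
    a / 2 * N ≤ #((Finset.range N).filter fun h =>
      ⌈a / 2 * Fintype.card ι⌉₊ ≤ #((univ : Finset ι).filter fun i => 2 ≤ R i h)) := by
  classical
  have hK : (0 : ℝ) < Fintype.card ι := by
    exact_mod_cast Fintype.card_pos
  set K : ℝ := (Fintype.card ι : ℝ) with hKdef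
  set c : ℕ → ℕ := fun h => #((univ : Finset ι).filter fun i => 2 ≤ R i h) with hc
  set G : Finset ℕ := (Finset.range N).filter fun h => ⌈a / 2 * K⌉₊ ≤ c h with hG
  -- double counting
  have hdc : ∑ i : ι, #((Finset.range N).filter fun h => 2 ≤ R i h)
      = ∑ h ∈ Finset.range N, c h := by
    simp only [hc, Finset.card_filter]
    exact Finset.sum_comm
  have hlow : a * N * K ≤ ∑ h ∈ Finset.range N, (c h : ℝ) := by
    have h1 : ∑ _i : ι, a * N ≤ ∑ i : ι, (#((Finset.range N).filter fun h => 2 ≤ R i h) : ℝ) :=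
      Finset.sum_le_sum fun i _ => h i
    have h2 : ∑ i : ι, (#((Finset.range N).filter fun h => 2 ≤ R i h) : ℝ)
        = ∑ h ∈ Finset.range N, (c h : ℝ) := by
      exact_mod_cast hdc
    rw [Finset.sum_const, Finset.card_univ, nsmul_eq_mul, h2] at h1
    calc a * N * K = (Fintype.card ι : ℝ) * (a * N) := by rw [hKdef]; ring
      _ ≤ _ := h1
  have hsplit : ∑ h ∈ Finset.range N, (c h : ℝ)
      ≤ ∑ h ∈ Finset.range N, ((if h ∈ G then K else 0) + a / 2 * K) := by
    refine Finset.sum_le_sum fun x hx => ?_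
    have haK : 0 ≤ a / 2 * K := by positivity
    by_cases hxG : x ∈ G
    · rw [if_pos hxG]
      have : (c x : ℝ) ≤ K := by
        have : c x ≤ Fintype.card ι := Finset.card_le_univ _
        rw [hKdef]
        exact_mod_cast this
      linarith
    · rw [if_neg hxG]
      have h3 : ¬ ⌈a / 2 * K⌉₊ ≤ c x := by
        intro hcon
        exact hxG (Finset.mem_filter.mpr ⟨hx, hcon⟩)
      have h4 : (c x : ℝ) < a / 2 * K := Nat.lt_ceil.mp (not_le.mp h3)
      linarith
  have hsum : ∑ h ∈ Finset.range N, ((if h ∈ G then K else 0) + a / 2 * K)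
      = (#G : ℝ) * K + N * (a / 2 * K) := by
    rw [Finset.sum_add_distrib, Finset.sum_const, Finset.card_range, nsmul_eq_mul,
      ← Finset.sum_filter, Finset.sum_const, nsmul_eq_mul]
    have : (Finset.range N).filter (fun x => x ∈ G) = G := by
      ext x
      simp only [Finset.mem_filter, hG]
      tauto
    rw [this]
  have hfin : a * N * K ≤ (#G : ℝ) * K + N * (a / 2 * K) := by
    rw [← hsum]
    exact hlow.trans hsplit
  have : a / 2 * N * K ≤ (#G : ℝ) * K := by linarith
  exact le_of_mul_le_mul_right this hK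

end Pool.Agent.Lib.H79KC
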