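import Pool.Agent.Lib.H79KC.Trees

/-! # F3 -/

namespace Pool.Agent.Lib.H79KC

open Finset

/-- The heights at which a regular tree is not thin on the `w` next heights are few.

Proof. A height `h < N` which is not in the filter has `h + w > N` (at most `w` such heights:
`h ∈ (N - w, N)`) or there is `j ∈ [h, h + w)` with `T < R j`, `j < N`: at most `w` heights `h` for
each such `j`.  So at most `w s + w` heights are missing. -/
theorem thin_heights {R : ℕ → ℕ} {N w : ℕ} {T s : ℝ}
    (hs : (#((Finset.range N).filter fun h => T < R h) : ℝ) ≤ s) :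
    (N : ℝ) - w * s - w ≤ #((Finset.range N).filter fun h =>
      h + w ≤ N ∧ ∀ j ∈ Finset.Ico h (h + w), (R j : ℝ) ≤ T) := by
  classical
  set bad := (Finset.range N).filter fun h => T < R h with hbad
  set G := (Finset.range N).filter fun h =>
      h + w ≤ N ∧ ∀ j ∈ Finset.Ico h (h + w), (R j : ℝ) ≤ T with hG
  have hcov : Finset.range N ⊆ (G ∪ Finset.Ico (N - w) N) ∪
      bad.biUnion (fun j => Finset.Ico (j + 1 - w) (j + 1)) := by
    intro h hh
    rw [Finset.mem_range] at hh
    by_cases h1 : h + w ≤ N
    · by_cases h2 : ∀ j ∈ Finset.Ico h (h + w), (R j : ℝ) ≤ T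
      · refine Finset.mem_union_left _ (Finset.mem_union_left _ ?_)
        rw [hG, Finset.mem_filter, Finset.mem_range]
        exact ⟨hh, h1, h2⟩
      · push Not at h2
        obtain ⟨j, hj, hjT⟩ := h2
        rw [Finset.mem_Ico] at hj
        refine Finset.mem_union_right _ (Finset.mem_biUnion.2 ⟨j, ?_, ?_⟩)
        · rw [hbad, Finset.mem_filter, Finset.mem_range]
          exact ⟨by omega, hjT⟩
        · rw [Finset.mem_Ico]
          omega
    · refine Finset.mem_union_left _ (Finset.mem_union_right _ ?_)
      rw [Finset.mem_Ico]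
      omega
  have hcard : N ≤ (#G + w) + bad.card * w := by
    calc N = #(Finset.range N) := (Finset.card_range N).symm
      _ ≤ #((G ∪ Finset.Ico (N - w) N) ∪
          bad.biUnion (fun j => Finset.Ico (j + 1 - w) (j + 1))) := Finset.card_le_card hcov
      _ ≤ #(G ∪ Finset.Ico (N - w) N) +
          #(bad.biUnion (fun j => Finset.Ico (j + 1 - w) (j + 1))) := Finset.card_union_le _ _
      _ ≤ (#G + #(Finset.Ico (N - w) N)) + bad.card * w := by
          refine Nat.add_le_add (Finset.card_union_le _ _) ?_
          refine Finset.card_biUnion_le_card_mul _ _ _ fun j _ => ?_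
          rw [Nat.card_Ico]
          omega
      _ ≤ (#G + w) + bad.card * w := by
          have : #(Finset.Ico (N - w) N) ≤ w := by
            rw [Nat.card_Ico]
            omega
          omega
  have h3 : (N : ℝ) ≤ (#G + w) + bad.card * w := by exact_mod_cast hcard
  have h4 : (bad.card : ℝ) * w ≤ s * w := mul_le_mul_of_nonneg_right hs (Nat.cast_nonneg w)
  nlinarith [h3, h4]

end Pool.Agent.Lib.H79KC
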