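import Pool.Agent.Lib.H79KC.C5
import Pool.Agent.Lib.H79KC.F1
import Pool.Agent.Lib.H79KC.F2
import Pool.Agent.Lib.H79KC.F3
import Pool.Agent.Lib.H79KC.B2

/-! # F4 -/

namespace Pool.Agent.Lib.H79KC

open Finset

/-- **One pair (product of large trees, large thin tree).**  With `T = b^(1-κ)`, `w = L + 3`,
`M = ⌈(a/2) K⌉`, `S = 2 T^w`: the probability that `v + Σ u ∈ A'` is at most
`b β^(g)` for every real `g ≤ a N / 2 - w s - w` (real power).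

Proof. `walk` for the set `A'` with `G` = the heights `h < N` which are in both filters of
`many_good` and `thin_heights`; `#G ≥ a N / 2 + (N - w s - w) - N` (inclusion–exclusion in
`range N`), so `β^(#G) ≤ β^g` as `0 < β ≤ 1` (`β^H = 1/b ≤ 1`).  The sparseness at `h ∈ G`:
`Tree.cells_window` gives `≤ 2 ∏_{j} R j ≤ 2 T^w = S`. -/
theorem pair_bound {ι : Type} [Fintype ι] [DecidableEq ι] [Nonempty ι] {b L N : ℕ} (hb : 4 ≤ b)
    (hK : Fintype.card ι ≤ b ^ (2 * L + 1)) {R : ι → ℕ → ℕ} {V : ι → Finset ℤ}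
    (hV : ∀ i, Tree b True (R i) N (V i)) (hR : ∀ i, ∀ h < N, R i h ≤ b) {a : ℝ} (ha : 0 < a)
    (hVa : ∀ i, (b : ℝ) ^ (a * N) ≤ #(V i)) {T : ℝ} (hT : 0 ≤ T)
    (hθ : ((Fintype.card ι : ℝ) / (b : ℝ) ^ (2 * L + 2) +
      2 * (2 * T ^ (L + 3)) / √(⌈a / 2 * Fintype.card ι⌉₊ : ℕ)) ≤ 1 / b) {β : ℝ} (hβ : 0 < β)
    (hβH : β ^ (2 * L + 2) = 1 / b) {sep : Prop} {R' : ℕ → ℕ} {A' : Finset ℤ}
    (hA' : Tree b sep R' N A') {s : ℝ}
    (hs : (#((Finset.range N).filter fun h => T < R' h) : ℝ) ≤ s) {g : ℝ}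
    (hg : g ≤ a * N / 2 - (L + 3) * s - (L + 3)) (v : ℤ) :
    (cnt V v A' : ℝ) ≤ b * β ^ g * ∏ i, (#(V i) : ℝ) := by
  have hb1 : 1 < b := by omega
  have hb0 : 0 < b := by omega
  have hcard : (0 : ℝ) < (Fintype.card ι : ℝ) := by exact_mod_cast Fintype.card_pos
  have hM : 0 < ⌈a / 2 * (Fintype.card ι : ℝ)⌉₊ := Nat.ceil_pos.2 (by positivity)
  have hS : (0 : ℝ) ≤ 2 * T ^ (L + 3) := by positivity
  set G1 := (Finset.range N).filter fun h =>
      ⌈a / 2 * (Fintype.card ι : ℝ)⌉₊ ≤ #((univ : Finset ι).filter fun i => 2 ≤ R i h) with hG1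
  obtain ⟨G2, hG2, h2⟩ : ∃ G2 : Finset ℕ, (∀ h ∈ G2, h < N ∧ h + (L + 3) ≤ N ∧
      ∀ j ∈ Finset.Ico h (h + (L + 3)), (R' j : ℝ) ≤ T) ∧
      (N : ℝ) - ((L + 3 : ℕ) : ℝ) * s - ((L + 3 : ℕ) : ℝ) ≤ #G2 := by
    refine ⟨_, fun h hh => ?_, thin_heights (w := L + 3) hs⟩
    obtain ⟨k1, k2, k3⟩ := Finset.mem_filter.1 hh
    exact ⟨Finset.mem_range.1 k1, k2, k3⟩
  have h1 : a / 2 * N ≤ #G1 :=
    many_good ha.le fun i => (hV i).many_branchings hb1 (hR i) (hVa i)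
  have hunion : #(G1 ∪ G2) ≤ N := by
    calc #(G1 ∪ G2) ≤ #(Finset.range N) :=
          Finset.card_le_card (Finset.union_subset (Finset.filter_subset _ _)
            fun h hh => Finset.mem_range.2 (hG2 h hh).1)
      _ = N := Finset.card_range N
  have hsum : #(G1 ∪ G2) + #(G1 ∩ G2) = #G1 + #G2 := Finset.card_union_add_card_inter G1 G2
  have hGcard : g ≤ (#(G1 ∩ G2) : ℝ) := by
    have e1 : (#(G1 ∪ G2) : ℝ) + #(G1 ∩ G2) = #G1 + #G2 := by exact_mod_cast hsum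
    have e2 : (#(G1 ∪ G2) : ℝ) ≤ N := by exact_mod_cast hunion
    push_cast at h2
    linarith
  have hG : ∀ h ∈ G1 ∩ G2, ⌈a / 2 * (Fintype.card ι : ℝ)⌉₊ ≤
        #((univ : Finset ι).filter fun i => 2 ≤ R i h) ∧
      ∀ q0 : ℤ, (#((cells b h A').filter
        fun q => q0 ≤ q ∧ q < q0 + (b : ℤ) ^ (L + 3)) : ℝ) ≤ 2 * T ^ (L + 3) := by
    intro h hh
    obtain ⟨hh1, hh2⟩ := Finset.mem_inter.1 hh
    obtain ⟨-, hm⟩ := Finset.mem_filter.1 hh1
    obtain ⟨-, hw, hthin⟩ := hG2 h hh2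
    refine ⟨hm, fun q0 => ?_⟩
    have h3 := Tree.cells_window hb0 hA' hw q0
    calc (#((cells b h A').filter
        fun q => q0 ≤ q ∧ q < q0 + (b : ℤ) ^ (L + 3)) : ℝ)
        ≤ ((2 * ∏ j ∈ Finset.Ico h (h + (L + 3)), R' j : ℕ) : ℝ) := by exact_mod_cast h3
      _ = 2 * ∏ j ∈ Finset.Ico h (h + (L + 3)), (R' j : ℝ) := by push_cast; ring
      _ ≤ 2 * ∏ _j ∈ Finset.Ico h (h + (L + 3)), T := by
          refine mul_le_mul_of_nonneg_left ?_ (by norm_num)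
          exact Finset.prod_le_prod (fun j _ => Nat.cast_nonneg _) fun j hj => hthin j hj
      _ = 2 * T ^ (L + 3) := by
          rw [Finset.prod_const, Nat.card_Ico, Nat.add_sub_cancel_left]
  have hwalk := walk hb hK hM hS hθ hβ hβH (G1 ∩ G2) hG N V hV v
  have hfil : (G1 ∩ G2).filter (· < N) = G1 ∩ G2 := by
    refine Finset.filter_true_of_mem fun h hh => ?_
    exact Finset.mem_range.1 (Finset.mem_filter.1 (Finset.mem_inter.1 hh).1).1
  rw [hfil] at hwalk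
  have hbR : (1 : ℝ) ≤ b := by exact_mod_cast hb1.le
  have hβ1 : β ≤ 1 := by
    have h4 : β ^ (2 * L + 2) ≤ 1 := by
      rw [hβH, div_le_one (by linarith)]
      exact hbR
    exact (pow_le_one_iff_of_nonneg hβ.le (by omega)).1 h4
  have hpow : β ^ #(G1 ∩ G2) ≤ β ^ g := by
    rw [← Real.rpow_natCast]
    exact Real.rpow_le_rpow_of_exponent_ge hβ hβ1 hGcard
  refine hwalk.trans ?_
  refine mul_le_mul_of_nonneg_right ?_ (Finset.prod_nonneg fun i _ => Nat.cast_nonneg _)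
  exact mul_le_mul_of_nonneg_left hpow (by linarith)

end Pool.Agent.Lib.H79KC
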