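import Pool.Agent.Lib.H79KC.Trees

/-! # F5 -/

namespace Pool.Agent.Lib.H79KC

open Finset

private lemma F5_sum_le {I : Type} [Fintype I] [DecidableEq I] {U : Finset ℤ} {F : I → Finset ℤ}
    (hF : ∀ e, F e ⊆ U) (hFU : ∀ x ∈ U, ∃! e, x ∈ F e) : ∑ e, #(F e) ≤ #U := by
  rw [← card_sigma]
  refine card_le_card_of_injOn (fun p => p.2) ?_ ?_
  · rintro ⟨e, x⟩ hp
    exact hF e (mem_sigma.mp hp).2
  · rintro ⟨e, x⟩ hp ⟨e', x'⟩ hp' h
    simp only at h
    subst h
    have h1 := (mem_sigma.mp hp).2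
    have h2 := (mem_sigma.mp hp').2
    have := (hFU x (hF e h1)).unique h1 h2
    subst this
    rfl

private lemma F5_one {K : ℕ} {U S : Finset ℤ} (hS : S ⊆ U) :
    #((Fintype.piFinset (fun _ : Fin K => U)).filter fun u => ∃ i, u i ∈ S) ≤
      K * (#S * #U ^ (K - 1)) := by
  have h1 : ((Fintype.piFinset (fun _ : Fin K => U)).filter fun u => ∃ i, u i ∈ S) ⊆
      (univ : Finset (Fin K)).biUnion fun i =>
        Fintype.piFinset (Function.update (fun _ : Fin K => U) i S) := by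
    intro u hu
    obtain ⟨hu, i, hi⟩ := mem_filter.mp hu
    rw [mem_biUnion]
    refine ⟨i, mem_univ _, ?_⟩
    rw [Fintype.mem_piFinset] at hu ⊢
    intro j
    by_cases hj : j = i
    · subst hj; simpa using hi
    · rw [Function.update_of_ne hj]; exact hu j
  refine (card_le_card h1).trans (card_biUnion_le.trans ?_)
  have h2 : ∀ i : Fin K, #(Fintype.piFinset (Function.update (fun _ : Fin K => U) i S)) =
      #S * #U ^ (K - 1) := by
    intro i
    rw [Fintype.card_piFinset]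
    have : ∀ j, #(Function.update (fun _ : Fin K => U) i S j) =
        Function.update (fun _ : Fin K => #U) i #S j := by
      intro j
      by_cases hj : j = i
      · subst hj; simp
      · rw [Function.update_of_ne hj, Function.update_of_ne hj]
    rw [prod_congr rfl fun j _ => this j, prod_update_of_mem (mem_univ i), prod_const]
    congr 2
    rw [card_sdiff_of_subset (subset_univ _)]
    simp
  rw [sum_congr rfl fun i _ => h2 i, sum_const]
  simp

private lemma F5_two {N ℓ K : ℕ} {U : Finset ℤ}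
    {F : (Fin N → Fin ℓ × Bool) → Finset ℤ} (hF : ∀ e, F e ⊆ U) (hFU : ∀ x ∈ U, ∃! e, x ∈ F e)
    {p τ : ℝ} (hp0 : 0 ≤ p) (hτ : 0 ≤ τ) {B : Finset ℤ} {v : ℤ}
    (hp : ∀ t : Fin K → (Fin N → Fin ℓ × Bool), (∀ i, τ ≤ #(F (t i))) →
      (cnt (fun i => F (t i)) v B : ℝ) ≤ p * ∏ i, (#(F (t i)) : ℝ)) :
    (#((Fintype.piFinset (fun _ : Fin K => U)).filter fun u => v + ∑ i, u i ∈ B) : ℝ) ≤
      K * ((2 * ℓ : ℝ) ^ N * τ) * #U ^ (K - 1) + p * #U ^ K := by
  classical
  set Lg : Finset (Fin N → Fin ℓ × Bool) := univ.filter fun e => τ ≤ #(F e) with hLg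
  set Sm : Finset ℤ := (univ.filter fun e => ¬ τ ≤ (#(F e) : ℝ)).biUnion F with hSm
  have hSmU : Sm ⊆ U := by
    rw [hSm]; exact biUnion_subset.mpr fun e _ => hF e
  have hcardI : (Fintype.card (Fin N → Fin ℓ × Bool) : ℝ) = (2 * ℓ : ℝ) ^ N := by
    rw [Fintype.card_fun, Fintype.card_prod, Fintype.card_fin, Fintype.card_bool, Fintype.card_fin]
    push_cast; ring
  have hSmc : (#Sm : ℝ) ≤ (2 * ℓ : ℝ) ^ N * τ := by
    have h1 : (#Sm : ℝ) ≤ ∑ e ∈ univ.filter (fun e => ¬ τ ≤ (#(F e) : ℝ)), (#(F e) : ℝ) := by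
      exact_mod_cast card_biUnion_le
    refine h1.trans ?_
    calc ∑ e ∈ univ.filter (fun e => ¬ τ ≤ (#(F e) : ℝ)), (#(F e) : ℝ)
        ≤ ∑ e ∈ univ.filter (fun e => ¬ τ ≤ (#(F e) : ℝ)), τ :=
          sum_le_sum fun e he => (not_le.mp (mem_filter.mp he).2).le
      _ ≤ ∑ _e : (Fin N → Fin ℓ × Bool), τ :=
          sum_le_sum_of_subset_of_nonneg (filter_subset _ _) fun _ _ _ => hτ
      _ = (2 * ℓ : ℝ) ^ N * τ := by
          rw [sum_const, card_univ, nsmul_eq_mul, hcardI]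
  have hsub : ((Fintype.piFinset (fun _ : Fin K => U)).filter fun u => v + ∑ i, u i ∈ B) ⊆
      ((Fintype.piFinset (fun _ : Fin K => U)).filter fun u => ∃ i, u i ∈ Sm) ∪
      (Fintype.piFinset (fun _ : Fin K => Lg)).biUnion fun t =>
        (Fintype.piFinset fun i => F (t i)).filter fun u => v + ∑ i, u i ∈ B := by
    intro u hu
    obtain ⟨hu, hB⟩ := mem_filter.mp hu
    rw [mem_union]
    by_cases hs : ∃ i, u i ∈ Sm
    · exact Or.inl (mem_filter.mpr ⟨hu, hs⟩)
    · right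
      push Not at hs
      rw [Fintype.mem_piFinset] at hu
      have hex : ∀ i, ∃ e, u i ∈ F e := fun i => (hFU (u i) (hu i)).exists
      choose t ht using hex
      refine mem_biUnion.mpr ⟨t, ?_, mem_filter.mpr ⟨Fintype.mem_piFinset.mpr ht, hB⟩⟩
      rw [Fintype.mem_piFinset]
      intro i
      rw [hLg, mem_filter]
      refine ⟨mem_univ _, ?_⟩
      by_contra hcon
      exact hs i (by rw [hSm]; exact mem_biUnion.mpr ⟨t i, mem_filter.mpr ⟨mem_univ _, hcon⟩, ht i⟩)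
  have hUpow : (0 : ℝ) ≤ (#U : ℝ) ^ (K - 1) := by positivity
  calc (#((Fintype.piFinset (fun _ : Fin K => U)).filter fun u => v + ∑ i, u i ∈ B) : ℝ)
      ≤ (#((Fintype.piFinset (fun _ : Fin K => U)).filter fun u => ∃ i, u i ∈ Sm) : ℝ) +
        ∑ t ∈ Fintype.piFinset (fun _ : Fin K => Lg),
          (#((Fintype.piFinset fun i => F (t i)).filter fun u => v + ∑ i, u i ∈ B) : ℝ) := by
        have := (card_le_card hsub).trans ((card_union_le _ _).trans
          (Nat.add_le_add_left card_biUnion_le _))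
        exact_mod_cast this
    _ ≤ K * ((2 * ℓ : ℝ) ^ N * τ) * #U ^ (K - 1) + p * #U ^ K := by
        refine add_le_add ?_ ?_
        · calc (#((Fintype.piFinset (fun _ : Fin K => U)).filter fun u => ∃ i, u i ∈ Sm) : ℝ)
              ≤ K * (#Sm * #U ^ (K - 1)) := by exact_mod_cast F5_one hSmU
            _ ≤ K * (((2 * ℓ : ℝ) ^ N * τ) * #U ^ (K - 1)) := by
                gcongr
            _ = _ := by ring
        · calc ∑ t ∈ Fintype.piFinset (fun _ : Fin K => Lg),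
                (#((Fintype.piFinset fun i => F (t i)).filter fun u => v + ∑ i, u i ∈ B) : ℝ)
              ≤ ∑ t ∈ Fintype.piFinset (fun _ : Fin K => Lg), p * ∏ i, (#(F (t i)) : ℝ) := by
                refine sum_le_sum fun t ht => ?_
                have ht' := Fintype.mem_piFinset.mp ht
                exact hp t fun i => (mem_filter.mp (ht' i)).2
            _ = p * ∏ _i : Fin K, ∑ e ∈ Lg, (#(F e) : ℝ) := by
                rw [← mul_sum, prod_univ_sum]
            _ ≤ p * #U ^ K := by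
                refine mul_le_mul_of_nonneg_left ?_ hp0
                rw [prod_const, card_univ, Fintype.card_fin]
                refine pow_le_pow_left₀ (sum_nonneg fun _ _ => by positivity) ?_ K
                have h1 : (∑ e ∈ Lg, #(F e)) ≤ #U :=
                  (sum_le_sum_of_subset (filter_subset _ _)).trans (F5_sum_le hF hFU)
                exact_mod_cast h1

/-- **The upper bound for `NK`.**  `F`, `F'` = decompositions of `U` and `A` (from
`decomposition`); `p` bounds the probability for large trees; `τ`, `τ'` are the thresholds.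

Proof. Write `n = (2ℓ)^N`, the number of indices `e` (`Fintype.card_fun` etc.).  For every
`(a, u')` put `v = a - Σ u'`; then `NK = Σ_{a, u'} Σ_e #{u ∈ U^K : v + Σ u ∈ F' e}`.
(1) `e` with `#(F' e) < τ'`: sum over `a ∈ A` first: for fixed `u, u'` the number of `a` with
`a + Σ u - Σ u' ∈ F' e` is `≤ #(F' e) < τ'`; total `≤ n τ' #U^(2K)`.
(2) `e` with `#(F' e) ≥ τ'`: `U^K` is the disjoint union of the products `∏ F (t i)`,
`t : Fin K → index`.  The `t` with some `#(F (t i)) < τ`: the number of `u ∈ U^K` such that some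
`u i` is in a piece with `< τ` elements is `≤ K (n τ) #U^(K-1)`.  For the other `t` the count
is `≤ p ∏ #(F (t i))` (`hp`), with sum over `t` `≤ p #U^K`.  Total of (2):
`≤ n (K n τ #U^(K-1) + p #U^K) · #A #U^K`. -/
theorem NK_le {N ℓ K : ℕ} (hK : 0 < K) {U A : Finset ℤ} {F F' : (Fin N → Fin ℓ × Bool) → Finset ℤ}
    (hF : ∀ e, F e ⊆ U) (hFU : ∀ x ∈ U, ∃! e, x ∈ F e) (hF' : ∀ e, F' e ⊆ A)
    (hFA : ∀ x ∈ A, ∃! e, x ∈ F' e) {p τ τ' : ℝ} (hp0 : 0 ≤ p) (hτ : 0 ≤ τ) (hτ' : 0 ≤ τ')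
    (hp : ∀ t : Fin K → (Fin N → Fin ℓ × Bool), (∀ i, τ ≤ #(F (t i))) → ∀ e, τ' ≤ #(F' e) →
      ∀ v : ℤ, (cnt (fun i => F (t i)) v (F' e) : ℝ) ≤ p * ∏ i, (#(F (t i)) : ℝ)) :
    (NK U A K : ℝ) ≤ (2 * ℓ : ℝ) ^ N * τ' * #U ^ (2 * K) +
      (2 * ℓ : ℝ) ^ N * (K * ((2 * ℓ : ℝ) ^ N * τ) * #U ^ (2 * K - 1) + p * #U ^ (2 * K)) * #A := by
  classical
  set P := Fintype.piFinset (fun _ : Fin K => U) with hP
  have hPc : #P = #U ^ K := by
    rw [hP, Fintype.card_piFinset, prod_const, card_univ, Fintype.card_fin]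
  have hcardI : (Fintype.card (Fin N → Fin ℓ × Bool) : ℝ) = (2 * ℓ : ℝ) ^ N := by
    rw [Fintype.card_fun, Fintype.card_prod, Fintype.card_fin, Fintype.card_bool, Fintype.card_fin]
    push_cast; ring
  set X : (Fin N → Fin ℓ × Bool) → Finset (ℤ × (Fin K → ℤ) × (Fin K → ℤ)) := fun e =>
    (A ×ˢ P ×ˢ P).filter fun t => t.1 + ∑ i, t.2.1 i - ∑ i, t.2.2 i ∈ F' e with hX
  have hNK : (NK U A K : ℝ) ≤ ∑ e, (#(X e) : ℝ) := by
    have h1 : NK U A K ≤ ∑ e, #(X e) := by
      refine le_trans (card_le_card (t := (univ : Finset (Fin N → Fin ℓ × Bool)).biUnion X) ?_)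
        card_biUnion_le
      intro t ht
      obtain ⟨ht, hA⟩ := mem_filter.mp ht
      obtain ⟨e, he⟩ := (hFA _ hA).exists
      exact mem_biUnion.mpr ⟨e, mem_univ _, mem_filter.mpr ⟨ht, he⟩⟩
    exact_mod_cast h1
  -- small pieces of `A`
  have hsmall : ∀ e, (#(X e) : ℝ) ≤ #(F' e) * #U ^ (2 * K) := by
    intro e
    have h1 : #(X e) ≤ #(F' e ×ˢ P ×ˢ P) := by
      refine card_le_card_of_injOn
        (fun t => (t.1 + ∑ i, t.2.1 i - ∑ i, t.2.2 i, t.2.1, t.2.2)) ?_ ?_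
      · intro t ht
        obtain ⟨ht, he⟩ := mem_filter.mp ht
        obtain ⟨-, h2⟩ := mem_product.mp ht
        exact mem_product.mpr ⟨he, h2⟩
      · rintro ⟨a, u, u'⟩ - ⟨a', w, w'⟩ - h
        simp only [Prod.mk.injEq] at h
        obtain ⟨h1, rfl, rfl⟩ := h
        simp only [Prod.mk.injEq, and_true]
        linarith
    rw [card_product, card_product, hPc] at h1
    have h2 : #U ^ K * #U ^ K = #U ^ (2 * K) := by rw [← pow_add]; ring_nf
    rw [h2] at h1
    exact_mod_cast h1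
  -- large pieces of `A`
  have hlarge : ∀ e, τ' ≤ #(F' e) → (#(X e) : ℝ) ≤
      (K * ((2 * ℓ : ℝ) ^ N * τ) * #U ^ (2 * K - 1) + p * #U ^ (2 * K)) * #A := by
    intro e he
    have h1 : #(X e) ≤ ∑ q ∈ A ×ˢ P, #(P.filter fun u => (q.1 - ∑ i, q.2 i) + ∑ i, u i ∈ F' e) := by
      rw [← card_sigma]
      refine card_le_card_of_injOn (fun t => ⟨(t.1, t.2.2), t.2.1⟩) ?_ ?_
      · rintro ⟨a, u, u'⟩ ht
        obtain ⟨ht, he⟩ := mem_filter.mp ht
        obtain ⟨ha, h2⟩ := mem_product.mp ht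
        obtain ⟨hu, hu'⟩ := mem_product.mp h2
        refine mem_sigma.mpr ⟨mem_product.mpr ⟨ha, hu'⟩, mem_filter.mpr ⟨hu, ?_⟩⟩
        have e1 : a - ∑ i, u' i + ∑ i, u i = a + ∑ i, u i - ∑ i, u' i := by ring
        simp only at he ⊢
        rw [e1]; exact he
      · rintro ⟨a, u, u'⟩ - ⟨a', w, w'⟩ - h
        simp only [Sigma.mk.injEq, Prod.mk.injEq, heq_eq_eq] at h
        obtain ⟨⟨rfl, rfl⟩, rfl⟩ := h
        rfl
    have h2 : ∀ q ∈ A ×ˢ P,
        (#(P.filter fun u => (q.1 - ∑ i, q.2 i) + ∑ i, u i ∈ F' e) : ℝ) ≤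
          K * ((2 * ℓ : ℝ) ^ N * τ) * #U ^ (K - 1) + p * #U ^ K := by
      intro q _
      exact F5_two hF hFU hp0 hτ (fun t ht => hp t ht e he _)
    calc (#(X e) : ℝ) ≤ ∑ q ∈ A ×ˢ P,
          (#(P.filter fun u => (q.1 - ∑ i, q.2 i) + ∑ i, u i ∈ F' e) : ℝ) := by exact_mod_cast h1
      _ ≤ ∑ _q ∈ A ×ˢ P, (K * ((2 * ℓ : ℝ) ^ N * τ) * #U ^ (K - 1) + p * (#U : ℝ) ^ K) :=
          sum_le_sum h2
      _ = (K * ((2 * ℓ : ℝ) ^ N * τ) * #U ^ (2 * K - 1) + p * #U ^ (2 * K)) * #A := by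
          rw [sum_const, card_product, hPc, nsmul_eq_mul]
          push_cast
          have e1 : (#U : ℝ) ^ (2 * K - 1) = #U ^ K * #U ^ (K - 1) := by
            rw [← pow_add]; congr 1; omega
          have e2 : (#U : ℝ) ^ (2 * K) = #U ^ K * #U ^ K := by
            rw [← pow_add]; congr 1; omega
          rw [e1, e2]; ring
  -- together
  have hU0 : (0 : ℝ) ≤ #U ^ (2 * K) := by positivity
  have hall : ∀ e, (#(X e) : ℝ) ≤ τ' * #U ^ (2 * K) +
      (K * ((2 * ℓ : ℝ) ^ N * τ) * #U ^ (2 * K - 1) + p * #U ^ (2 * K)) * #A := by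
    intro e
    have hnn : 0 ≤ (K * ((2 * ℓ : ℝ) ^ N * τ) * #U ^ (2 * K - 1) + p * #U ^ (2 * K)) * (#A : ℝ) := by
      positivity
    have hnn' : 0 ≤ τ' * (#U : ℝ) ^ (2 * K) := by positivity
    by_cases he : τ' ≤ #(F' e)
    · linarith [hlarge e he]
    · have h1 := mul_le_mul_of_nonneg_right (not_le.mp he).le hU0
      linarith [hsmall e]
  refine hNK.trans ((sum_le_sum fun e _ => hall e).trans_eq ?_)
  rw [sum_const, card_univ, nsmul_eq_mul, hcardI]
  ring

end Pool.Agent.Lib.H79KC
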