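import Pool.Agent.Lib.H79KC.Defs

/-! # G2 -/

namespace Pool.Agent.Lib.H79KC

open Finset

/-- The value of `θ`: for `L ≥ 5/κ`, `b ≥ 2 + 8/√c`, `b^(2L) ≤ K ≤ 2 b^(2L)`.

Proof. `K/b^(2L+2) ≤ 2/b²`.  `T^(L+3) = b^((1-κ)(L+3)) ≤ b^(L-2)` because `κ (L+3) ≥ 5`;
`⌈(c/4) K⌉ ≥ (c/4) b^(2L)`, so its square root is `≥ √c b^L / 2`, and the second term is at most
`4 b^(L-2) · 2 / (√c b^L) = 8/(√c b²)`.  The sum is `≤ (2 + 8/√c)/b² ≤ 1/b`. -/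
theorem theta_le {κ c : ℝ} (hκ : 0 < κ) (hκ1 : κ ≤ 1) (hc : 0 < c) (hc1 : c ≤ 1) {L : ℕ}
    (hL : 5 / κ ≤ L) {b K : ℕ} (hb : 2 + 8 / √c ≤ b) (hK1 : b ^ (2 * L) ≤ K)
    (hK2 : K ≤ 2 * b ^ (2 * L)) :
    ((K : ℝ) / (b : ℝ) ^ (2 * L + 2) +
      2 * (2 * ((b : ℝ) ^ (1 - κ)) ^ (L + 3)) / √(⌈c / 2 / 2 * (K : ℝ)⌉₊ : ℕ)) ≤ 1 / b := by
  have hsc : 0 < √c := Real.sqrt_pos.mpr hc
  have hb2 : (2 : ℝ) ≤ b := by
    have : 0 < 8 / √c := by positivity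
    linarith
  have hb0 : (0 : ℝ) < b := by linarith
  have hb1 : (1 : ℝ) ≤ b := by linarith
  have hK1' : (b : ℝ) ^ (2 * L) ≤ K := by exact_mod_cast hK1
  have hK2' : (K : ℝ) ≤ 2 * (b : ℝ) ^ (2 * L) := by exact_mod_cast hK2
  have hP : (0 : ℝ) < (b : ℝ) ^ L := by positivity
  -- first term
  have h1 : (K : ℝ) / (b : ℝ) ^ (2 * L + 2) ≤ 2 / (b : ℝ) ^ 2 := by
    rw [div_le_div_iff₀ (by positivity) (by positivity)]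
    calc (K : ℝ) * (b : ℝ) ^ 2 ≤ 2 * (b : ℝ) ^ (2 * L) * (b : ℝ) ^ 2 := by
          apply mul_le_mul_of_nonneg_right hK2' (by positivity)
      _ = 2 * (b : ℝ) ^ (2 * L + 2) := by rw [pow_add]; ring
  -- the power
  have hT : ((b : ℝ) ^ (1 - κ)) ^ (L + 3) * (b : ℝ) ^ 2 ≤ (b : ℝ) ^ L := by
    have hkL : 5 ≤ κ * L := by
      rw [div_le_iff₀ hκ] at hL
      linarith
    have e1 : ((b : ℝ) ^ (1 - κ)) ^ (L + 3) = (b : ℝ) ^ ((1 - κ) * ((L : ℝ) + 3)) := by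
      rw [← Real.rpow_natCast, ← Real.rpow_mul hb0.le]
      push_cast
      rfl
    have e2 : (b : ℝ) ^ 2 = (b : ℝ) ^ (2 : ℝ) := by
      rw [← Real.rpow_natCast]; norm_num
    have e3 : (b : ℝ) ^ L = (b : ℝ) ^ (L : ℝ) := by
      rw [← Real.rpow_natCast]
    rw [e1, e2, e3, ← Real.rpow_add hb0]
    apply Real.rpow_le_rpow_of_exponent_le hb1
    nlinarith
  have hS : √c * (b : ℝ) ^ L / 2 ≤ √(⌈c / 2 / 2 * (K : ℝ)⌉₊ : ℕ) := by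
    apply Real.le_sqrt_of_sq_le
    have h3 : c / 2 / 2 * (K : ℝ) ≤ (⌈c / 2 / 2 * (K : ℝ)⌉₊ : ℝ) := Nat.le_ceil _
    have h4 : (√c * (b : ℝ) ^ L / 2) ^ 2 = c / 2 / 2 * (b : ℝ) ^ (2 * L) := by
      have : √c ^ 2 = c := Real.sq_sqrt hc.le
      rw [div_pow, mul_pow, this, ← pow_mul, mul_comm L 2]
      ring
    rw [h4]
    refine le_trans ?_ h3
    apply mul_le_mul_of_nonneg_left hK1' (by positivity)
  have h2 : 2 * (2 * ((b : ℝ) ^ (1 - κ)) ^ (L + 3)) / √(⌈c / 2 / 2 * (K : ℝ)⌉₊ : ℕ) ≤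
      8 / √c / (b : ℝ) ^ 2 := by
    have hpos : 0 < √c * (b : ℝ) ^ L / 2 := by positivity
    calc 2 * (2 * ((b : ℝ) ^ (1 - κ)) ^ (L + 3)) / √(⌈c / 2 / 2 * (K : ℝ)⌉₊ : ℕ)
        ≤ 2 * (2 * ((b : ℝ) ^ (1 - κ)) ^ (L + 3)) / (√c * (b : ℝ) ^ L / 2) := by
          apply div_le_div_of_nonneg_left _ hpos hS
          positivity
      _ ≤ 8 / √c / (b : ℝ) ^ 2 := by
          rw [div_div, div_le_div_iff₀ hpos (by positivity)]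
          have := mul_le_mul_of_nonneg_left hT (show (0 : ℝ) ≤ 4 * √c by positivity)
          nlinarith [this]
  calc (K : ℝ) / (b : ℝ) ^ (2 * L + 2) +
      2 * (2 * ((b : ℝ) ^ (1 - κ)) ^ (L + 3)) / √(⌈c / 2 / 2 * (K : ℝ)⌉₊ : ℕ)
      ≤ 2 / (b : ℝ) ^ 2 + 8 / √c / (b : ℝ) ^ 2 := add_le_add h1 h2
    _ = (2 + 8 / √c) / (b : ℝ) ^ 2 := by ring
    _ ≤ b / (b : ℝ) ^ 2 := by
        apply div_le_div_of_nonneg_right hb (by positivity)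
    _ = 1 / b := by
        field_simp

end Pool.Agent.Lib.H79KC
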