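import Pool.Agent.Lib.H79KC.B3
import Pool.Agent.Lib.H79KC.D2

/-! # G3 -/

namespace Pool.Agent.Lib.H79KC

open Finset

/-- The pieces of `A` and the hypothesis of the theorem.

Proof. `F' e` is not empty (its cardinality is `≥ b^(-γN) #A > 0`), so it is a tree (`hF'`); its
image in `ℕ` is a regular subset of `A` (`Tree.isReg`) with the same number of elements
(`Int.toNat` is injective on nonnegative integers, `Tree.range`). -/
theorem piece_thin {b N ℓ : ℕ} (hb : 0 < b) {κ γ σ : ℝ} {A : Finset ℕ} (hA : A.Nonempty)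
    (hyp : ∀ (R : ℕ → ℕ) (A' : Finset ℕ), A' ⊆ A → A'.Nonempty → IsReg b N R A' →
      (b : ℝ) ^ (-(γ * N)) * #A ≤ #A' →
      (#((Finset.range N).filter fun h => (b : ℝ) ^ (1 - κ) < R h) : ℝ) ≤ σ * N)
    {F' : (Fin N → Fin ℓ × Bool) → Finset ℤ}
    (hF' : ∀ e, F' e = ∅ ∨ Tree b True (br e) N (F' e))
    (hFA : ∀ e, F' e ⊆ A.image (Nat.cast : ℕ → ℤ)) (e : Fin N → Fin ℓ × Bool)
    (he : (b : ℝ) ^ (-(γ * N)) * #A ≤ #(F' e)) :
    Tree b True (br e) N (F' e) ∧
      (#((Finset.range N).filter fun h => (b : ℝ) ^ (1 - κ) < br e h) : ℝ) ≤ σ * N := by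
  have hbR : (0 : ℝ) < b := by exact_mod_cast hb
  have hApos : (0 : ℝ) < #A := by exact_mod_cast hA.card_pos
  have hlow : (0 : ℝ) < (b : ℝ) ^ (-(γ * N)) * #A := mul_pos (Real.rpow_pos_of_pos hbR _) hApos
  have hcard : 0 < #(F' e) := by
    have : (0 : ℝ) < #(F' e) := lt_of_lt_of_le hlow he
    exact_mod_cast this
  have hne : (F' e).Nonempty := Finset.card_pos.1 hcard
  have hT : Tree b True (br e) N (F' e) := by
    rcases hF' e with h | h
    · exact absurd h hne.ne_empty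
    · exact h
  have hcast : ∀ x ∈ F' e, ∃ a ∈ A, x = (a : ℤ) := by
    intro x hx
    obtain ⟨a, ha, hax⟩ := Finset.mem_image.1 (hFA e hx)
    exact ⟨a, ha, hax.symm⟩
  refine ⟨hT, hyp (br e) ((F' e).image Int.toNat) ?_ (hne.image _) (hT.isReg hb hne) ?_⟩
  · intro y hy
    obtain ⟨x, hx, rfl⟩ := Finset.mem_image.1 hy
    obtain ⟨a, ha, rfl⟩ := hcast x hx
    simpa using ha
  · have hinj : Set.InjOn Int.toNat ((F' e : Finset ℤ) : Set ℤ) := by
      intro x hx y hy hxy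
      obtain ⟨a, ha, rfl⟩ := hcast x (Finset.mem_coe.1 hx)
      obtain ⟨c, hc, rfl⟩ := hcast y (Finset.mem_coe.1 hy)
      simp only [Int.toNat_natCast] at hxy
      rw [hxy]
    rw [Finset.card_image_of_injOn hinj]
    exact he

end Pool.Agent.Lib.H79KC
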