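import Pool.Agent.Lib.H79KC.F4
import Pool.Agent.Lib.H79KC.F5
import Pool.Agent.Lib.H79KC.G2
import Pool.Agent.Lib.H79KC.G3
import Mathlib.Data.Nat.Size

/-! # G4 -/

namespace Pool.Agent.Lib.H79KC

open Finset

/-- **The bound for `NK` with all parameters.**

Proof. (`n = (2 ℓ)^N`, `ℓ = Nat.size b`, `Nat.lt_size_self`.)  Decompose `U`, `A` (images in `ℤ`)
by `decomposition`.  In `NK_le` take `τ = b^((c/2) N)`, `τ' = b^(-γN) #A`, `p = b β^g`,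
`β = b^(-1/(2L+2))`, `g = c N / 8`; the hypothesis `hp` is `pair_bound` with `a = c/2`, `T = b^(1-κ)`,
`s = σ N` (`piece_thin`, `theta_le`; `R i h ≤ b` since `F (t i)` is a nonempty tree,
`Tree.le_base'`), and `g ≤ (c/2) N/2 - (L+3) σ N - (L+3)` because `σ = c/(16 (L+3))` and
`16 (L+3) ≤ c N`.  Finally `#U ≥ b^(cN)` gives `b^((c/2)N) #U^(2K-1) ≤ b^(-(c/2)N) #U^(2K)`. -/
theorem NK_bound {κ c γ : ℝ} (hκ : 0 < κ) (hκ1 : κ ≤ 1) (hc : 0 < c) (hc1 : c ≤ 1) (hγ : 0 < γ)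
    {L : ℕ} (hL : 5 / κ ≤ L) {b K N : ℕ} (hb4 : 4 ≤ b) (hb : 2 + 8 / √c ≤ b)
    (hK1 : b ^ (2 * L) ≤ K) (hK2 : K ≤ 2 * b ^ (2 * L)) (hN : 16 * ((L : ℝ) + 3) ≤ c * N)
    {U A : Finset ℕ} (hU : U ⊆ Finset.range (b ^ N)) (hA : A ⊆ Finset.range (b ^ N))
    (hAne : A.Nonempty) (hUc : (b : ℝ) ^ (c * N) ≤ #U)
    (hyp : ∀ (R : ℕ → ℕ) (A' : Finset ℕ), A' ⊆ A → A'.Nonempty → IsReg b N R A' →
      (b : ℝ) ^ (-(γ * N)) * #A ≤ #A' →
      (#((Finset.range N).filter fun h => (b : ℝ) ^ (1 - κ) < R h) : ℝ) ≤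
        c / (16 * ((L : ℝ) + 3)) * N) :
    (NK (U.image (Nat.cast : ℕ → ℤ)) (A.image (Nat.cast : ℕ → ℤ)) K : ℝ) ≤
      ((2 * Nat.size b : ℝ) ^ N * (b : ℝ) ^ (-(γ * N)) +
        (2 * Nat.size b : ℝ) ^ N * (K * (2 * Nat.size b : ℝ) ^ N * (b : ℝ) ^ (-(c / 2 * N)) +
          b * (b : ℝ) ^ (-(c * N / (16 * (L + 1)))))) * #A * #U ^ (2 * K) := by
  have hb1n : 1 ≤ b := by omega
  have hb0n : 0 < b := by omega
  have hb0 : (0 : ℝ) < b := by exact_mod_cast hb0n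
  have hb1 : (1 : ℝ) ≤ b := by exact_mod_cast hb1n
  have hK : 0 < K := lt_of_lt_of_le (by positivity) hK1
  have : Nonempty (Fin K) := ⟨⟨0, hK⟩⟩
  have hcU : #(U.image (Nat.cast : ℕ → ℤ)) = #U := card_image_of_injective _ Nat.cast_injective
  have hcA : #(A.image (Nat.cast : ℕ → ℤ)) = #A := card_image_of_injective _ Nat.cast_injective
  have hr : ∀ B : Finset ℕ, B ⊆ Finset.range (b ^ N) →
      ∀ x ∈ B.image (Nat.cast : ℕ → ℤ), 0 ≤ x ∧ x < (b : ℤ) ^ N := by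
    intro B hB x hx
    obtain ⟨y, hy, rfl⟩ := mem_image.mp hx
    have h1 : y < b ^ N := mem_range.mp (hB hy)
    exact ⟨Int.natCast_nonneg y, by exact_mod_cast h1⟩
  obtain ⟨F, hF1, hF2, hF3⟩ := decomposition (Nat.lt_size_self b) N _ (hr U hU)
  obtain ⟨F', hF1', hF2', hF3'⟩ := decomposition (Nat.lt_size_self b) N _ (hr A hA)
  have hL0 : (0 : ℝ) ≤ L := Nat.cast_nonneg L
  have hτ : (0 : ℝ) < (b : ℝ) ^ (c / 2 * N) := Real.rpow_pos_of_pos hb0 _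
  have hAc : (0 : ℝ) < #A := by exact_mod_cast hAne.card_pos
  have hτ' : (0 : ℝ) < (b : ℝ) ^ (-(γ * N)) * #A := mul_pos (Real.rpow_pos_of_pos hb0 _) hAc
  set β : ℝ := (b : ℝ) ^ (-(1 / (2 * (L : ℝ) + 2))) with hβdef
  have hβ : 0 < β := Real.rpow_pos_of_pos hb0 _
  have hβH : β ^ (2 * L + 2) = 1 / b := by
    rw [hβdef, ← Real.rpow_natCast, ← Real.rpow_mul hb0.le]
    have e : -(1 / (2 * (L : ℝ) + 2)) * ((2 * L + 2 : ℕ) : ℝ) = -1 := by
      push_cast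
      field_simp
    rw [e, Real.rpow_neg_one, one_div]
  have hβg : β ^ (c * N / 8) = (b : ℝ) ^ (-(c * N / (16 * (L + 1)))) := by
    rw [hβdef, ← Real.rpow_mul hb0.le]
    congr 1
    field_simp
    ring
  have key := NK_le (N := N) (ℓ := Nat.size b) hK hF2 hF3 hF2' hF3'
    (p := b * β ^ (c * N / 8)) (τ := (b : ℝ) ^ (c / 2 * N)) (τ' := (b : ℝ) ^ (-(γ * N)) * #A)
    (by positivity) hτ.le hτ'.le (by
      intro t ht e he v
      have hne : ∀ i, (F (t i)).Nonempty := by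
        intro i
        rw [← card_pos]
        have := lt_of_lt_of_le hτ (ht i)
        exact_mod_cast this
      have hV : ∀ i, Tree b True (br (t i)) N (F (t i)) := by
        intro i
        rcases hF1 (t i) with h | h
        · exact absurd h (hne i).ne_empty
        · exact h
      obtain ⟨hA', hs⟩ := piece_thin hb0n (σ := c / (16 * ((L : ℝ) + 3))) hAne hyp hF1' hF2' e he
      refine pair_bound (L := L) hb4 ?_ hV (fun i => (hV i).le_base' (hne i))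
        (a := c / 2) (by positivity) ht (T := (b : ℝ) ^ (1 - κ)) (by positivity) ?_ hβ hβH hA' hs
        ?_ v
      · rw [Fintype.card_fin]
        calc K ≤ 2 * b ^ (2 * L) := hK2
          _ ≤ b * b ^ (2 * L) := Nat.mul_le_mul_right _ (by omega)
          _ = b ^ (2 * L + 1) := by rw [pow_succ]; ring
      · rw [Fintype.card_fin]
        exact theta_le hκ hκ1 hc hc1 hL hb hK1 hK2
      · have e1 : ((L : ℝ) + 3) * (c / (16 * ((L : ℝ) + 3)) * N) = c * N / 16 := by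
          field_simp
        rw [e1]
        linarith)
  rw [hcU, hcA] at key
  refine key.trans ?_
  rw [hβg]
  have hUpos : (0 : ℝ) < #U := lt_of_lt_of_le (Real.rpow_pos_of_pos hb0 _) hUc
  have h2 : (b : ℝ) ^ (c / 2 * N) * (#U : ℝ) ^ (2 * K - 1) ≤
      (b : ℝ) ^ (-(c / 2 * N)) * (#U : ℝ) ^ (2 * K) := by
    have e2 : (#U : ℝ) ^ (2 * K) = #U * (#U : ℝ) ^ (2 * K - 1) := by
      rw [← pow_succ']
      congr 1
      omega
    rw [e2, ← mul_assoc]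
    apply mul_le_mul_of_nonneg_right _ (by positivity)
    calc (b : ℝ) ^ (c / 2 * N) = (b : ℝ) ^ (-(c / 2 * N)) * (b : ℝ) ^ (c * N) := by
          rw [← Real.rpow_add hb0]
          congr 1
          ring
      _ ≤ (b : ℝ) ^ (-(c / 2 * N)) * #U :=
          mul_le_mul_of_nonneg_left hUc (Real.rpow_pos_of_pos hb0 _).le
  have hℓ : (0 : ℝ) ≤ (2 * Nat.size b : ℝ) ^ N := by positivity
  have h3 : (2 * Nat.size b : ℝ) ^ N * (K * ((2 * Nat.size b : ℝ) ^ N * (b : ℝ) ^ (c / 2 * N)) *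
      (#U : ℝ) ^ (2 * K - 1)) * #A ≤
      (2 * Nat.size b : ℝ) ^ N * (K * (2 * Nat.size b : ℝ) ^ N * (b : ℝ) ^ (-(c / 2 * N)) *
      (#U : ℝ) ^ (2 * K)) * #A := by
    have h4 := mul_le_mul_of_nonneg_left h2
      (show (0 : ℝ) ≤ (2 * Nat.size b : ℝ) ^ N * (K * (2 * Nat.size b : ℝ) ^ N) * #A by positivity)
    calc _ = (2 * Nat.size b : ℝ) ^ N * (K * (2 * Nat.size b : ℝ) ^ N) * #A *
          ((b : ℝ) ^ (c / 2 * N) * (#U : ℝ) ^ (2 * K - 1)) := by ring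
      _ ≤ _ := h4
      _ = _ := by ring
  calc _ = (2 * Nat.size b : ℝ) ^ N * ((b : ℝ) ^ (-(γ * N)) * #A) * (#U : ℝ) ^ (2 * K) +
        (2 * Nat.size b : ℝ) ^ N * (K * ((2 * Nat.size b : ℝ) ^ N * (b : ℝ) ^ (c / 2 * N)) *
          (#U : ℝ) ^ (2 * K - 1)) * #A +
        (2 * Nat.size b : ℝ) ^ N * (b * (b : ℝ) ^ (-(c * N / (16 * (L + 1)))) *
          (#U : ℝ) ^ (2 * K)) * #A := by ring
    _ ≤ (2 * Nat.size b : ℝ) ^ N * ((b : ℝ) ^ (-(γ * N)) * #A) * (#U : ℝ) ^ (2 * K) +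
        (2 * Nat.size b : ℝ) ^ N * (K * (2 * Nat.size b : ℝ) ^ N * (b : ℝ) ^ (-(c / 2 * N)) *
          (#U : ℝ) ^ (2 * K)) * #A +
        (2 * Nat.size b : ℝ) ^ N * (b * (b : ℝ) ^ (-(c * N / (16 * (L + 1)))) *
          (#U : ℝ) ^ (2 * K)) * #A := by linarith
    _ = _ := by ring

end Pool.Agent.Lib.H79KC
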