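import Pool.Agent.Lib.H79KC.Defs

/-! # Basic facts on regular trees -/

namespace Pool.Agent.Lib.H79KC

open Finset

variable {b : ℕ} {sep : Prop} {R : ℕ → ℕ}

lemma Tree.range : ∀ {n : ℕ} {V : Finset ℤ}, Tree b sep R n V → ∀ x ∈ V, 0 ≤ x ∧ x < (b : ℤ) ^ n
  | 0, V, h, x, hx => by
    rw [Tree] at h
    rw [h, mem_singleton] at hx
    rw [hx]; simp
  | n + 1, V, h, x, hx => by
    obtain ⟨D, W, -, hD, -, hW, rfl⟩ := h
    obtain ⟨d, hd, hx⟩ := mem_biUnion.mp hx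
    obtain ⟨y, hy, rfl⟩ := mem_image.mp hx
    obtain ⟨h0, h1⟩ := (hW d hd).range y hy
    obtain ⟨d0, d1⟩ := hD d hd
    have hb : (0 : ℤ) ≤ (b : ℤ) ^ n := by positivity
    constructor
    · positivity
    · have h2 : d + 1 ≤ b := d1
      calc d * (b : ℤ) ^ n + y < d * (b : ℤ) ^ n + (b : ℤ) ^ n := by linarith
        _ = (d + 1) * (b : ℤ) ^ n := by ring
        _ ≤ b * (b : ℤ) ^ n := mul_le_mul_of_nonneg_right h2 hb
        _ = (b : ℤ) ^ (n + 1) := by ring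

lemma Tree.disj {n : ℕ} {D : Finset ℤ} {W : ℤ → Finset ℤ}
    (hW : ∀ d ∈ D, Tree b sep R n (W d)) :
    (D : Set ℤ).PairwiseDisjoint fun d => (W d).image fun x => d * (b : ℤ) ^ n + x := by
  intro d hd d' hd' hne
  rw [Function.onFun, Finset.disjoint_left]
  rintro z hz hz'
  obtain ⟨y, hy, rfl⟩ := mem_image.mp hz
  obtain ⟨y', hy', h⟩ := mem_image.mp hz'
  obtain ⟨h0, h1⟩ := (hW d hd).range y hy
  obtain ⟨h0', h1'⟩ := (hW d' hd').range y' hy'
  apply hne
  rcases lt_trichotomy d d' with h2 | h2 | h2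
  · have h3 : d + 1 ≤ d' := h2
    have h4 : (d + 1) * (b : ℤ) ^ n ≤ d' * (b : ℤ) ^ n :=
      mul_le_mul_of_nonneg_right h3 (by positivity)
    linarith
  · exact h2
  · have h3 : d' + 1 ≤ d := h2
    have h4 : (d' + 1) * (b : ℤ) ^ n ≤ d * (b : ℤ) ^ n :=
      mul_le_mul_of_nonneg_right h3 (by positivity)
    linarith

lemma Tree.card : ∀ {n : ℕ} {V : Finset ℤ}, Tree b sep R n V → #V = ∏ h ∈ Finset.range n, R h
  | 0, V, h => by
    rw [Tree] at h
    rw [h]; simp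
  | n + 1, V, h => by
    obtain ⟨D, W, hc, -, -, hW, rfl⟩ := h
    rw [card_biUnion (Tree.disj hW)]
    have : ∀ d ∈ D, #((W d).image fun x => d * (b : ℤ) ^ n + x) =
        ∏ h ∈ Finset.range n, R h := by
      intro d hd
      rw [card_image_of_injective _ (fun x y h => by simpa using h)]
      exact (hW d hd).card
    rw [sum_congr rfl this, sum_const, hc, prod_range_succ, smul_eq_mul, mul_comm]

lemma Tree.congr {R' : ℕ → ℕ} : ∀ {n : ℕ} {V : Finset ℤ}, (∀ h < n, R h = R' h) →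
    Tree b sep R n V → Tree b sep R' n V
  | 0, V, _, h => h
  | n + 1, V, hR, h => by
    obtain ⟨D, W, hc, hD, hs, hW, rfl⟩ := h
    exact ⟨D, W, hc.trans (hR n (by omega)), hD, hs,
      fun d hd => (hW d hd).congr fun h hh => hR h (by omega), rfl⟩

/-- The branching numbers of a nonempty tree are at least one. -/
lemma Tree.one_le {n : ℕ} {V : Finset ℤ} (h : Tree b sep R n V) (hne : V.Nonempty) :
    ∀ k < n, 1 ≤ R k := by
  intro k hk
  have h1 := h.card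
  have h2 : #V ≠ 0 := hne.card_pos.ne'
  rw [h1, prod_ne_zero_iff] at h2
  exact Nat.one_le_iff_ne_zero.mpr (h2 k (mem_range.mpr hk))

lemma Tree.le_base {n : ℕ} {V : Finset ℤ} (h : Tree b sep R (n + 1) V) : R n ≤ b := by
  obtain ⟨D, W, hc, hD, -⟩ := h
  rw [← hc]
  calc #D ≤ #(Finset.Ico (0 : ℤ) b) := card_le_card fun d hd => by
        rw [mem_Ico]; exact hD d hd
    _ = b := by simp

lemma Tree.le_base' : ∀ {n : ℕ} {V : Finset ℤ}, Tree b sep R n V → V.Nonempty →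
    ∀ h < n, R h ≤ b
  | 0, _, _, _, h, hh => by omega
  | n + 1, V, hV, hne, h, hh => by
    rcases Nat.lt_succ_iff_lt_or_eq.mp hh with h1 | rfl
    · obtain ⟨D, W, hc, hD, hs, hW, rfl⟩ := hV
      obtain ⟨x, hx⟩ := hne
      obtain ⟨d, hd, hx⟩ := mem_biUnion.mp hx
      obtain ⟨y, hy, -⟩ := mem_image.mp hx
      exact (hW d hd).le_base' ⟨y, hy⟩ h h1
    · exact hV.le_base

/-- A tree of height `m + n` is a tree of height `n` of trees of height `m`. -/
lemma Tree.split {m : ℕ} : ∀ {n : ℕ} {V : Finset ℤ}, Tree b sep R (m + n) V →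
    ∃ (P : Finset ℤ) (W : ℤ → Finset ℤ), Tree b sep (fun h => R (h + m)) n P ∧
      (∀ p ∈ P, Tree b sep R m (W p)) ∧
      V = P.biUnion fun p => (W p).image fun x => p * (b : ℤ) ^ m + x
  | 0, V, h => by
    refine ⟨{0}, fun _ => V, rfl, fun p _ => h, ?_⟩
    ext z; simp
  | n + 1, V, h => by
    have hmn : m.add n = m + n := rfl
    obtain ⟨D, W, hc, hD, hs, hW, rfl⟩ := h
    rw [hmn] at hc
    have ih : ∀ d : ℤ, ∃ (P : Finset ℤ) (W' : ℤ → Finset ℤ), d ∈ D →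
        Tree b sep (fun h => R (h + m)) n P ∧ (∀ p ∈ P, Tree b sep R m (W' p)) ∧
        W d = P.biUnion fun p => (W' p).image fun x => p * (b : ℤ) ^ m + x := by
      intro d
      by_cases hd : d ∈ D
      · obtain ⟨P, W', h1, h2, h3⟩ := (hW d hd).split
        exact ⟨P, W', fun _ => ⟨h1, h2, h3⟩⟩
      · exact ⟨∅, fun _ => ∅, fun h => absurd h hd⟩
    choose P W' hP using ih
    refine ⟨D.biUnion fun d => (P d).image fun x => d * (b : ℤ) ^ n + x,
      fun p => W' (p / (b : ℤ) ^ n) (p % (b : ℤ) ^ n), ?_, ?_, ?_⟩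
    · refine ⟨D, P, ?_, hD, hs, fun d hd => (hP d hd).1, rfl⟩
      rw [hc, add_comm m n]
    · intro p hp
      obtain ⟨d, hd, hp⟩ := mem_biUnion.mp hp
      obtain ⟨x, hx, rfl⟩ := mem_image.mp hp
      obtain ⟨x0, x1⟩ := (hP d hd).1.range x hx
      have hb : (0 : ℤ) < (b : ℤ) ^ n := lt_of_le_of_lt x0 x1
      have e1 : (d * (b : ℤ) ^ n + x) / (b : ℤ) ^ n = d := by
        rw [add_comm, Int.add_mul_ediv_right _ _ hb.ne', Int.ediv_eq_zero_of_lt x0 x1, zero_add]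
      have e2 : (d * (b : ℤ) ^ n + x) % (b : ℤ) ^ n = x := by
        rw [add_comm, Int.add_mul_emod_self_right, Int.emod_eq_of_lt x0 x1]
      show Tree b sep R m (W' ((d * (b : ℤ) ^ n + x) / (b : ℤ) ^ n)
        ((d * (b : ℤ) ^ n + x) % (b : ℤ) ^ n))
      rw [e1, e2]
      exact (hP d hd).2.1 x hx
    · ext z
      simp only [mem_biUnion, mem_image]
      constructor
      · rintro ⟨d, hd, y, hy, rfl⟩
        rw [(hP d hd).2.2] at hy
        obtain ⟨p, hp, hy⟩ := mem_biUnion.mp hy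
        obtain ⟨x, hx, rfl⟩ := mem_image.mp hy
        obtain ⟨x0, x1⟩ := (hP d hd).1.range p hp
        have hb : (0 : ℤ) < (b : ℤ) ^ n := lt_of_le_of_lt x0 x1
        have e1 : (d * (b : ℤ) ^ n + p) / (b : ℤ) ^ n = d := by
          rw [add_comm, Int.add_mul_ediv_right _ _ hb.ne', Int.ediv_eq_zero_of_lt x0 x1, zero_add]
        have e2 : (d * (b : ℤ) ^ n + p) % (b : ℤ) ^ n = p := by
          rw [add_comm, Int.add_mul_emod_self_right, Int.emod_eq_of_lt x0 x1]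
        refine ⟨d * (b : ℤ) ^ n + p, ⟨d, hd, p, hp, rfl⟩, x, ?_, ?_⟩
        · rw [e1, e2]; exact hx
        · rw [hmn, pow_add]; ring
      · rintro ⟨_, ⟨d, hd, p, hp, rfl⟩, x, hx, rfl⟩
        obtain ⟨x0, x1⟩ := (hP d hd).1.range p hp
        have hb : (0 : ℤ) < (b : ℤ) ^ n := lt_of_le_of_lt x0 x1
        have e1 : (d * (b : ℤ) ^ n + p) / (b : ℤ) ^ n = d := by
          rw [add_comm, Int.add_mul_ediv_right _ _ hb.ne', Int.ediv_eq_zero_of_lt x0 x1, zero_add]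
        have e2 : (d * (b : ℤ) ^ n + p) % (b : ℤ) ^ n = p := by
          rw [add_comm, Int.add_mul_emod_self_right, Int.emod_eq_of_lt x0 x1]
        rw [e1, e2] at hx
        refine ⟨d, hd, p * (b : ℤ) ^ m + x, ?_, ?_⟩
        · rw [(hP d hd).2.2]
          exact mem_biUnion.mpr ⟨p, hp, mem_image.mpr ⟨x, hx, rfl⟩⟩
        · rw [hmn, pow_add]; ring

end Pool.Agent.Lib.H79KC
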